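import Mathlib

/-!
Iterated stepping-down types of finite families of natural numbers.

`dl x y` is the least `j` with `x / 2 ^ j = y / 2 ^ j` (an ultrametric on the naturals), and
`E h f g` says that the indexed families `f` and `g` have the same order pattern, and so do the
families of their `dl`-values, iterated `h` times.
-/

set_option autoImplicit false

namespace Pool.Agent.Lib.MP_e96620_co

open Finset

theorem dl_exists (x y : ℕ) : ∃ j, x / 2 ^ j = y / 2 ^ j := by
  refine ⟨x + y, ?_⟩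
  have h1 : x + y < 2 ^ (x + y) := Nat.lt_two_pow_self
  rw [Nat.div_eq_of_lt (by omega), Nat.div_eq_of_lt (by omega)]

/-- The least `j` such that `x` and `y` agree in all binary digits from position `j` on. -/
def dl (x y : ℕ) : ℕ := Nat.find (dl_exists x y)

theorem div_pow_mono {x y i j : ℕ} (hij : i ≤ j) (h : x / 2 ^ i = y / 2 ^ i) :
    x / 2 ^ j = y / 2 ^ j := by
  obtain ⟨d, rfl⟩ := Nat.exists_eq_add_of_le hij
  rw [pow_add, ← Nat.div_div_eq_div_mul, ← Nat.div_div_eq_div_mul, h]

theorem dl_le_iff {x y j : ℕ} : dl x y ≤ j ↔ x / 2 ^ j = y / 2 ^ j := by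
  constructor
  · intro h
    exact div_pow_mono h (Nat.find_spec (dl_exists x y))
  · intro h
    exact Nat.find_min' _ h

theorem dl_self (x : ℕ) : dl x x = 0 := by
  have : dl x x ≤ 0 := dl_le_iff.2 rfl
  omega

theorem dl_comm (x y : ℕ) : dl x y = dl y x := by
  apply le_antisymm
  · exact dl_le_iff.2 (dl_le_iff.1 le_rfl).symm
  · exact dl_le_iff.2 (dl_le_iff.1 le_rfl).symm

theorem dl_ultra (x y z : ℕ) : dl x z ≤ max (dl x y) (dl y z) := by
  apply dl_le_iff.2
  exact (dl_le_iff.1 (le_max_left _ _)).trans (dl_le_iff.1 (le_max_right _ _))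

theorem dl_eq_zero {x y : ℕ} (h : dl x y = 0) : x = y := by
  have := dl_le_iff.1 h.le
  simpa using this

theorem dl_le_of_lt {x y j : ℕ} (hx : x < 2 ^ j) (hy : y < 2 ^ j) : dl x y ≤ j := by
  apply dl_le_iff.2
  rw [Nat.div_eq_of_lt hx, Nat.div_eq_of_lt hy]

/-- No three points, two of them distinct, are equidistant. -/
theorem dl_not_equi {x y z : ℕ} (hxy : x ≠ y) (h1 : dl x y = dl y z) (h2 : dl x y = dl x z) :
    False := by
  have hpos : dl x y ≠ 0 := fun h => hxy (dl_eq_zero h)
  obtain ⟨c, hc⟩ := Nat.exists_eq_succ_of_ne_zero hpos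
  have a1 : x / 2 ^ (c + 1) = y / 2 ^ (c + 1) := dl_le_iff.1 (by omega)
  have a2 : y / 2 ^ (c + 1) = z / 2 ^ (c + 1) := dl_le_iff.1 (by omega)
  have b1 : ¬ x / 2 ^ c = y / 2 ^ c := fun h => by have := dl_le_iff.2 h; omega
  have b2 : ¬ y / 2 ^ c = z / 2 ^ c := fun h => by have := dl_le_iff.2 h; omega
  have b3 : ¬ x / 2 ^ c = z / 2 ^ c := fun h => by have := dl_le_iff.2 h; omega
  rw [pow_succ, ← Nat.div_div_eq_div_mul, ← Nat.div_div_eq_div_mul] at a1 a2
  omega

/-- Same order pattern, iterated along `dl`. -/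
def E : ℕ → (ι : Type) → (ι → ℕ) → (ι → ℕ) → Prop
  | 0, _, f, g => ∀ i j, f i < f j ↔ g i < g j
  | h + 1, ι, f, g => (∀ i j, f i < f j ↔ g i < g j) ∧
      E h (ι × ι) (fun p => dl (f p.1) (f p.2)) (fun p => dl (g p.1) (g p.2))

theorem E.pat {h : ℕ} {ι : Type} {f g : ι → ℕ} (hE : E h ι f g) :
    ∀ i j, f i < f j ↔ g i < g j := by
  cases h with
  | zero => exact hE
  | succ h => exact hE.1

theorem E.eqpat {h : ℕ} {ι : Type} {f g : ι → ℕ} (hE : E h ι f g) (i j : ι) :
    f i = f j ↔ g i = g j := by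
  have h1 := hE.pat i j
  have h2 := hE.pat j i
  omega

theorem E.refl : ∀ (h : ℕ) (ι : Type) (f : ι → ℕ), E h ι f f
  | 0, _, _ => fun _ _ => Iff.rfl
  | h + 1, _, _ => ⟨fun _ _ => Iff.rfl, E.refl h _ _⟩

theorem E.symm : ∀ {h : ℕ} {ι : Type} {f g : ι → ℕ}, E h ι f g → E h ι g f
  | 0, _, _, _, hE => fun i j => (hE i j).symm
  | _ + 1, _, _, _, hE => ⟨fun i j => (hE.1 i j).symm, E.symm hE.2⟩

theorem E.trans : ∀ {h : ℕ} {ι : Type} {f g k : ι → ℕ}, E h ι f g → E h ι g k → E h ι f k
  | 0, _, _, _, _, h1, h2 => fun i j => (h1 i j).trans (h2 i j)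
  | _ + 1, _, _, _, _, h1, h2 => ⟨fun i j => (h1.1 i j).trans (h2.1 i j), E.trans h1.2 h2.2⟩

theorem E.comp : ∀ {h : ℕ} {ι κ : Type} {f g : ι → ℕ} (σ : κ → ι),
    E h ι f g → E h κ (fun i => f (σ i)) (fun i => g (σ i))
  | 0, _, _, _, _, σ, hE => fun i j => hE (σ i) (σ j)
  | _ + 1, _, κ, _, _, σ, hE =>
      ⟨fun i j => hE.1 (σ i) (σ j), E.comp (fun p : κ × κ => (σ p.1, σ p.2)) hE.2⟩

/-- The setoid of `E h` on families indexed by `Fin m`. -/
def eSetoid (h m : ℕ) : Setoid (Fin m → ℕ) :=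
  ⟨E h (Fin m), ⟨E.refl h _, E.symm, E.trans⟩⟩

theorem card_image_dl (X : Finset ℕ) :
    ((X ×ˢ X).image (fun p => dl p.1 p.2)).card ≤ X.card := by
  induction X using Finset.induction_on with
  | empty => simp
  | insert z X hz ih =>
    rcases X.eq_empty_or_nonempty with rfl | hne
    · simp
    · obtain ⟨y0, hy0, hmin⟩ := X.exists_min_image (fun y => dl z y) hne
      have key : ∀ y ∈ X, dl z y ∈ insert (dl z y0) ((X ×ˢ X).image (fun p => dl p.1 p.2)) := by
        intro y hy
        by_cases h : dl z y = dl z y0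
        · rw [h]; exact mem_insert_self _ _
        · apply mem_insert_of_mem
          refine mem_image.2 ⟨(y0, y), mem_product.2 ⟨hy0, hy⟩, ?_⟩
          have h1 := hmin y hy
          have h2 := dl_ultra z y0 y
          have h3 := dl_ultra y0 z y
          rw [dl_comm y0 z] at h3
          simp only
          omega
      have hsub : ((insert z X ×ˢ insert z X).image (fun p => dl p.1 p.2)) ⊆
          insert (dl z y0) ((X ×ˢ X).image (fun p => dl p.1 p.2)) := by
        intro d hd
        obtain ⟨⟨a, b⟩, hab, rfl⟩ := mem_image.1 hd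
        obtain ⟨ha, hb⟩ := mem_product.1 hab
        simp only at ha hb ⊢
        rcases mem_insert.1 ha with ha' | ha'
        · rcases mem_insert.1 hb with hb' | hb'
          · apply mem_insert_of_mem
            refine mem_image.2 ⟨(y0, y0), mem_product.2 ⟨hy0, hy0⟩, ?_⟩
            simp [dl_self, ha', hb']
          · rw [ha']; exact key b hb'
        · rcases mem_insert.1 hb with hb' | hb'
          · rw [hb', dl_comm a z]; exact key a ha'
          · exact mem_insert_of_mem (mem_image.2 ⟨(a, b), mem_product.2 ⟨ha', hb'⟩, rfl⟩)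
      calc _ ≤ _ := card_le_card hsub
        _ ≤ _ + 1 := card_insert_le _ _
        _ ≤ X.card + 1 := by omega
        _ = _ := (card_insert_of_notMem hz).symm

theorem exists_factor (m : ℕ) (f : Fin m → ℕ) :
    ∃ (r : Fin m × Fin m → Fin m) (e : Fin m → ℕ), ∀ p, dl (f p.1) (f p.2) = e (r p) := by
  set X : Finset ℕ := univ.image f with hX
  set D : Finset ℕ := (X ×ˢ X).image (fun p => dl p.1 p.2) with hD
  have hDm : D.card ≤ m := by
    calc D.card ≤ X.card := card_image_dl X
      _ ≤ (univ : Finset (Fin m)).card := card_image_le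
      _ = m := by simp
  have hmem : ∀ p : Fin m × Fin m, dl (f p.1) (f p.2) ∈ D := by
    intro p
    exact mem_image.2 ⟨(f p.1, f p.2), mem_product.2
      ⟨mem_image_of_mem _ (mem_univ _), mem_image_of_mem _ (mem_univ _)⟩, rfl⟩
  refine ⟨fun p => Fin.castLE hDm (D.equivFin ⟨_, hmem p⟩),
    fun i => if hi : i.val < D.card then (D.equivFin.symm ⟨i.val, hi⟩ : ℕ) else 0, ?_⟩
  intro p
  have hlt : (Fin.castLE hDm (D.equivFin ⟨_, hmem p⟩)).val < D.card :=
    (D.equivFin ⟨_, hmem p⟩).isLt
  simp only [hlt, dif_pos]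
  have : (⟨(Fin.castLE hDm (D.equivFin ⟨_, hmem p⟩)).val, hlt⟩ : Fin D.card) =
      D.equivFin ⟨_, hmem p⟩ := Fin.ext rfl
  rw [this, Equiv.symm_apply_apply]

theorem exists_code (m : ℕ) (hm : 1 ≤ m) : ∀ h : ℕ, ∃ (n : ℕ) (code : (Fin m → ℕ) → Fin n),
    n ≤ (2 * m) ^ (m * m * (h + 1)) ∧ ∀ f g, code f = code g → E h (Fin m) f g := by
  classical
  have hpat : ∀ f g : Fin m → ℕ,
      (fun p : Fin m × Fin m => decide (f p.1 < f p.2)) =
        (fun p : Fin m × Fin m => decide (g p.1 < g p.2)) → ∀ i j, f i < f j ↔ g i < g j := by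
    intro f g hfg i j
    have := congrFun hfg (i, j)
    simpa using this
  intro h
  induction h with
  | zero =>
    refine ⟨Fintype.card (Fin m × Fin m → Bool), fun f => Fintype.equivFin _
      (fun p : Fin m × Fin m => decide (f p.1 < f p.2)), ?_, ?_⟩
    · simp only [Fintype.card_fun, Fintype.card_bool, Fintype.card_prod, Fintype.card_fin,
        zero_add, mul_one]
      exact Nat.pow_le_pow_left (by omega) _
    · intro f g hfg
      exact hpat f g ((Fintype.equivFin _).injective hfg)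
  | succ h ih =>
    obtain ⟨n, code, hn, hcode⟩ := ih
    choose r e hre using exists_factor m
    refine ⟨Fintype.card ((Fin m × Fin m → Bool) × (Fin m × Fin m → Fin m) × Fin n),
      fun f => Fintype.equivFin _
        (fun p : Fin m × Fin m => decide (f p.1 < f p.2), r f, code (e f)), ?_, ?_⟩
    · simp only [Fintype.card_fun, Fintype.card_bool, Fintype.card_prod, Fintype.card_fin]
      calc 2 ^ (m * m) * (m ^ (m * m) * n)
          ≤ 2 ^ (m * m) * (m ^ (m * m) * (2 * m) ^ (m * m * (h + 1))) := by gcongr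
        _ = (2 * m) ^ (m * m * (h + 1 + 1)) := by
          rw [← mul_assoc, ← mul_pow, ← pow_add]; congr 1; ring
    · intro f g hfg
      have h0 := (Fintype.equivFin _).injective hfg
      simp only [Prod.mk.injEq] at h0
      obtain ⟨h1, h2, h3⟩ := h0
      refine ⟨hpat f g h1, ?_⟩
      have h4 := (hcode _ _ h3).comp (r f)
      have e1 : (fun p : Fin m × Fin m => dl (f p.1) (f p.2)) = fun p => e f (r f p) :=
        funext (hre f)
      have e2 : (fun p : Fin m × Fin m => dl (g p.1) (g p.2)) = fun p => e g (r f p) := by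
        rw [h2]; exact funext (hre g)
      rw [e1, e2]
      exact h4

theorem finite_quot (h m : ℕ) (hm : 1 ≤ m) :
    Finite (Quotient (eSetoid h m)) ∧
      Nat.card (Quotient (eSetoid h m)) ≤ (2 * m) ^ (m * m * (h + 1)) := by
  obtain ⟨n, code, hn, hcode⟩ := exists_code m hm h
  have hinj : Function.Injective (fun q : Quotient (eSetoid h m) => code q.out) := by
    intro q q' hq
    have := hcode _ _ hq
    rw [← Quotient.out_eq q, ← Quotient.out_eq q']
    exact Quotient.sound this
  refine ⟨Finite.of_injective _ hinj, ?_⟩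
  calc _ ≤ Nat.card (Fin n) := Nat.card_le_card_of_injective _ hinj
    _ = n := by simp
    _ ≤ _ := hn

end Pool.Agent.Lib.MP_e96620_co
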