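import Mathlib
import Pool.Agent.Lib.MP_e96620_co.Basic

/-!
The relation `R h X Y` (same type of depth `h`) on finite sets, the anchored relation `Q`,
and what they say about cardinalities.
-/

set_option autoImplicit false

namespace Pool.Agent.Lib.MP_e96620_co

open Finset

/-- `X` and `Y` are ranges of `E h`-related families. -/
def R (h : ℕ) (X Y : Finset ℕ) : Prop :=
  ∃ (ι : Type) (f g : ι → ℕ), (∀ x, x ∈ X ↔ ∃ i, f i = x) ∧ (∀ y, y ∈ Y ↔ ∃ i, g i = y) ∧
    E h ι f g

/-- `X` and `Y` are in a bijection under which the labels `l` are `E h`-related. -/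
def Q (h : ℕ) (l : ℕ → ℕ) (X Y : Finset ℕ) : Prop :=
  ∃ (ι : Type) (f g : ι → ℕ), (∀ x, x ∈ X ↔ ∃ i, f i = x) ∧ (∀ y, y ∈ Y ↔ ∃ i, g i = y) ∧
    (∀ i j, f i = f j ↔ g i = g j) ∧ E h ι (fun i => l (f i)) (fun i => l (g i))

theorem transfer_le {ι : Type} {f g : ι → ℕ} {X Y : Finset ℕ}
    (hX : ∀ x, x ∈ X ↔ ∃ i, f i = x) (hY : ∀ y, y ∈ Y ↔ ∃ i, g i = y)
    (heq : ∀ i j, f i = f j ↔ g i = g j) (p q : ℕ → Prop) [DecidablePred p] [DecidablePred q]
    (hpq : ∀ i, p (f i) → q (g i)) : (X.filter p).card ≤ (Y.filter q).card := by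
  classical
  let φ : ℕ → ℕ := fun x => if hx : ∃ i, f i = x then g hx.choose else 0
  have hφ : ∀ i, φ (f i) = g i := by
    intro i
    have hx : ∃ j, f j = f i := ⟨i, rfl⟩
    simp only [φ, dif_pos hx]
    exact (heq _ _).1 hx.choose_spec
  apply card_le_card_of_injOn φ
  · intro x hx
    have hx' := mem_filter.1 (mem_coe.1 hx)
    obtain ⟨i, rfl⟩ := (hX x).1 hx'.1
    rw [hφ]
    exact mem_coe.2 (mem_filter.2 ⟨(hY _).2 ⟨i, rfl⟩, hpq i hx'.2⟩)
  · intro x hx y hy hxy
    obtain ⟨i, rfl⟩ := (hX x).1 (mem_filter.1 (mem_coe.1 hx)).1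
    obtain ⟨j, rfl⟩ := (hX y).1 (mem_filter.1 (mem_coe.1 hy)).1
    rw [hφ, hφ] at hxy
    exact (heq _ _).2 hxy

theorem transfer {ι : Type} {f g : ι → ℕ} {X Y : Finset ℕ}
    (hX : ∀ x, x ∈ X ↔ ∃ i, f i = x) (hY : ∀ y, y ∈ Y ↔ ∃ i, g i = y)
    (heq : ∀ i j, f i = f j ↔ g i = g j) (p q : ℕ → Prop) [DecidablePred p] [DecidablePred q]
    (hpq : ∀ i, p (f i) ↔ q (g i)) : (X.filter p).card = (Y.filter q).card :=
  le_antisymm (transfer_le hX hY heq p q fun i => (hpq i).1)
    (transfer_le hY hX (fun i j => (heq i j).symm) q p fun i => (hpq i).2)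

theorem mem_image_iff {ι : Type} {f : ι → ℕ} {X : Finset ℕ} (l : ℕ → ℕ)
    (hX : ∀ x, x ∈ X ↔ ∃ i, f i = x) : ∀ d, d ∈ X.image l ↔ ∃ i, l (f i) = d := by
  intro d
  constructor
  · intro hd
    obtain ⟨x, hx, rfl⟩ := mem_image.1 hd
    obtain ⟨i, rfl⟩ := (hX x).1 hx
    exact ⟨i, rfl⟩
  · rintro ⟨i, rfl⟩
    exact mem_image_of_mem _ ((hX _).2 ⟨i, rfl⟩)

theorem Q.toR {h : ℕ} {l : ℕ → ℕ} {X Y : Finset ℕ} (hQ : Q h l X Y) :
    R h (X.image l) (Y.image l) := by
  obtain ⟨ι, f, g, hX, hY, _, hE⟩ := hQ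
  exact ⟨ι, _, _, mem_image_iff l hX, mem_image_iff l hY, hE⟩

theorem Q.card_eq {h : ℕ} {l : ℕ → ℕ} {X Y : Finset ℕ} (hQ : Q h l X Y) : X.card = Y.card := by
  obtain ⟨ι, f, g, hX, hY, heq, _⟩ := hQ
  have := transfer hX hY heq (fun _ => True) (fun _ => True) (fun _ => Iff.rfl)
  simpa using this

theorem R.card_eq {h : ℕ} {X Y : Finset ℕ} (hR : R h X Y) : X.card = Y.card := by
  obtain ⟨ι, f, g, hX, hY, hE⟩ := hR
  have := transfer hX hY hE.eqpat (fun _ => True) (fun _ => True) (fun _ => Iff.rfl)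
  simpa using this

theorem rank_lt_inj {Y : Finset ℕ} {a b : ℕ} (ha : a ∈ Y) (hb : b ∈ Y)
    (h : (Y.filter (· < a)).card = (Y.filter (· < b)).card) : a = b := by
  have key : ∀ a b : ℕ, a ∈ Y → a < b → (Y.filter (· < a)).card < (Y.filter (· < b)).card := by
    intro a b ha hab
    apply card_lt_card
    refine ⟨fun x hx => ?_, fun hsub => ?_⟩
    · have := mem_filter.1 hx
      exact mem_filter.2 ⟨this.1, this.2.trans hab⟩
    · have := mem_filter.1 (hsub (mem_filter.2 ⟨ha, hab⟩))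
      exact lt_irrefl _ this.2
  rcases lt_trichotomy a b with hab | hab | hab
  · have := key a b ha hab; omega
  · exact hab
  · have := key b a hb hab; omega

theorem rank_gt_inj {Y : Finset ℕ} {a b : ℕ} (ha : a ∈ Y) (hb : b ∈ Y)
    (h : (Y.filter (a < ·)).card = (Y.filter (b < ·)).card) : a = b := by
  have key : ∀ a b : ℕ, b ∈ Y → a < b → (Y.filter (b < ·)).card < (Y.filter (a < ·)).card := by
    intro a b hb hab
    apply card_lt_card
    refine ⟨fun x hx => ?_, fun hsub => ?_⟩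
    · have := mem_filter.1 hx
      exact mem_filter.2 ⟨this.1, hab.trans this.2⟩
    · have := mem_filter.1 (hsub (mem_filter.2 ⟨hb, hab⟩))
      exact lt_irrefl _ this.2
  rcases lt_trichotomy a b with hab | hab | hab
  · have := key a b hb hab; omega
  · exact hab
  · have := key b a ha hab; omega

/-- A common point with the same rank (from below or from above) anchors the relation. -/
theorem R.anchor {h : ℕ} {X Y : Finset ℕ} (hR : R (h + 1) X Y) {x : ℕ} (hx : x ∈ X) (hy : x ∈ Y)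
    (hrank : (X.filter (· < x)).card = (Y.filter (· < x)).card ∨
      (X.filter (x < ·)).card = (Y.filter (x < ·)).card) : Q h (dl x) X Y := by
  obtain ⟨ι, f, g, hX, hY, hE⟩ := hR
  obtain ⟨i, hi⟩ := (hX x).1 hx
  have hgi : g i = x := by
    have hmem : g i ∈ Y := (hY _).2 ⟨i, rfl⟩
    rcases hrank with hr | hr
    · have := transfer hX hY hE.eqpat (· < x) (· < g i) (fun j => by
        rw [← hi]; exact hE.pat j i)
      exact rank_lt_inj hmem hy (by rw [← this, hr])
    · have := transfer hX hY hE.eqpat (x < ·) (g i < ·) (fun j => by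
        rw [← hi]; exact hE.pat i j)
      exact rank_gt_inj hmem hy (by rw [← this, hr])
  refine ⟨ι, f, g, hX, hY, hE.eqpat, ?_⟩
  have := hE.2.comp (fun j : ι => (i, j))
  simp only [hi, hgi] at this
  exact this

/-- (H1) If both sets meet the label class `c` and the outside parts are nested, they are equal. -/
theorem Q.outside_eq {h : ℕ} {l : ℕ → ℕ} {X Y : Finset ℕ} (hQ : Q h l X Y) {c : ℕ}
    (hX0 : ∃ x ∈ X, l x = c) (hY0 : ∃ y ∈ Y, l y = c)
    (hsub : X.filter (fun x => l x ≠ c) ⊆ Y.filter (fun x => l x ≠ c)) :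
    X.filter (fun x => l x ≠ c) = Y.filter (fun x => l x ≠ c) := by
  obtain ⟨ι, f, g, hX, hY, heq, hE⟩ := hQ
  obtain ⟨x, hx, hxc⟩ := hX0
  obtain ⟨y, hy, hyc⟩ := hY0
  obtain ⟨i, rfl⟩ := (hX x).1 hx
  have hlt := transfer hX hY heq (fun z => l z < c) (fun z => l z < l (g i)) (fun j => by
    rw [← hxc]; exact hE.pat j i)
  have hgt := transfer hX hY heq (fun z => c < l z) (fun z => l (g i) < l z) (fun j => by
    rw [← hxc]; exact hE.pat i j)
  have hne := transfer hX hY heq (fun z => l z ≠ c) (fun z => l z ≠ l (g i)) (fun j => by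
    rw [← hxc]; exact not_congr (hE.eqpat j i))
  have s1 : (X.filter (fun z => l z < c)).card ≤ (Y.filter (fun z => l z < c)).card := by
    apply card_le_card
    intro z hz
    have hz' := mem_filter.1 hz
    have := mem_filter.1 (hsub (mem_filter.2 ⟨hz'.1, hz'.2.ne⟩))
    exact mem_filter.2 ⟨this.1, hz'.2⟩
  have s2 : (X.filter (fun z => c < l z)).card ≤ (Y.filter (fun z => c < l z)).card := by
    apply card_le_card
    intro z hz
    have hz' := mem_filter.1 hz
    have := mem_filter.1 (hsub (mem_filter.2 ⟨hz'.1, hz'.2.ne'⟩))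
    exact mem_filter.2 ⟨this.1, hz'.2⟩
  have hc : l (g i) = c := by
    rcases lt_trichotomy (l (g i)) c with hlt' | heq' | hgt'
    · exfalso
      have : (Y.filter (fun z => c < l z)).card < (Y.filter (fun z => l (g i) < l z)).card := by
        apply card_lt_card
        refine ⟨fun z hz => ?_, fun hs => ?_⟩
        · have := mem_filter.1 hz
          exact mem_filter.2 ⟨this.1, hlt'.trans this.2⟩
        · have := mem_filter.1 (hs (mem_filter.2 ⟨hy, by omega⟩))
          omega
      omega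
    · exact heq'
    · exfalso
      have : (Y.filter (fun z => l z < c)).card < (Y.filter (fun z => l z < l (g i))).card := by
        apply card_lt_card
        refine ⟨fun z hz => ?_, fun hs => ?_⟩
        · have := mem_filter.1 hz
          exact mem_filter.2 ⟨this.1, this.2.trans hgt'⟩
        · have := mem_filter.1 (hs (mem_filter.2 ⟨hy, by omega⟩))
          omega
      omega
  rw [hc] at hne
  exact eq_of_subset_of_card_le hsub hne.ge

/-- (H3) If the labels from `c` on are the same for both sets, the numbers of points with such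
labels agree. -/
theorem Q.top_card_eq {h : ℕ} {l : ℕ → ℕ} {X Y : Finset ℕ} (hQ : Q h l X Y) {c : ℕ}
    (hΛ : (X.image l).filter (c ≤ ·) = (Y.image l).filter (c ≤ ·)) :
    (X.filter (fun x => c ≤ l x)).card = (Y.filter (fun x => c ≤ l x)).card := by
  obtain ⟨ι, f, g, hX, hY, heq, hE⟩ := hQ
  have key : ∀ (D : Finset ℕ) (d : ℕ), d ∈ D →
      (c ≤ d ↔ (D.filter (d ≤ ·)).card ≤ (D.filter (c ≤ ·)).card) := by
    intro D d hd
    constructor
    · intro hcd
      apply card_le_card
      intro z hz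
      have := mem_filter.1 hz
      exact mem_filter.2 ⟨this.1, hcd.trans this.2⟩
    · intro hle
      by_contra hlt
      have : (D.filter (c ≤ ·)).card < (D.filter (d ≤ ·)).card := by
        apply card_lt_card
        refine ⟨fun z hz => ?_, fun hs => ?_⟩
        · have := mem_filter.1 hz
          exact mem_filter.2 ⟨this.1, by omega⟩
        · have := mem_filter.1 (hs (mem_filter.2 ⟨hd, le_rfl⟩))
          omega
      omega
  apply transfer hX hY heq
  intro i
  have t := transfer (mem_image_iff l hX) (mem_image_iff l hY) hE.eqpat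
    (l (f i) ≤ ·) (l (g i) ≤ ·) (fun j => by
      have : l (f j) < l (f i) ↔ l (g j) < l (g i) := hE.pat j i
      show l (f i) ≤ l (f j) ↔ l (g i) ≤ l (g j)
      omega)
  rw [key (X.image l) _ ((mem_image_iff l hX _).2 ⟨i, rfl⟩),
    key (Y.image l) _ ((mem_image_iff l hY _).2 ⟨i, rfl⟩), t, hΛ]

end Pool.Agent.Lib.MP_e96620_co
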