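import Mathlib
import Pool.Agent.Lib.MP_e96620_co.Rel

/-!
Counting lemmas for families of sets that agree outside an active set.
-/

set_option autoImplicit false

namespace Pool.Agent.Lib.MP_e96620_co

open Finset

/-- All members of the family have the part `F` outside of the active set `A`. -/
def Base (F A : Finset ℕ) (𝒯 : Finset (Finset ℕ)) : Prop := ∀ T ∈ 𝒯, T \ A = F

theorem Base.subset {F A : Finset ℕ} {𝒯 : Finset (Finset ℕ)} (hb : Base F A 𝒯) {T : Finset ℕ}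
    (hT : T ∈ 𝒯) : F ⊆ T := by
  rw [← hb T hT]; exact sdiff_subset

theorem Base.mem_iff {F A : Finset ℕ} {𝒯 : Finset (Finset ℕ)} (hb : Base F A 𝒯) {T : Finset ℕ}
    (hT : T ∈ 𝒯) (x : ℕ) : x ∈ F ↔ x ∈ T ∧ x ∉ A := by
  rw [← hb T hT]; exact mem_sdiff

theorem Base.eq_of_inter {F A : Finset ℕ} {𝒯 : Finset (Finset ℕ)} (hb : Base F A 𝒯)
    {T T' : Finset ℕ} (hT : T ∈ 𝒯) (hT' : T' ∈ 𝒯) (h : T ∩ A = T' ∩ A) : T = T' := by
  ext x
  have h1 := hb.mem_iff hT x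
  have h2 := hb.mem_iff hT' x
  have h3 : x ∈ T ∩ A ↔ x ∈ T' ∩ A := by rw [h]
  simp only [mem_inter] at h3
  tauto

theorem Base.card_le {F A : Finset ℕ} {𝒯 : Finset (Finset ℕ)} (hb : Base F A 𝒯) :
    𝒯.card ≤ 2 ^ A.card := by
  rw [← card_powerset]
  apply card_le_card_of_injOn (fun T => T ∩ A)
  · intro T _
    exact mem_coe.2 (mem_powerset.2 inter_subset_right)
  · intro T hT T' hT' h
    exact hb.eq_of_inter (mem_coe.1 hT) (mem_coe.1 hT') h

theorem Base.fiber {F A : Finset ℕ} {𝒯 : Finset (Finset ℕ)} (hb : Base F A 𝒯) {H : Finset ℕ}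
    (hH : H ⊆ A) (V : Finset ℕ) : Base (F ∪ V) (A \ H) (𝒯.filter (fun T => T ∩ H = V)) := by
  intro T hT
  obtain ⟨hT1, hT2⟩ := mem_filter.1 hT
  ext x
  have h1 := hb.mem_iff hT1 x
  have h2 : x ∈ T ∩ H ↔ x ∈ V := by rw [hT2]
  have h3 : x ∈ H → x ∈ A := fun hx => hH hx
  simp only [mem_inter, mem_sdiff, mem_union] at h2 ⊢
  tauto

theorem Base.out {F A : Finset ℕ} {𝒯 : Finset (Finset ℕ)} (hb : Base F A 𝒯) (w : ℕ) :
    Base F (A.erase w) (𝒯.filter (fun T => w ∉ T)) := by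
  intro T hT
  obtain ⟨hT1, hT2⟩ := mem_filter.1 hT
  ext x
  have h1 := hb.mem_iff hT1 x
  simp only [mem_sdiff, mem_erase]
  by_cases hxw : x = w
  · subst hxw; tauto
  · tauto

theorem Base.inn {F A : Finset ℕ} {𝒯 : Finset (Finset ℕ)} (hb : Base F A 𝒯) (w : ℕ) :
    Base (insert w F) (A.erase w) (𝒯.filter (fun T => w ∈ T)) := by
  intro T hT
  obtain ⟨hT1, hT2⟩ := mem_filter.1 hT
  ext x
  have h1 := hb.mem_iff hT1 x
  simp only [mem_sdiff, mem_erase, mem_insert]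
  by_cases hxw : x = w
  · subst hxw; tauto
  · tauto

theorem sperner_nat (H : Finset ℕ) (𝒜 : Finset (Finset ℕ)) (hsub : ∀ V ∈ 𝒜, V ⊆ H)
    (hanti : ∀ V ∈ 𝒜, ∀ V' ∈ 𝒜, V ⊆ V' → V = V') : 𝒜.card ≤ H.card.choose (H.card / 2) := by
  classical
  let φ : Finset ℕ → Finset {x // x ∈ H} := fun V => V.subtype (· ∈ H)
  have hφ : ∀ V ∈ 𝒜, ∀ V' ∈ 𝒜, φ V ⊆ φ V' → V = V' := by
    intro V hV V' hV' h
    apply hanti V hV V' hV'
    intro x hx
    have : (⟨x, hsub V hV hx⟩ : {x // x ∈ H}) ∈ φ V := by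
      simp only [φ, mem_subtype]; exact hx
    have h2 := h this
    simp only [φ, mem_subtype] at h2
    exact h2
  have hinj : Set.InjOn φ (𝒜 : Set (Finset ℕ)) := by
    intro V hV V' hV' h
    exact hφ V (mem_coe.1 hV) V' (mem_coe.1 hV') h.subset
  have hA : IsAntichain (· ⊆ ·) ((𝒜.image φ : Finset (Finset {x // x ∈ H})) :
      Set (Finset {x // x ∈ H})) := by
    intro a ha b hb hab hsub'
    obtain ⟨V, hV, rfl⟩ := mem_image.1 (mem_coe.1 ha)
    obtain ⟨V', hV', rfl⟩ := mem_image.1 (mem_coe.1 hb)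
    exact hab (by rw [hφ V hV V' hV' hsub'])
  have := hA.sperner
  rw [card_image_of_injOn hinj, Fintype.card_coe] at this
  exact this

theorem harvest {A : Finset ℕ} (𝒯 : Finset (Finset ℕ)) {H : Finset ℕ} (hH : H ⊆ A)
    (𝒜 : Finset (Finset ℕ)) (hsub : ∀ V ∈ 𝒜, V ⊆ H)
    (hanti : ∀ V ∈ 𝒜, ∀ V' ∈ 𝒜, V ⊆ V' → V = V') (B D γ : ℝ) (hD : 0 ≤ D)
    (hγ : (H.card.choose (H.card / 2) : ℝ) ≤ 2 ^ H.card * γ)
    (hfib1 : ∀ V ∈ 𝒜,
      ((𝒯.filter (fun T => T ∩ H = V)).card : ℝ) ≤ 2 ^ (A \ H).card * (B + D))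
    (hfib2 : ∀ V, V ⊆ H → V ∉ 𝒜 →
      ((𝒯.filter (fun T => T ∩ H = V)).card : ℝ) ≤ 2 ^ (A \ H).card * B) :
    (𝒯.card : ℝ) ≤ 2 ^ A.card * (B + γ * D) := by
  classical
  have hcard : 𝒯.card = ∑ V ∈ H.powerset, (𝒯.filter (fun T => T ∩ H = V)).card :=
    card_eq_sum_card_fiberwise (f := fun T => T ∩ H)
      (fun T _ => mem_coe.2 (mem_powerset.2 inter_subset_right))
  have hA : A.card = (A \ H).card + H.card := (card_sdiff_add_card_eq_card hH).symm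
  have hsp : (𝒜.card : ℝ) ≤ 2 ^ H.card * γ :=
    le_trans (by exact_mod_cast sperner_nat H 𝒜 hsub hanti) hγ
  have hfil : H.powerset.filter (· ∈ 𝒜) = 𝒜 := by
    ext V
    simp only [mem_filter, mem_powerset]
    exact ⟨fun h => h.2, fun h => ⟨hsub V h, h⟩⟩
  calc (𝒯.card : ℝ) = ∑ V ∈ H.powerset, ((𝒯.filter (fun T => T ∩ H = V)).card : ℝ) := by
        rw [hcard]; push_cast; rfl
    _ ≤ ∑ V ∈ H.powerset,
          (2 ^ (A \ H).card * B + if V ∈ 𝒜 then 2 ^ (A \ H).card * D else 0) := by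
        apply sum_le_sum
        intro V hV
        split_ifs with hVA
        · rw [← mul_add]; exact hfib1 V hVA
        · rw [add_zero]; exact hfib2 V (mem_powerset.1 hV) hVA
    _ = 2 ^ H.card * (2 ^ (A \ H).card * B) + 𝒜.card * (2 ^ (A \ H).card * D) := by
        rw [sum_add_distrib, sum_const, card_powerset, ← sum_filter, hfil, sum_const]
        simp [nsmul_eq_mul]
    _ ≤ 2 ^ H.card * (2 ^ (A \ H).card * B) + 2 ^ H.card * γ * (2 ^ (A \ H).card * D) := by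
        gcongr
    _ = 2 ^ A.card * (B + γ * D) := by
        rw [hA, pow_add]; ring

theorem reveal {A : Finset ℕ} (𝒯 : Finset (Finset ℕ)) {H : Finset ℕ} (hH : H ⊆ A) (B : ℝ)
    (hfib : ∀ V, V ⊆ H →
      ((𝒯.filter (fun T => T ∩ H = V)).card : ℝ) ≤ 2 ^ (A \ H).card * B) :
    (𝒯.card : ℝ) ≤ 2 ^ A.card * B := by
  have := harvest 𝒯 hH ∅ (by simp) (by simp) B 0 1 le_rfl
    (by rw [mul_one]; exact_mod_cast Nat.choose_le_two_pow _ _) (by simp)
    (fun V hV _ => hfib V hV)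
  simpa using this

theorem split_one {A : Finset ℕ} (𝒯 : Finset (Finset ℕ)) {w : ℕ} (hw : w ∈ A) (B ρ e : ℝ)
    (hρ : Real.exp ρ + Real.exp (-(2 * ρ)) ≤ 2)
    (h1 : ((𝒯.filter (fun T => w ∉ T)).card : ℝ) ≤
      2 ^ (A.erase w).card * (B + Real.exp (ρ * (e + 1))))
    (h2 : ((𝒯.filter (fun T => w ∈ T)).card : ℝ) ≤
      2 ^ (A.erase w).card * (B + Real.exp (ρ * (e - 2)))) :
    (𝒯.card : ℝ) ≤ 2 ^ A.card * (B + Real.exp (ρ * e)) := by
  have hc : (𝒯.filter (fun T => w ∈ T)).card + (𝒯.filter (fun T => w ∉ T)).card = 𝒯.card :=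
    card_filter_add_card_filter_not _
  have hA : (A.erase w).card + 1 = A.card := card_erase_add_one hw
  have e1 : Real.exp (ρ * (e + 1)) = Real.exp (ρ * e) * Real.exp ρ := by
    rw [← Real.exp_add]; congr 1; ring
  have e2 : Real.exp (ρ * (e - 2)) = Real.exp (ρ * e) * Real.exp (-(2 * ρ)) := by
    rw [← Real.exp_add]; congr 1; ring
  have hpos := Real.exp_pos (ρ * e)
  have h2pos : (0 : ℝ) < 2 ^ (A.erase w).card := by positivity
  rw [← hc, ← hA, pow_succ]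
  push_cast
  rw [e1] at h1
  rw [e2] at h2
  have : Real.exp (ρ * e) * Real.exp ρ + Real.exp (ρ * e) * Real.exp (-(2 * ρ))
      ≤ Real.exp (ρ * e) * 2 := by
    rw [← mul_add]; gcongr
  nlinarith

end Pool.Agent.Lib.MP_e96620_co
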