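import Mathlib

/-!
A random choice of signs balances finitely many weight vectors of small norm.
-/

set_option autoImplicit false

namespace Pool.Agent.Lib.MP_e96620_co

open Finset

theorem sum_exp_signs {Q : Type} [Fintype Q] [DecidableEq Q] (w : Q → ℝ) (V : ℝ)
    (hw : ∑ τ, w τ ^ 2 ≤ V) :
    ∑ χ : Q → Bool, Real.exp (∑ τ, w τ * (if χ τ then (1 : ℝ) else -1)) ≤
      2 ^ Fintype.card Q * Real.exp (V / 2) := by
  have h1 : ∑ χ : Q → Bool, Real.exp (∑ τ, w τ * (if χ τ then (1 : ℝ) else -1)) =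
      ∏ τ, ∑ b : Bool, Real.exp (w τ * (if b then (1 : ℝ) else -1)) := by
    rw [Fintype.prod_sum]
    apply sum_congr rfl
    intro χ _
    rw [Real.exp_sum]
  rw [h1]
  calc ∏ τ, ∑ b : Bool, Real.exp (w τ * (if b then (1 : ℝ) else -1))
      ≤ ∏ τ, (2 * Real.exp (w τ ^ 2 / 2)) := by
        apply prod_le_prod
        · intro τ _
          exact sum_nonneg fun b _ => (Real.exp_pos _).le
        · intro τ _
          have := Real.cosh_le_exp_half_sq (w τ)
          rw [Real.cosh_eq] at this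
          simp only [Fintype.sum_bool, if_true, mul_one, Bool.false_eq_true, if_false, mul_neg]
          linarith
    _ = 2 ^ Fintype.card Q * Real.exp (∑ τ, w τ ^ 2 / 2) := by
        rw [prod_mul_distrib, prod_const, card_univ, Real.exp_sum]
    _ ≤ 2 ^ Fintype.card Q * Real.exp (V / 2) := by
        rw [← sum_div]
        gcongr

theorem exists_signs {Q J : Type} [Fintype Q] [DecidableEq Q] (W : Finset J) (w : J → Q → ℝ)
    (V D : ℝ) (hV : 0 < V) (hD : 0 ≤ D) (hw : ∀ j ∈ W, ∑ τ, w j τ ^ 2 ≤ V)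
    (hsmall : 2 * W.card * Real.exp (-(D ^ 2 / (2 * V))) < 1) :
    ∃ χ : Q → Bool, ∀ j ∈ W, |∑ τ, w j τ * (if χ τ then (1 : ℝ) else -1)| ≤ D := by
  by_contra hcon
  push Not at hcon
  set θ := D / V with hθ
  have hθ0 : 0 ≤ θ := div_nonneg hD hV.le
  let X : J → (Q → Bool) → ℝ := fun j χ => ∑ τ, w j τ * (if χ τ then (1 : ℝ) else -1)
  have hlow : ∀ χ : Q → Bool, Real.exp (θ * D) ≤
      ∑ j ∈ W, (Real.exp (θ * X j χ) + Real.exp (-(θ * X j χ))) := by
    intro χ
    obtain ⟨j, hj, hlt⟩ := hcon χ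
    have h1 : Real.exp (θ * D) ≤ Real.exp (θ * X j χ) + Real.exp (-(θ * X j χ)) := by
      have p1 := Real.exp_pos (θ * X j χ)
      have p2 := Real.exp_pos (-(θ * X j χ))
      rcases lt_abs.1 hlt with h | h
      · have : Real.exp (θ * D) ≤ Real.exp (θ * X j χ) :=
          Real.exp_le_exp.2 (mul_le_mul_of_nonneg_left h.le hθ0)
        linarith
      · have : Real.exp (θ * D) ≤ Real.exp (-(θ * X j χ)) := by
          rw [← mul_neg]
          exact Real.exp_le_exp.2 (mul_le_mul_of_nonneg_left h.le hθ0)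
        linarith
    exact h1.trans (single_le_sum (f := fun j => Real.exp (θ * X j χ) + Real.exp (-(θ * X j χ)))
      (fun i _ => by positivity) hj)
  have hup : ∀ j ∈ W, ∑ χ : Q → Bool, (Real.exp (θ * X j χ) + Real.exp (-(θ * X j χ))) ≤
      2 * (2 ^ Fintype.card Q * Real.exp (θ ^ 2 * V / 2)) := by
    intro j hj
    have hs : ∑ τ, (θ * w j τ) ^ 2 ≤ θ ^ 2 * V := by
      simp only [mul_pow]
      rw [← mul_sum]
      exact mul_le_mul_of_nonneg_left (hw j hj) (by positivity)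
    have a1 := sum_exp_signs (fun τ => θ * w j τ) _ hs
    have a2 := sum_exp_signs (fun τ => -(θ * w j τ)) (θ ^ 2 * V) (by simpa only [neg_sq] using hs)
    have e1 : ∀ χ : Q → Bool, θ * X j χ = ∑ τ, θ * w j τ * (if χ τ then (1 : ℝ) else -1) := by
      intro χ
      simp only [X, mul_sum, mul_assoc]
    have e2 : ∀ χ : Q → Bool,
        -(θ * X j χ) = ∑ τ, -(θ * w j τ) * (if χ τ then (1 : ℝ) else -1) := by
      intro χ
      rw [e1, ← sum_neg_distrib]
      simp only [neg_mul]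
    rw [sum_add_distrib]
    simp only [e2]
    simp only [e1]
    linarith
  have htot : (2 : ℝ) ^ Fintype.card Q * Real.exp (θ * D) ≤
      W.card * (2 * (2 ^ Fintype.card Q * Real.exp (θ ^ 2 * V / 2))) := by
    calc (2 : ℝ) ^ Fintype.card Q * Real.exp (θ * D)
        = ∑ _χ : Q → Bool, Real.exp (θ * D) := by
          simp [sum_const, card_univ, nsmul_eq_mul]
      _ ≤ ∑ χ : Q → Bool, ∑ j ∈ W, (Real.exp (θ * X j χ) + Real.exp (-(θ * X j χ))) :=
          sum_le_sum fun χ _ => hlow χ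
      _ = ∑ j ∈ W, ∑ χ : Q → Bool, (Real.exp (θ * X j χ) + Real.exp (-(θ * X j χ))) := sum_comm
      _ ≤ ∑ _j ∈ W, 2 * (2 ^ Fintype.card Q * Real.exp (θ ^ 2 * V / 2)) := sum_le_sum hup
      _ = _ := by simp [sum_const, nsmul_eq_mul]
  have hexp : Real.exp (θ ^ 2 * V / 2) = Real.exp (-(D ^ 2 / (2 * V))) * Real.exp (θ * D) := by
    rw [← Real.exp_add]
    congr 1
    rw [hθ]
    field_simp
    ring
  rw [hexp] at htot
  have hp : (0 : ℝ) < 2 ^ Fintype.card Q * Real.exp (θ * D) := by positivity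
  nlinarith

end Pool.Agent.Lib.MP_e96620_co
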