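import Mathlib
import Pool.Agent.Lib.MP_e96620_co.Anch

/-!
One stage of the potential argument.
-/

set_option autoImplicit false

namespace Pool.Agent.Lib.MP_e96620_co

open Finset

theorem bound_mono {n : ℕ} {B ρ e e' : ℝ} (hρ0 : 0 ≤ ρ) (he : e ≤ e') :
    (2 : ℝ) ^ n * (B + Real.exp (ρ * e)) ≤ 2 ^ n * (B + Real.exp (ρ * e')) := by
  gcongr

/-- Anchored family with small label classes. -/
theorem anch_small {h b : ℕ} {l : ℕ → ℕ} {G β B ρ : ℝ} (hβ : 0 ≤ β) (hB : 0 ≤ B) (hρ0 : 0 ≤ ρ)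
    (hρ : Real.exp ρ + Real.exp (-(2 * ρ)) ≤ 2) (hGB : G * β ≤ B)
    (hsmall : ∀ a : ℕ, a ≤ 3 * b → (a.choose (a / 2) : ℝ) ≤ 2 ^ a * Real.exp (-(4 * ρ * a)))
    (hbig : ∀ a : ℕ, b ≤ a → (a.choose (a / 2) : ℝ) ≤ 2 ^ a * G)
    (prev : ∀ (F A : Finset ℕ) (𝒯 : Finset (Finset ℕ)), Good (h + 1) F A 𝒯 → b ≤ A.card →
      (𝒯.card : ℝ) ≤ 2 ^ A.card * β)
    (ih : Pot h B ρ) :
    ∀ (n : ℕ) (F A : Finset ℕ) (𝒯 : Finset (Finset ℕ)), A.card = n → Good (h + 1) F A 𝒯 →
      (∀ T ∈ 𝒯, ∀ T' ∈ 𝒯, Q h l T T') → (∀ c, (A.filter (fun w => l w = c)).card ≤ b) →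
      (∀ x ∈ A, l x < tw h + 2) →
      (𝒯.card : ℝ) ≤ 2 ^ A.card * (B + Real.exp (ρ * (3 + 3 * h - A.card -
        3 * (A.filter (fun w => l w ∈ F.image l)).card))) := by
  intro n
  induction n using Nat.strong_induction_on with
  | _ n ihn =>
  intro F A 𝒯 hn hg hQ hcl hl
  set K := A.filter (fun w => l w ∈ F.image l) with hK
  by_cases hKb : 3 * b < K.card
  · have h1 := step_cut hβ hbig prev hg hQ hcl hl hKb
    have h2 := Real.exp_pos (ρ * (3 + 3 * h - A.card - 3 * K.card))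
    exact h1.trans (mul_le_mul_of_nonneg_left (by linarith) (by positivity))
  by_cases hinj : Set.InjOn l (A \ K : Finset ℕ)
  · have h1 := step_down hB ih hg.1 hQ hl K hK (hsmall _ (by omega)) hinj
    have h2 : (A \ K).card + K.card = A.card := card_sdiff_add_card_eq_card (filter_subset _ _)
    have h3 : ((A \ K).card : ℝ) = A.card - K.card := by rw [← h2]; push_cast; ring
    rw [← Real.exp_add, h3] at h1
    refine h1.trans (le_of_eq ?_)
    congr 3
    ring
  · unfold Set.InjOn at hinj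
    push Not at hinj
    obtain ⟨w, hw, w', hw', hll, hne⟩ := hinj
    obtain ⟨hwA, hwK⟩ := mem_sdiff.1 (mem_coe.1 hw)
    obtain ⟨hwA', hwK'⟩ := mem_sdiff.1 (mem_coe.1 hw')
    have hcard : (A.erase w).card + 1 = A.card := card_erase_add_one hwA
    have hcardR : ((A.erase w).card : ℝ) = A.card - 1 := by rw [← hcard]; push_cast; ring
    have hcl' : ∀ c, ((A.erase w).filter (fun w => l w = c)).card ≤ b := fun c =>
      (card_le_card (filter_subset_filter _ (erase_subset _ _))).trans (hcl c)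
    have hl' : ∀ x ∈ A.erase w, l x < tw h + 2 := fun x hx => hl x (mem_of_mem_erase hx)
    apply split_one 𝒯 hwA B ρ _ hρ
    · have h1 := ihn (A.erase w).card (by omega) F (A.erase w) _ rfl
        (hg.mono (hg.1.out w) (filter_subset _ _) (erase_subset _ _))
        (fun T hT T' hT' => hQ T (mem_filter.1 hT).1 T' (mem_filter.1 hT').1) hcl' hl'
      have h2 : (A.erase w).filter (fun w => l w ∈ F.image l) = K := by
        rw [filter_erase, ← hK, erase_eq_of_notMem hwK]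
      rw [h2, hcardR] at h1
      refine h1.trans (le_of_eq ?_)
      congr 4
      ring
    · have h1 := ihn (A.erase w).card (by omega) (insert w F) (A.erase w) _ rfl
        (hg.mono (hg.1.inn w) (filter_subset _ _) (erase_subset _ _))
        (fun T hT T' hT' => hQ T (mem_filter.1 hT).1 T' (mem_filter.1 hT').1) hcl' hl'
      have h2 : insert w' K ⊆ (A.erase w).filter (fun z => l z ∈ (insert w F).image l) := by
        intro z hz
        rcases mem_insert.1 hz with rfl | hz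
        · refine mem_filter.2 ⟨mem_erase.2 ⟨hne.symm, hwA'⟩, ?_⟩
          rw [← hll]
          exact mem_image_of_mem _ (mem_insert_self _ _)
        · obtain ⟨hz1, hz2⟩ := mem_filter.1 hz
          refine mem_filter.2 ⟨mem_erase.2 ⟨?_, hz1⟩, image_subset_image (subset_insert _ _) hz2⟩
          rintro rfl
          exact hwK hz
      have h3 := card_le_card h2
      rw [card_insert_of_notMem hwK'] at h3
      have h4 : (K.card : ℝ) + 1 ≤
          ((A.erase w).filter (fun z => l z ∈ (insert w F).image l)).card := by exact_mod_cast h3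
      refine h1.trans (bound_mono hρ0 ?_)
      rw [hcardR]
      linarith

/-- An extreme point of `A` from which the rest of `A` has two different labels. -/
theorem exists_anchor {A : Finset ℕ} (hA : 3 ≤ A.card) :
    ∃ x ∈ A, ((∀ y ∈ A, x ≤ y) ∨ (∀ y ∈ A, y ≤ x)) ∧
      ∀ c, ∃ y ∈ A.erase x, dl x y ≠ c := by
  have hne : A.Nonempty := card_pos.1 (by omega)
  set x := A.min' hne with hx
  set z := A.max' hne with hz
  have hxA : x ∈ A := min'_mem _ _
  have hzA : z ∈ A := max'_mem _ _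
  have hxz : x < z := min'_lt_max'_of_card _ (by omega)
  obtain ⟨y, hy⟩ : ((A.erase x).erase z).Nonempty := by
    apply card_pos.1
    have h1 : (A.erase x).card + 1 = A.card := card_erase_add_one hxA
    have h2 := pred_card_le_card_erase (s := A.erase x) (a := z)
    omega
  obtain ⟨hyz, hy'⟩ := mem_erase.1 hy
  obtain ⟨hyx, hyA⟩ := mem_erase.1 hy'
  by_cases h1 : dl x y = dl x z
  · refine ⟨z, hzA, Or.inr (fun y hy => le_max' _ _ hy), fun c => ?_⟩
    by_contra hcon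
    push Not at hcon
    have a1 := hcon x (mem_erase.2 ⟨hxz.ne, hxA⟩)
    have a2 := hcon y (mem_erase.2 ⟨hyz, hyA⟩)
    rw [dl_comm] at a1 a2
    exact dl_not_equi (x := x) (y := y) (z := z) hyx.symm (by omega) h1
  · refine ⟨x, hxA, Or.inl (fun y hy => min'_le _ _ hy), fun c => ?_⟩
    by_contra hcon
    push Not at hcon
    have a1 := hcon z (mem_erase.2 ⟨hxz.ne', hzA⟩)
    have a2 := hcon y hy'
    omega

theorem pot_trivial {h : ℕ} {B ρ : ℝ} (hB : 0 ≤ B) (hρ0 : 0 ≤ ρ) {F A : Finset ℕ}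
    {𝒯 : Finset (Finset ℕ)} (hb : Base F A 𝒯) (hA : A.card ≤ 3) :
    (𝒯.card : ℝ) ≤ 2 ^ A.card * (B + Real.exp (ρ * (3 + 3 * h - A.card))) := by
  have h1 : (𝒯.card : ℝ) ≤ 2 ^ A.card := by exact_mod_cast hb.card_le
  have h2 : (A.card : ℝ) ≤ 3 := by exact_mod_cast hA
  have h3 : (0 : ℝ) ≤ h := Nat.cast_nonneg _
  have h4 : 1 ≤ Real.exp (ρ * (3 + 3 * h - A.card)) :=
    Real.one_le_exp (mul_nonneg hρ0 (by linarith))
  calc (𝒯.card : ℝ) ≤ 2 ^ A.card * 1 := by rw [mul_one]; exact h1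
    _ ≤ _ := mul_le_mul_of_nonneg_left (by linarith) (by positivity)

theorem pot_zero {B ρ : ℝ} (hB : 0 ≤ B) (hρ0 : 0 ≤ ρ) : Pot 0 B ρ := by
  intro F A 𝒯 hg
  apply pot_trivial hB hρ0 hg.1
  have : A ⊆ range 3 := fun x hx => mem_range.2 (hg.2.2 x hx)
  simpa using card_le_card this

theorem pot_succ {h b : ℕ} {G β B ρ : ℝ} (hβ : 0 ≤ β) (hG : 0 ≤ G) (hρ0 : 0 ≤ ρ)
    (hρ : Real.exp ρ + Real.exp (-(2 * ρ)) ≤ 2) (hGB : (1 / 2) ^ b + G * β ≤ B)
    (hsmall : ∀ a : ℕ, a ≤ 3 * b → (a.choose (a / 2) : ℝ) ≤ 2 ^ a * Real.exp (-(4 * ρ * a)))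
    (hbig : ∀ a : ℕ, b ≤ a → (a.choose (a / 2) : ℝ) ≤ 2 ^ a * G)
    (prev : ∀ (F A : Finset ℕ) (𝒯 : Finset (Finset ℕ)), Good (h + 1) F A 𝒯 → b ≤ A.card →
      (𝒯.card : ℝ) ≤ 2 ^ A.card * β)
    (ih : Pot h B ρ) : Pot (h + 1) B ρ := by
  have hhalf : (0 : ℝ) < (1 / 2) ^ b := by positivity
  have hGβ : 0 ≤ G * β := mul_nonneg hG hβ
  have hB : 0 ≤ B := by linarith
  have main : ∀ (n : ℕ) (F A : Finset ℕ) (𝒯 : Finset (Finset ℕ)), A.card = n →
      Good (h + 1) F A 𝒯 →
      (𝒯.card : ℝ) ≤ 2 ^ A.card * (B + Real.exp (ρ * (3 + 3 * (h + 1 : ℕ) - A.card))) := by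
    intro n
    induction n using Nat.strong_induction_on with
    | _ n ihn =>
    intro F A 𝒯 hn hg
    by_cases hA3 : A.card ≤ 3
    · exact pot_trivial hB hρ0 hg.1 hA3
    obtain ⟨x, hxA, hext, hlab⟩ := exists_anchor (A := A) (by omega)
    have hcard : (A.erase x).card + 1 = A.card := card_erase_add_one hxA
    have hcardR : ((A.erase x).card : ℝ) = A.card - 1 := by rw [← hcard]; push_cast; ring
    apply split_one 𝒯 hxA B ρ _ hρ
    · have h1 := ihn (A.erase x).card (by omega) F (A.erase x) _ rfl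
        (hg.mono (hg.1.out x) (filter_subset _ _) (erase_subset _ _))
      rw [hcardR] at h1
      refine h1.trans (le_of_eq ?_)
      congr 4
      ring
    set 𝒰 := 𝒯.filter (fun T => x ∈ T) with h𝒰
    set A' := A.erase x with hA'
    have hg' : Good (h + 1) (insert x F) A' 𝒰 :=
      hg.mono (hg.1.inn x) (filter_subset _ _) (erase_subset _ _)
    have hQ : ∀ T ∈ 𝒰, ∀ T' ∈ 𝒰, Q h (dl x) T T' := by
      intro T hT T' hT'
      obtain ⟨hT1, hT2⟩ := mem_filter.1 hT
      obtain ⟨hT1', hT2'⟩ := mem_filter.1 hT'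
      apply (hg.2.1 T hT1 T' hT1').anchor hT2 hT2'
      rcases hext with hmin | hmax
      · left
        congr 1
        ext y
        have h1 := hg.1.mem_iff hT1 y
        have h2 := hg.1.mem_iff hT1' y
        have h3 : y < x → y ∉ A := fun hy hyA => absurd (hmin y hyA) (by omega)
        simp only [mem_filter]
        tauto
      · right
        congr 1
        ext y
        have h1 := hg.1.mem_iff hT1 y
        have h2 := hg.1.mem_iff hT1' y
        have h3 : x < y → y ∉ A := fun hy hyA => absurd (hmax y hyA) (by omega)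
        simp only [mem_filter]
        tauto
    by_cases hcl : ∀ c, (A'.filter (fun w => dl x w = c)).card ≤ b
    · have h1 := anch_small hβ hB hρ0 hρ (by linarith) hsmall hbig prev ih _ _ A' 𝒰 rfl hg' hQ
        hcl (fun y hy => dl_lt_tw (hg.2.2 x hxA) (hg.2.2 y (mem_of_mem_erase hy)))
      refine h1.trans (bound_mono hρ0 ?_)
      have h2 : (0 : ℝ) ≤ (A'.filter (fun w => dl x w ∈ (insert x F).image (dl x))).card :=
        Nat.cast_nonneg _
      rw [hcardR]
      push_cast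
      linarith
    push Not at hcl
    obtain ⟨c, hc⟩ := hcl
    set H := A'.filter (fun w => dl x w ≠ c) with hH
    have hHA : H ⊆ A' := filter_subset _ _
    have hrest : A' \ H = A'.filter (fun w => dl x w = c) := by
      ext y
      simp only [hH, mem_sdiff, mem_filter]
      tauto
    have hH1 : 1 ≤ H.card := by
      obtain ⟨y, hy, hyc⟩ := hlab c
      exact card_pos.2 ⟨y, mem_filter.2 ⟨hy, hyc⟩⟩
    have hsplit : (A' \ H).card + H.card = A'.card := card_sdiff_add_card_eq_card hHA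
    have hbrest : b ≤ (A' \ H).card := by rw [hrest]; omega
    set 𝒜 := (𝒰.filter (fun T => ∃ y ∈ T, dl x y = c)).image (fun T => T ∩ H) with h𝒜
    have h𝒜sub : ∀ V ∈ 𝒜, V ⊆ H := by
      intro V hV
      obtain ⟨T, _, rfl⟩ := mem_image.1 hV
      exact inter_subset_right
    have h𝒜anti : ∀ V ∈ 𝒜, ∀ V' ∈ 𝒜, V ⊆ V' → V = V' := by
      intro V hV V' hV' hVV
      obtain ⟨T, hT, rfl⟩ := mem_image.1 hV
      obtain ⟨T', hT', rfl⟩ := mem_image.1 hV'
      obtain ⟨hT1, hT2⟩ := mem_filter.1 hT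
      obtain ⟨hT1', hT2'⟩ := mem_filter.1 hT'
      have heq := (hQ T hT1 T' hT1').outside_eq hT2 hT2' (by
        intro y hy
        obtain ⟨hy1, hy2⟩ := mem_filter.1 hy
        refine mem_filter.2 ⟨?_, hy2⟩
        by_cases hyA : y ∈ A'
        · exact (mem_inter.1 (hVV (mem_inter.2 ⟨hy1, mem_filter.2 ⟨hyA, hy2⟩⟩))).1
        · exact hg'.1.subset hT1' ((hg'.1.mem_iff hT1 y).2 ⟨hy1, hyA⟩))
      apply Subset.antisymm hVV
      intro y hy
      obtain ⟨hy1, hy2⟩ := mem_inter.1 hy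
      have : y ∈ T'.filter (fun w => dl x w ≠ c) := mem_filter.2 ⟨hy1, (mem_filter.1 hy2).2⟩
      rw [← heq] at this
      exact mem_inter.2 ⟨(mem_filter.1 this).1, hy2⟩
    have hgfib : ∀ V, Good (h + 1) (insert x F ∪ V) (A' \ H) (𝒰.filter (fun T => T ∩ H = V)) :=
      fun V => hg'.mono (hg'.1.fiber hHA V) (filter_subset _ _) sdiff_subset
    have hnot : ∀ V, V ∉ 𝒜 → ((𝒰.filter (fun T => T ∩ H = V)).card : ℝ) ≤
        2 ^ (A' \ H).card * (1 / 2) ^ b := by
      intro V hV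
      have h1 : (𝒰.filter (fun T => T ∩ H = V)).card ≤ 1 := by
        apply card_le_one.2
        have key : ∀ T ∈ 𝒰.filter (fun T => T ∩ H = V), T ∩ (A' \ H) = ∅ := by
          intro T hT
          obtain ⟨hT1, hT2⟩ := mem_filter.1 hT
          apply eq_empty_of_forall_notMem
          intro y hy
          obtain ⟨hy1, hy2⟩ := mem_inter.1 hy
          rw [hrest] at hy2
          exact hV (mem_image.2 ⟨T, mem_filter.2 ⟨hT1, y, hy1, (mem_filter.1 hy2).2⟩, hT2⟩)
        intro T hT T' hT'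
        exact (hgfib V).1.eq_of_inter hT hT' (by rw [key T hT, key T' hT'])
      have h2 : ((𝒰.filter (fun T => T ∩ H = V)).card : ℝ) ≤ 1 := by exact_mod_cast h1
      have h3 : (2 : ℝ) ^ b ≤ 2 ^ (A' \ H).card := pow_le_pow_right₀ (by norm_num) hbrest
      calc _ ≤ (1 : ℝ) := h2
        _ = 2 ^ b * (1 / 2) ^ b := by rw [← mul_pow]; norm_num
        _ ≤ _ := by gcongr
    by_cases hHb : b ≤ H.card
    · have h1 := harvest 𝒰 hHA 𝒜 h𝒜sub h𝒜anti ((1 / 2) ^ b) β G hβ (hbig _ hHb)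
        (fun V _ => (prev _ _ _ (hgfib V) hbrest).trans
          (mul_le_mul_of_nonneg_left (by linarith) (by positivity)))
        (fun V _ hV => hnot V hV)
      have h2 := Real.exp_pos (ρ * (3 + 3 * (h + 1 : ℕ) - A.card - 2))
      exact h1.trans (mul_le_mul_of_nonneg_left (by linarith) (by positivity))
    · have h1 := harvest 𝒰 hHA 𝒜 h𝒜sub h𝒜anti B
        (Real.exp (ρ * (3 + 3 * (h + 1 : ℕ) - (A' \ H).card))) _ (Real.exp_pos _).le
        (hsmall _ (by omega))
        (fun V _ => ihn (A' \ H).card (by omega) _ _ _ rfl (hgfib V))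
        (fun V _ hV => (hnot V hV).trans
          (mul_le_mul_of_nonneg_left (by linarith) (by positivity)))
      refine h1.trans ?_
      rw [← Real.exp_add]
      have h2 : ((A' \ H).card : ℝ) = A.card - 1 - H.card := by
        rw [← hcardR, ← hsplit]; push_cast; ring
      have h3 : (1 : ℝ) ≤ H.card := by exact_mod_cast hH1
      rw [h2]
      refine mul_le_mul_of_nonneg_left ?_ (by positivity)
      refine add_le_add le_rfl (Real.exp_le_exp.2 ?_)
      nlinarith
  intro F A 𝒯 hg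
  exact main _ F A 𝒯 rfl hg

/-- `Bd h₀ n β`: good families with at least `n` active points have density at most `β`. -/
def Bd (h₀ n : ℕ) (β : ℝ) : Prop := ∀ h ≤ h₀, ∀ (F A : Finset ℕ) (𝒯 : Finset (Finset ℕ)),
  Good h F A 𝒯 → n ≤ A.card → (𝒯.card : ℝ) ≤ 2 ^ A.card * β

theorem stage {h₀ b : ℕ} {G β B ρ : ℝ} (hβ : 0 ≤ β) (hG : 0 ≤ G) (hρ0 : 0 ≤ ρ)
    (hρ : Real.exp ρ + Real.exp (-(2 * ρ)) ≤ 2) (hGB : (1 / 2) ^ b + G * β ≤ B)
    (hsmall : ∀ a : ℕ, a ≤ 3 * b → (a.choose (a / 2) : ℝ) ≤ 2 ^ a * Real.exp (-(4 * ρ * a)))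
    (hbig : ∀ a : ℕ, b ≤ a → (a.choose (a / 2) : ℝ) ≤ 2 ^ a * G)
    (prev : Bd h₀ b β) : ∀ h ≤ h₀, Pot h B ρ := by
  have hhalf : (0 : ℝ) < (1 / 2) ^ b := by positivity
  have hGβ : 0 ≤ G * β := mul_nonneg hG hβ
  intro h
  induction h with
  | zero => exact fun _ => pot_zero (by linarith) hρ0
  | succ h ih =>
    intro hh
    exact pot_succ hβ hG hρ0 hρ hGB hsmall hbig (prev (h + 1) hh) (ih (by omega))

end Pool.Agent.Lib.MP_e96620_co
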