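import Mathlib
import Pool.Agent.Lib.MP_e96620_co.Stage

/-!
Iterating the stages: every type class has polynomially small density.
-/

set_option autoImplicit false

namespace Pool.Agent.Lib.MP_e96620_co

open Finset

theorem centralBinom_sq_le (m : ℕ) : Nat.centralBinom m ^ 2 * (2 * m + 1) ≤ 16 ^ m := by
  induction m with
  | zero => simp
  | succ m ih =>
    have h := Nat.succ_mul_centralBinom_succ m
    have hpos : 0 < (m + 1) ^ 2 := by positivity
    apply Nat.le_of_mul_le_mul_left _ hpos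
    calc (m + 1) ^ 2 * (Nat.centralBinom (m + 1) ^ 2 * (2 * (m + 1) + 1))
        = ((m + 1) * Nat.centralBinom (m + 1)) ^ 2 * (2 * m + 3) := by ring
      _ = 4 * ((2 * m + 1) * (2 * m + 3)) * (Nat.centralBinom m ^ 2 * (2 * m + 1)) := by
          rw [h]; ring
      _ ≤ 4 * (4 * (m + 1) ^ 2) * 16 ^ m := by
          have : (2 * m + 1) * (2 * m + 3) ≤ 4 * (m + 1) ^ 2 := by nlinarith
          exact Nat.mul_le_mul (Nat.mul_le_mul_left _ this) ih
      _ = (m + 1) ^ 2 * 16 ^ (m + 1) := by ring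

theorem choose_half_sq_le (a : ℕ) : a.choose (a / 2) ^ 2 * (a + 1) ≤ 4 ^ a := by
  rcases Nat.even_or_odd' a with ⟨m, rfl | rfl⟩
  · have h1 : 2 * m / 2 = m := by omega
    have h2 := centralBinom_sq_le m
    rw [h1, pow_mul]
    exact h2
  · have h1 : (2 * m + 1) / 2 = m := by omega
    have h2 := centralBinom_sq_le (m + 1)
    have h3 : Nat.centralBinom (m + 1) = 2 * (2 * m + 1).choose m := by
      have h4 : (2 * m + 1).choose (m + 1) = (2 * m + 1).choose m := Nat.choose_symm_half m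
      rw [Nat.centralBinom_eq_two_mul_choose, show 2 * (m + 1) = 2 * m + 1 + 1 by ring,
        Nat.choose_succ_succ', h4]
      ring
    rw [h1]
    rw [h3] at h2
    have h5 : 16 ^ (m + 1) = 4 * 4 ^ (2 * m + 1) := by
      rw [pow_succ 4, pow_mul]; ring
    rw [h5] at h2
    nlinarith [Nat.zero_le ((2 * m + 1).choose m ^ 2)]

theorem choose_half_le {a : ℕ} {u : ℝ} (hu : 0 < u) (h : u ^ 2 ≤ a + 1) :
    (a.choose (a / 2) : ℝ) ≤ 2 ^ a * u⁻¹ := by
  have h1 : (a.choose (a / 2) : ℝ) ^ 2 * (a + 1) ≤ 4 ^ a := by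
    exact_mod_cast choose_half_sq_le a
  have h2 : ((a.choose (a / 2) : ℝ) * u) ^ 2 ≤ (2 ^ a) ^ 2 := by
    calc ((a.choose (a / 2) : ℝ) * u) ^ 2 = (a.choose (a / 2) : ℝ) ^ 2 * u ^ 2 := by ring
      _ ≤ (a.choose (a / 2) : ℝ) ^ 2 * (a + 1) := by gcongr
      _ ≤ 4 ^ a := h1
      _ = (2 ^ a) ^ 2 := by rw [← pow_mul, mul_comm, pow_mul]; norm_num
  have h3 : (a.choose (a / 2) : ℝ) * u ≤ 2 ^ a :=
    (abs_le_of_sq_le_sq' h2 (by positivity)).2
  rw [← div_eq_mul_inv, le_div_iff₀ hu]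
  exact h3

theorem exp_rate_le {b a : ℕ} (hb : 1 ≤ b) (ha : a ≤ 3 * b) :
    Real.exp (4 * (Real.log (3 * b + 1) / (24 * b)) * a) ^ 2 ≤ a + 1 := by
  have hbR : (1 : ℝ) ≤ b := by exact_mod_cast hb
  have haR : (a : ℝ) ≤ 3 * b := by exact_mod_cast ha
  have ha0 : (0 : ℝ) ≤ a := Nat.cast_nonneg _
  have h1 := rpow_one_add_le_one_add_mul_self (s := 3 * b) (by linarith)
    (p := a / (3 * b)) (by positivity) (by rw [div_le_one (by positivity)]; exact haR)
  have h2 : (1 : ℝ) + a / (3 * b) * (3 * b) = a + 1 := by field_simp; ring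
  rw [h2, Real.rpow_def_of_pos (by positivity)] at h1
  refine le_trans (le_of_eq ?_) h1
  rw [← Real.exp_nat_mul]
  congr 1
  rw [add_comm (1 : ℝ)]
  field_simp
  ring

theorem exp_two_bound {ρ : ℝ} (h0 : 0 ≤ ρ) (h : Real.exp (4 * ρ) ^ 2 ≤ 2) :
    Real.exp ρ + Real.exp (-(2 * ρ)) ≤ 2 := by
  set u := Real.exp ρ with hu
  have hu1 : 1 ≤ u := Real.one_le_exp h0
  have h4 : Real.exp (4 * ρ) = u ^ 4 := by
    rw [hu, ← Real.exp_nat_mul]; norm_num
  have h2 : Real.exp (-(2 * ρ)) = (u ^ 2)⁻¹ := by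
    rw [hu, ← Real.exp_nat_mul, Real.exp_neg]; norm_num
  rw [h4] at h
  have h8 : u ^ 2 ≤ 2 := by
    calc u ^ 2 ≤ (u ^ 4) ^ 2 := by
          rw [← pow_mul]; exact pow_le_pow_right₀ hu1 (by norm_num)
      _ ≤ 2 := h
  rw [h2]
  have hpos : 0 < u ^ 2 := by positivity
  have : (u ^ 2)⁻¹ ≤ 2 - u := by
    rw [inv_le_iff_one_le_mul₀ hpos]
    nlinarith [mul_nonneg (sub_nonneg.2 hu1) (show 0 ≤ u + 1 - u ^ 2 by linarith)]
  linarith

theorem bd_step {h₀ b s : ℕ} {β r : ℝ} (hb : h₀ + 1 ≤ b) (hβ : 0 ≤ β) (hr : 0 < r)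
    (hrb : r ^ 2 ≤ b + 1) (prev : Bd h₀ b β) :
    Bd h₀ ((3 + 24 * s) * b) ((1 / 2) ^ b + r⁻¹ * β + ((3 * b + 1 : ℝ) ^ s)⁻¹) := by
  have hb1 : 1 ≤ b := by omega
  have hbR : (1 : ℝ) ≤ b := by exact_mod_cast hb1
  set ρ := Real.log (3 * b + 1) / (24 * b) with hρdef
  have hρ0 : 0 ≤ ρ := div_nonneg (Real.log_nonneg (by linarith)) (by positivity)
  have hρ : Real.exp ρ + Real.exp (-(2 * ρ)) ≤ 2 := by
    apply exp_two_bound hρ0
    have := exp_rate_le (a := 1) hb1 (by omega)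
    rw [← hρdef] at this
    norm_num at this ⊢
    exact this
  have hst := stage (h₀ := h₀) (b := b) (G := r⁻¹) (B := (1 / 2) ^ b + r⁻¹ * β) hβ
    (by positivity) hρ0 hρ le_rfl
    (fun a ha => by
      rw [Real.exp_neg]
      exact choose_half_le (Real.exp_pos _) (exp_rate_le hb1 ha))
    (fun a ha => choose_half_le hr (hrb.trans (by
      have : (b : ℝ) ≤ a := by exact_mod_cast ha
      linarith))) prev
  intro h hh F A 𝒯 hg hA
  refine (hst h hh F A 𝒯 hg).trans (mul_le_mul_of_nonneg_left ?_ (by positivity))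
  refine add_le_add le_rfl ?_
  have h1 : ((3 + 24 * s) * b : ℝ) ≤ A.card := by exact_mod_cast hA
  have h2 : (h : ℝ) + 1 ≤ b := by
    have : h + 1 ≤ b := by omega
    exact_mod_cast this
  have h3 : ρ * (3 + 3 * h - A.card) ≤ ρ * (-(24 * s * b)) :=
    mul_le_mul_of_nonneg_left (by linarith) hρ0
  refine (Real.exp_le_exp.2 h3).trans (le_of_eq ?_)
  have h4 : ρ * (-(24 * s * b)) = -(s * Real.log (3 * b + 1)) := by
    rw [hρdef]; field_simp
  rw [h4, Real.exp_neg, Real.exp_nat_mul, Real.exp_log (by positivity)]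

theorem Bd.mono {h₀ n : ℕ} {β β' : ℝ} (h : Bd h₀ n β) (hβ : β ≤ β') : Bd h₀ n β' :=
  fun k hk F A 𝒯 hg hA =>
    (h k hk F A 𝒯 hg hA).trans (mul_le_mul_of_nonneg_left hβ (by positivity))

theorem bd_iterate (s : ℕ) : ∃ C : ℕ, 2 ≤ C ∧ ∃ c : ℝ, 0 < c ∧
    ∀ t h₀ : ℕ, h₀ + 1 ≤ t → Bd h₀ (C * t) (c / Real.sqrt t ^ s) := by
  induction s with
  | zero =>
    refine ⟨2, le_rfl, 1, one_pos, fun t h₀ _ h _ F A 𝒯 hg _ => ?_⟩
    simp only [pow_zero, div_one, mul_one]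
    exact_mod_cast hg.1.card_le
  | succ s ih =>
    obtain ⟨C, hC, c, hc, hbd⟩ := ih
    refine ⟨(3 + 24 * (s + 1)) * C, by nlinarith, (s + 1).factorial + c + 1, by positivity,
      fun t h₀ ht => ?_⟩
    have ht1 : 1 ≤ t := by omega
    have htR : (1 : ℝ) ≤ t := by exact_mod_cast ht1
    set r := Real.sqrt t with hr
    have hr1 : 1 ≤ r := Real.one_le_sqrt.2 htR
    have hr2 : r ^ 2 = t := Real.sq_sqrt (by linarith)
    have hrt : r ≤ t := by nlinarith
    have hb2 : 2 * t ≤ C * t := Nat.mul_le_mul_right _ hC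
    have hb2R : 2 * (t : ℝ) ≤ ((C * t : ℕ) : ℝ) := by exact_mod_cast hb2
    have hstep := bd_step (s := s + 1) (b := C * t) (β := c / r ^ s) (r := r) (h₀ := h₀)
      (by omega) (by positivity) (by linarith) (by rw [hr2]; linarith) (hbd t h₀ ht)
    rw [mul_assoc]
    refine hstep.mono ?_
    have hrs : 0 < r ^ (s + 1) := by positivity
    have e1 : ((1 : ℝ) / 2) ^ (C * t) ≤ (s + 1).factorial / r ^ (s + 1) := by
      have a1 : ((1 : ℝ) / 2) ^ (C * t) ≤ (1 / 2) ^ (2 * t) :=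
        pow_le_pow_of_le_one (by norm_num) (by norm_num) hb2
      have a2 : Real.exp t ≤ 4 ^ t := by
        rw [← Real.exp_one_pow]
        have := Real.exp_one_lt_d9
        gcongr
        linarith
      have a3 := Real.pow_div_factorial_le_exp (t : ℝ) (by linarith) (s + 1)
      have a4 : r ^ (s + 1) ≤ (t : ℝ) ^ (s + 1) := by gcongr
      have a5 : (0 : ℝ) < (s + 1).factorial := by positivity
      rw [div_le_iff₀ a5] at a3
      refine a1.trans ?_
      rw [le_div_iff₀ hrs, pow_mul]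
      have a6 : ((1 / 2 : ℝ) ^ 2) ^ t * 4 ^ t = 1 := by rw [← mul_pow]; norm_num
      calc ((1 / 2 : ℝ) ^ 2) ^ t * r ^ (s + 1)
          ≤ ((1 / 2 : ℝ) ^ 2) ^ t * (4 ^ t * ((s + 1).factorial : ℝ)) := by
            gcongr
            calc r ^ (s + 1) ≤ _ := a4
              _ ≤ _ := a3
              _ ≤ _ := by gcongr
        _ = ((s + 1).factorial : ℝ) := by rw [← mul_assoc, a6, one_mul]
    have e2 : r⁻¹ * (c / r ^ s) = c / r ^ (s + 1) := by
      rw [pow_succ]; field_simp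
    have e3 : ((3 * ((C * t : ℕ) : ℝ) + 1) ^ (s + 1))⁻¹ ≤ 1 / r ^ (s + 1) := by
      rw [one_div]
      gcongr
      linarith
    rw [add_div, add_div]
    linarith

end Pool.Agent.Lib.MP_e96620_co
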