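import Mathlib
import Pool.Agent.Lib.MP_e96620_co.Iterate
import Pool.Agent.Lib.MP_e96620_co.Hash

/-!
The colouring: a random sign for each type class of `k`-sets.
-/

set_option autoImplicit false

namespace Pool.Agent.Lib.MP_e96620_co

open Finset

/-- The type class of the `k`-subfamily of `s` picked by the index set `I`. -/
def cls (h k m : ℕ) (s : Fin m → ℕ) (I : {I : Finset (Fin m) // I.card = k}) :
    Quotient (eSetoid h k) :=
  Quotient.mk (eSetoid h k) (fun i => s (I.1.orderEmbOfFin I.2 i))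

theorem cls_congr {h k m : ℕ} {s s' : Fin m → ℕ} (hE : E h (Fin m) s s')
    (I : {I : Finset (Fin m) // I.card = k}) : cls h k m s I = cls h k m s' I :=
  Quotient.sound (hE.comp (fun i => I.1.orderEmbOfFin I.2 i))

open Classical in
theorem fibre_le {h k m : ℕ} {β : ℝ}
    (hbd : ∀ (A : Finset ℕ) (𝒯 : Finset (Finset ℕ)), Good h ∅ A 𝒯 → A.card = m →
      (𝒯.card : ℝ) ≤ 2 ^ m * β)
    {s : Fin m → ℕ} (hs : Function.Injective s) (hb : ∀ i, s i < tw h + 2)
    (τ : Quotient (eSetoid h k)) :
    (((univ : Finset {I : Finset (Fin m) // I.card = k}).filter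
      (fun I => cls h k m s I = τ)).card : ℝ) ≤ 2 ^ m * β := by
  set P := (univ : Finset {I : Finset (Fin m) // I.card = k}).filter
      (fun I => cls h k m s I = τ) with hP
  have hinj : Function.Injective
      (fun I : {I : Finset (Fin m) // I.card = k} => I.1.image s) := by
    intro I J hIJ
    exact Subtype.ext (image_injective hs hIJ)
  have hmem : ∀ (I : {I : Finset (Fin m) // I.card = k}) (x : ℕ),
      x ∈ I.1.image s ↔ ∃ i, s (I.1.orderEmbOfFin I.2 i) = x := by
    intro I x
    constructor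
    · intro hx
      obtain ⟨a, ha, rfl⟩ := mem_image.1 hx
      have : a ∈ Set.range (I.1.orderEmbOfFin I.2) := by
        rw [range_orderEmbOfFin]; exact ha
      obtain ⟨i, rfl⟩ := this
      exact ⟨i, rfl⟩
    · rintro ⟨i, rfl⟩
      exact mem_image_of_mem _ (orderEmbOfFin_mem _ _ _)
  have hgood : Good h ∅ (univ.image s) (P.image (fun I => I.1.image s)) := by
    refine ⟨?_, ?_, ?_⟩
    · intro T hT
      obtain ⟨I, _, rfl⟩ := mem_image.1 hT
      exact sdiff_eq_empty_iff_subset.2 (image_subset_image (subset_univ _))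
    · intro T hT T' hT'
      obtain ⟨I, hI, rfl⟩ := mem_image.1 hT
      obtain ⟨J, hJ, rfl⟩ := mem_image.1 hT'
      refine ⟨Fin k, _, _, hmem I, hmem J, ?_⟩
      have : cls h k m s I = cls h k m s J := by
        rw [(mem_filter.1 hI).2, (mem_filter.1 hJ).2]
      exact Quotient.exact this
    · intro x hx
      obtain ⟨i, _, rfl⟩ := mem_image.1 hx
      exact hb i
  have := hbd _ _ hgood (by rw [card_image_of_injective _ hs]; simp)
  rw [card_image_of_injective _ hinj] at this
  exact this

theorem exists_colouring {h k N : ℕ} {β D : ℝ} (hk : 1 ≤ k) (hN : N ≤ tw h + 2) (hβ : 0 < β)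
    (hD : 0 ≤ D)
    (hbd : ∀ (A : Finset ℕ) (𝒯 : Finset (Finset ℕ)), Good h ∅ A 𝒯 → A.card = 2 * k →
      (𝒯.card : ℝ) ≤ 2 ^ (2 * k) * β)
    (hsmall : 2 * (((2 * (2 * k)) ^ (2 * k * (2 * k) * (h + 1)) : ℕ) : ℝ) *
      Real.exp (-(D ^ 2 / (2 * (2 ^ (2 * k) * β * ((2 * k).choose k : ℕ))))) < 1) :
    ∃ γ : Finset (Fin N) → Bool, ∀ S : Finset (Fin N), S.card = 2 * k →
      |∑ T ∈ S.powersetCard k, (if γ T then (1 : ℝ) else -1)| ≤ D := by
  classical
  obtain ⟨hfinQ, _⟩ := finite_quot h k hk
  obtain ⟨hfinJ, hcardJ⟩ := finite_quot h (2 * k) (by omega)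
  let _ : Fintype (Quotient (eSetoid h k)) := Fintype.ofFinite _
  let _ : Fintype (Quotient (eSetoid h (2 * k))) := Fintype.ofFinite _
  let W : Finset (Quotient (eSetoid h (2 * k))) := univ.filter (fun q =>
    ∃ s : Fin (2 * k) → ℕ, Function.Injective s ∧ (∀ i, s i < tw h + 2) ∧
      Quotient.mk (eSetoid h (2 * k)) s = q)
  let w : Quotient (eSetoid h (2 * k)) → Quotient (eSetoid h k) → ℝ := fun q τ =>
    (((univ : Finset {I : Finset (Fin (2 * k)) // I.card = k}).filter
      (fun I => cls h k (2 * k) q.out I = τ)).card : ℝ)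
  have hout : ∀ s : Fin (2 * k) → ℕ, ∀ I,
      cls h k (2 * k) (Quotient.mk (eSetoid h (2 * k)) s).out I = cls h k (2 * k) s I := by
    intro s I
    exact cls_congr (Quotient.mk_out (s := eSetoid h (2 * k)) s) I
  have hchoose : (0 : ℝ) < ((2 * k).choose k : ℕ) := by
    exact_mod_cast Nat.choose_pos (by omega)
  have hsumw : ∀ q, ∑ τ, w q τ = ((2 * k).choose k : ℕ) := by
    intro q
    have h1 := card_eq_sum_card_fiberwise
      (s := (univ : Finset {I : Finset (Fin (2 * k)) // I.card = k})) (t := univ)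
      (f := fun I => cls h k (2 * k) q.out I) (fun _ _ => mem_coe.2 (mem_univ _))
    rw [card_univ, Fintype.card_finset_len, Fintype.card_fin] at h1
    rw [h1]
    push_cast
    rfl
  obtain ⟨χ, hχ⟩ := exists_signs W w (2 ^ (2 * k) * β * ((2 * k).choose k : ℕ)) D
    (by positivity) hD
    (by
      intro q hq
      obtain ⟨s, hs1, hs2, rfl⟩ := (mem_filter.1 hq).2
      rw [← hsumw (Quotient.mk (eSetoid h (2 * k)) s), mul_sum]
      apply sum_le_sum
      intro τ _
      rw [sq]
      refine mul_le_mul_of_nonneg_right ?_ (Nat.cast_nonneg _)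
      simp only [w, hout]
      exact fibre_le hbd hs1 hs2 τ)
    (by
      refine lt_of_le_of_lt ?_ hsmall
      have : W.card ≤ (2 * (2 * k)) ^ (2 * k * (2 * k) * (h + 1)) := by
        calc W.card ≤ Fintype.card (Quotient (eSetoid h (2 * k))) := card_le_univ _
          _ = Nat.card (Quotient (eSetoid h (2 * k))) := Nat.card_eq_fintype_card.symm
          _ ≤ _ := hcardJ
      have h2 : (W.card : ℝ) ≤ (((2 * (2 * k)) ^ (2 * k * (2 * k) * (h + 1)) : ℕ) : ℝ) := by
        exact_mod_cast this
      gcongr)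
  refine ⟨fun T => if hT : T.card = k then
    χ (Quotient.mk (eSetoid h k) (fun i => (T.orderEmbOfFin hT i : ℕ))) else true, ?_⟩
  intro S hS
  let e := S.orderEmbOfFin hS
  let s : Fin (2 * k) → ℕ := fun i => (e i : ℕ)
  have hs1 : Function.Injective s := fun i j hij => e.injective (Fin.ext hij)
  have hs2 : ∀ i, s i < tw h + 2 := fun i => lt_of_lt_of_le (e i).isLt hN
  have hq := hχ (Quotient.mk (eSetoid h (2 * k)) s) (mem_filter.2 ⟨mem_univ _, s, hs1, hs2, rfl⟩)
  refine le_trans (le_of_eq ?_) hq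
  congr 1
  have h1 : ∑ τ, w (Quotient.mk (eSetoid h (2 * k)) s) τ * (if χ τ then (1 : ℝ) else -1) =
      ∑ I : {I : Finset (Fin (2 * k)) // I.card = k},
        (if χ (cls h k (2 * k) s I) then (1 : ℝ) else -1) := by
    rw [← sum_fiberwise (s := univ) (g := fun I => cls h k (2 * k) s I)]
    apply sum_congr rfl
    intro τ _
    simp only [w, hout]
    rw [sum_congr rfl (g := fun _ => if χ τ then (1 : ℝ) else -1), sum_const, nsmul_eq_mul]
    intro I hI
    rw [(mem_filter.1 hI).2]
  rw [h1]
  symm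
  apply sum_bij (fun I _ => I.1.map e.toEmbedding)
  · intro I _
    refine mem_powersetCard.2 ⟨?_, by rw [card_map]; exact I.2⟩
    intro x hx
    obtain ⟨a, _, rfl⟩ := mem_map.1 hx
    exact orderEmbOfFin_mem _ _ _
  · intro I _ J _ hIJ
    exact Subtype.ext (map_injective _ hIJ)
  · intro T hT
    obtain ⟨hTS, hTk⟩ := mem_powersetCard.1 hT
    have hmap : (univ.filter (fun i => e i ∈ T)).map e.toEmbedding = T := by
      ext x
      simp only [mem_map, mem_filter, mem_univ, true_and]
      constructor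
      · rintro ⟨a, ha, rfl⟩
        exact ha
      · intro hx
        have : x ∈ Set.range e := by
          rw [range_orderEmbOfFin]; exact hTS hx
        obtain ⟨i, rfl⟩ := this
        exact ⟨i, hx, rfl⟩
    refine ⟨⟨univ.filter (fun i => e i ∈ T), ?_⟩, mem_univ _, hmap⟩
    rw [← card_map e.toEmbedding, hmap, hTk]
  · intro I _
    have hcard : (I.1.map e.toEmbedding).card = k := by rw [card_map]; exact I.2
    have hen : (fun i => e (I.1.orderEmbOfFin I.2 i)) =
        (I.1.map e.toEmbedding).orderEmbOfFin hcard :=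
      orderEmbOfFin_unique hcard
        (fun i => mem_map.2 ⟨_, orderEmbOfFin_mem _ _ _, rfl⟩)
        (e.strictMono.comp (I.1.orderEmbOfFin I.2).strictMono)
    simp only [dif_pos hcard]
    rw [← hen]
    rfl

end Pool.Agent.Lib.MP_e96620_co
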