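import Mathlib
import Pool.Agent.Lib.MP_e96620_co.Main

/-!
Weighted counting lemmas: a set `T` has weight `q ^ |T ∩ A|` (a biased product measure on the
active set `A`, of total mass one plus `q` to the power `|A|`).
-/

set_option autoImplicit false

namespace Pool.Agent.Lib.MP_e96620_co.Biased

open Finset

/-- The weight of a family relative to the active set `A`. -/
noncomputable def wt (q : ℝ) (A : Finset ℕ) (𝒯 : Finset (Finset ℕ)) : ℝ :=
  ∑ T ∈ 𝒯, q ^ (T ∩ A).card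

theorem wt_empty (q : ℝ) (A : Finset ℕ) : wt q A ∅ = 0 := by simp [wt]

theorem sum_powerset_pow (y : ℝ) (H : Finset ℕ) :
    ∑ V ∈ H.powerset, y ^ V.card = (1 + y) ^ H.card := by
  have := Finset.prod_one_add (f := fun _ : ℕ => y) H
  simp only [prod_const] at this
  exact this.symm

theorem wt_le {q : ℝ} (hq : 0 ≤ q) {F A : Finset ℕ} {𝒯 : Finset (Finset ℕ)} (hb : Base F A 𝒯) :
    wt q A 𝒯 ≤ (1 + q) ^ A.card := by
  rw [← sum_powerset_pow, wt]
  have hinj : Set.InjOn (fun T => T ∩ A) (𝒯 : Set (Finset ℕ)) :=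
    fun T hT T' hT' h => hb.eq_of_inter (mem_coe.1 hT) (mem_coe.1 hT') h
  rw [← sum_image (f := fun V : Finset ℕ => q ^ V.card) hinj]
  apply sum_le_sum_of_subset_of_nonneg
  · intro V hV
    obtain ⟨T, _, rfl⟩ := mem_image.1 hV
    exact mem_powerset.2 inter_subset_right
  · intro V _ _
    positivity

theorem wt_fiber (q : ℝ) {A H : Finset ℕ} (hH : H ⊆ A) (𝒯 : Finset (Finset ℕ)) :
    wt q A 𝒯 = ∑ V ∈ H.powerset, q ^ V.card * wt q (A \ H) (𝒯.filter (fun T => T ∩ H = V)) := by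
  unfold wt
  rw [← sum_fiberwise_of_maps_to (s := 𝒯) (t := H.powerset) (g := fun T => T ∩ H)
    (fun T _ => mem_powerset.2 inter_subset_right)]
  apply sum_congr rfl
  intro V _
  rw [mul_sum]
  apply sum_congr rfl
  intro T hT
  rw [← (mem_filter.1 hT).2, ← pow_add]
  congr 1
  have h3 : ((T ∩ A) \ H).card + ((T ∩ A) ∩ H).card = (T ∩ A).card :=
    card_sdiff_add_card_inter _ _
  have h4 : (T ∩ A) \ H = T ∩ (A \ H) := by
    ext x; simp only [mem_sdiff, mem_inter]; tauto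
  have h5 : (T ∩ A) ∩ H = T ∩ H := by
    ext x
    have : x ∈ H → x ∈ A := fun hx => hH hx
    simp only [mem_inter]; tauto
  rw [h4, h5] at h3
  omega

/-- Every antichain on an `a`-element set has weighted density at most `γ`. -/
def Sp (q : ℝ) (a : ℕ) (γ : ℝ) : Prop := ∀ (H : Finset ℕ) (𝒜 : Finset (Finset ℕ)), H.card = a →
  (∀ V ∈ 𝒜, V ⊆ H) → (∀ V ∈ 𝒜, ∀ V' ∈ 𝒜, V ⊆ V' → V = V') →
  ∑ V ∈ 𝒜, q ^ V.card ≤ (1 + q) ^ a * γ

theorem pade {x : ℝ} (h0 : 0 ≤ x) (h1 : x ≤ 1) (a : ℕ) :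
    1 - x - a * x / 2 ≤ (1 - x) ^ (a + 1) * (1 + a * x / 2) := by
  induction a with
  | zero => simp
  | succ a ih =>
    have ha : (0 : ℝ) ≤ a := Nat.cast_nonneg _
    set α := a * x / 2 with hα
    have hα0 : 0 ≤ α := by positivity
    have e : ((a + 1 : ℕ) : ℝ) * x / 2 = α + x / 2 := by push_cast; rw [hα]; ring
    rw [e, pow_succ]
    set P := (1 - x) ^ (a + 1) with hP
    have hpos : 0 < 1 + α := by linarith
    apply le_of_mul_le_mul_right _ hpos
    have hw : 0 ≤ (1 - x) * (1 + (α + x / 2)) := mul_nonneg (by linarith) (by linarith)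
    have h2 := mul_le_mul_of_nonneg_right ih hw
    have h3 : 0 ≤ x / 2 * ((x + α) ^ 2 + α * (x + α)) := by positivity
    nlinarith

theorem inv_moment {y : ℝ} (hy : 0 ≤ y) (a : ℕ) :
    (∑ i ∈ range (a + 1), (a.choose i : ℝ) * (y ^ i * (2 ^ (a - i) / ((a - i : ℕ) + 1)))) *
      (1 + a / (2 + y)) ≤ (2 + y) ^ a := by
  set Z := ∑ i ∈ range (a + 1), (a.choose i : ℝ) * (y ^ i * (2 ^ (a - i) / ((a - i : ℕ) + 1)))
    with hZ
  have hid : 2 * (a + 1) * Z + y ^ (a + 1) = (2 + y) ^ (a + 1) := by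
    rw [add_comm 2 y, add_pow, sum_range_succ (n := a + 1), hZ, mul_sum]
    congr 1
    · apply sum_congr rfl
      intro i hi
      have hi' : i ≤ a := by have := mem_range.1 hi; omega
      have h1 : a + 1 - i = (a - i) + 1 := by omega
      have h2 := Nat.choose_mul_succ_eq a i
      rw [h1] at h2
      have h3 : (a.choose i : ℝ) * (a + 1) = ((a + 1).choose i : ℝ) * ((a - i : ℕ) + 1) := by
        exact_mod_cast h2
      rw [h1, pow_succ]
      have h4 : (0 : ℝ) < ((a - i : ℕ) : ℝ) + 1 := by positivity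
      field_simp
      linear_combination y ^ i * h3
    · simp
  set z := 2 + y with hz
  have hz0 : 0 < z := by linarith
  have hx0 : 0 ≤ 2 / z := by positivity
  have hx1 : 2 / z ≤ 1 := by rw [div_le_one hz0]; linarith
  have hp := pade hx0 hx1 a
  have e1 : 1 - 2 / z = y / z := by field_simp; linarith
  have e2 : (a : ℝ) * (2 / z) / 2 = a / z := by ring
  rw [e2] at hp
  have hp2 : 1 - 2 / z - a / z ≤ (y / z) ^ (a + 1) * (1 + a / z) := by rw [← e1]; exact hp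
  have hzp : 0 < z ^ (a + 1) := by positivity
  have h5 : (1 - 2 / z - a / z) * z ^ (a + 1) ≤ y ^ (a + 1) * (1 + a / z) := by
    calc _ ≤ (y / z) ^ (a + 1) * (1 + a / z) * z ^ (a + 1) := by gcongr
      _ = _ := by rw [div_pow]; field_simp
  have ha : (0 : ℝ) < 2 * (a + 1) := by positivity
  apply le_of_mul_le_mul_left _ ha
  have h6 : 2 * (a + 1) * (Z * (1 + a / z)) = (z ^ (a + 1) - y ^ (a + 1)) * (1 + a / z) := by
    rw [← hid]; ring
  have h7 : 2 * ((a : ℝ) + 1) * z ^ a = (2 / z + 2 * (a / z)) * z ^ (a + 1) := by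
    rw [pow_succ]; field_simp; ring
  rw [h6, h7]
  nlinarith

theorem sp_le {q u : ℝ} {a : ℕ} (hq : 1 ≤ q) (hu : 0 < u) (h : u ^ 2 ≤ 1 + a / (1 + q)) :
    Sp q a u⁻¹ := by
  intro H 𝒜 hH hsub hanti
  set y := q - 1 with hy
  have hy0 : 0 ≤ y := by linarith
  have hqy : q = 1 + y := by linarith
  have h2y : 1 + q = 2 + y := by linarith
  have s1 : ∑ V ∈ 𝒜, q ^ V.card =
      ∑ U ∈ H.powerset, y ^ U.card * ((𝒜.filter (fun V => U ⊆ V)).card : ℝ) := by
    calc ∑ V ∈ 𝒜, q ^ V.card = ∑ V ∈ 𝒜, ∑ U ∈ H.powerset, if U ⊆ V then y ^ U.card else 0 := by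
          apply sum_congr rfl
          intro V hV
          rw [hqy, ← sum_powerset_pow, ← sum_filter]
          apply sum_congr _ (fun _ _ => rfl)
          ext U
          simp only [mem_powerset, mem_filter]
          exact ⟨fun h => ⟨h.trans (hsub V hV), h⟩, fun h => h.2⟩
      _ = _ := by
          rw [sum_comm]
          apply sum_congr rfl
          intro U _
          rw [← sum_filter, sum_const, nsmul_eq_mul, mul_comm]
  have s2 : ∀ U ∈ H.powerset, ((𝒜.filter (fun V => U ⊆ V)).card : ℝ) ≤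
      (u * (2 ^ (a - U.card) / ((a - U.card : ℕ) + 1)) + 2 ^ (a - U.card) * u⁻¹) / 2 := by
    intro U hU
    have hUH := mem_powerset.1 hU
    have hc : (H \ U).card = a - U.card := by rw [card_sdiff_of_subset hUH, hH]
    have hinj : Set.InjOn (fun V => V \ U) (𝒜.filter (fun V => U ⊆ V) : Set (Finset ℕ)) := by
      intro V hV V' hV' hVV
      have h1 := (mem_filter.1 (mem_coe.1 hV)).2
      have h2 := (mem_filter.1 (mem_coe.1 hV')).2
      have hVV' : V \ U = V' \ U := hVV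
      rw [← sdiff_union_of_subset h1, ← sdiff_union_of_subset h2, hVV']
    have h1 := sperner_nat (H \ U) ((𝒜.filter (fun V => U ⊆ V)).image (fun V => V \ U))
      (by
        intro W hW
        obtain ⟨V, hV, rfl⟩ := mem_image.1 hW
        exact sdiff_subset_sdiff (hsub V (mem_filter.1 hV).1) (Subset.refl _))
      (by
        intro W hW W' hW' hWW
        obtain ⟨V, hV, rfl⟩ := mem_image.1 hW
        obtain ⟨V', hV', rfl⟩ := mem_image.1 hW'
        have : V ⊆ V' := by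
          intro x hx
          by_cases hxU : x ∈ U
          · exact (mem_filter.1 hV').2 hxU
          · exact (mem_sdiff.1 (hWW (mem_sdiff.2 ⟨hx, hxU⟩))).1
        rw [hanti V (mem_filter.1 hV).1 V' (mem_filter.1 hV').1 this])
    rw [card_image_of_injOn hinj, hc] at h1
    set m := a - U.card with hm
    have h2 : (((𝒜.filter (fun V => U ⊆ V)).card : ℕ) : ℝ) ≤ (m.choose (m / 2) : ℝ) := by
      exact_mod_cast h1
    set v := Real.sqrt (m + 1) with hv
    have hv0 : 0 < v := Real.sqrt_pos.2 (by positivity)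
    have hv2 : v ^ 2 = m + 1 := Real.sq_sqrt (by positivity)
    have h3 := choose_half_le (a := m) hv0 hv2.le
    refine h2.trans (h3.trans ?_)
    rw [← hv2]
    have h4 : v⁻¹ ≤ (u * (1 / v ^ 2) + u⁻¹) / 2 := by
      have h5 : (u * (1 / v ^ 2) + u⁻¹) / 2 - v⁻¹ = (u - v) ^ 2 / (2 * u * v ^ 2) := by
        field_simp; ring
      have h6 : 0 ≤ (u - v) ^ 2 / (2 * u * v ^ 2) := by positivity
      linarith
    calc (2 : ℝ) ^ m * v⁻¹ ≤ 2 ^ m * ((u * (1 / v ^ 2) + u⁻¹) / 2) := by gcongr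
      _ = _ := by ring
  have s3 := inv_moment hy0 a
  set Z := ∑ i ∈ range (a + 1), (a.choose i : ℝ) * (y ^ i * (2 ^ (a - i) / ((a - i : ℕ) + 1)))
    with hZ
  have hZ0 : 0 ≤ Z := sum_nonneg (fun i _ => by positivity)
  have s4 : ∑ U ∈ H.powerset, y ^ U.card * (2 ^ (a - U.card) / ((a - U.card : ℕ) + 1)) = Z := by
    rw [sum_powerset_apply_card (fun i => y ^ i * (2 ^ (a - i) / (((a - i : ℕ) : ℝ) + 1))), hH]
    simp only [nsmul_eq_mul]
    rfl
  have s5 : ∑ U ∈ H.powerset, y ^ U.card * 2 ^ (a - U.card) = (2 + y) ^ a := by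
    rw [sum_powerset_apply_card (fun i => y ^ i * (2 : ℝ) ^ (a - i)), hH, add_comm 2 y, add_pow]
    apply sum_congr rfl
    intro i _
    rw [nsmul_eq_mul, mul_comm]
  rw [h2y] at h ⊢
  have s6 : u * Z ≤ (2 + y) ^ a * u⁻¹ := by
    rw [← div_eq_mul_inv, le_div_iff₀ hu]
    calc u * Z * u = Z * u ^ 2 := by ring
      _ ≤ Z * (1 + a / (2 + y)) := by gcongr
      _ ≤ _ := s3
  calc ∑ V ∈ 𝒜, q ^ V.card ≤ ∑ U ∈ H.powerset, y ^ U.card *
        ((u * (2 ^ (a - U.card) / ((a - U.card : ℕ) + 1)) + 2 ^ (a - U.card) * u⁻¹) / 2) := by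
        rw [s1]
        apply sum_le_sum
        intro U hU
        exact mul_le_mul_of_nonneg_left (s2 U hU) (by positivity)
    _ = (u * Z + (2 + y) ^ a * u⁻¹) / 2 := by
        rw [← s4, ← s5, mul_sum, sum_mul, ← sum_add_distrib, sum_div]
        apply sum_congr rfl
        intro U _
        ring
    _ ≤ _ := by linarith

theorem harvest' {q : ℝ} (hq : 1 ≤ q) {A : Finset ℕ} (𝒯 : Finset (Finset ℕ)) {H : Finset ℕ}
    (hH : H ⊆ A) (𝒜 : Finset (Finset ℕ)) (hsub : ∀ V ∈ 𝒜, V ⊆ H) (B D γ : ℝ) (hD : 0 ≤ D)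
    (hsp : ∑ V ∈ 𝒜, q ^ V.card ≤ (1 + q) ^ H.card * γ)
    (hfib1 : ∀ V ∈ 𝒜,
      wt q (A \ H) (𝒯.filter (fun T => T ∩ H = V)) ≤ (1 + q) ^ (A \ H).card * (B + D))
    (hfib2 : ∀ V, V ⊆ H → V ∉ 𝒜 →
      wt q (A \ H) (𝒯.filter (fun T => T ∩ H = V)) ≤ (1 + q) ^ (A \ H).card * B) :
    wt q A 𝒯 ≤ (1 + q) ^ A.card * (B + γ * D) := by
  classical
  have hA : A.card = (A \ H).card + H.card := (card_sdiff_add_card_eq_card hH).symm
  have hfil : H.powerset.filter (· ∈ 𝒜) = 𝒜 := by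
    ext V
    simp only [mem_filter, mem_powerset]
    exact ⟨fun h => h.2, fun h => ⟨hsub V h, h⟩⟩
  have hq0 : 0 ≤ q := by linarith
  calc wt q A 𝒯 = _ := wt_fiber q hH 𝒯
    _ ≤ ∑ V ∈ H.powerset, (q ^ V.card * ((1 + q) ^ (A \ H).card * B) +
          if V ∈ 𝒜 then q ^ V.card * ((1 + q) ^ (A \ H).card * D) else 0) := by
        apply sum_le_sum
        intro V hV
        split_ifs with hVA
        · rw [← mul_add, ← mul_add]
          exact mul_le_mul_of_nonneg_left (hfib1 V hVA) (by positivity)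
        · rw [add_zero]
          exact mul_le_mul_of_nonneg_left (hfib2 V (mem_powerset.1 hV) hVA) (by positivity)
    _ = (1 + q) ^ H.card * ((1 + q) ^ (A \ H).card * B) +
          (∑ V ∈ 𝒜, q ^ V.card) * ((1 + q) ^ (A \ H).card * D) := by
        rw [sum_add_distrib, ← sum_filter, hfil, ← sum_mul, ← sum_mul, sum_powerset_pow]
    _ ≤ (1 + q) ^ H.card * ((1 + q) ^ (A \ H).card * B) +
          (1 + q) ^ H.card * γ * ((1 + q) ^ (A \ H).card * D) := by
        gcongr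
    _ = (1 + q) ^ A.card * (B + γ * D) := by
        rw [hA, pow_add]; ring

theorem harvest {q : ℝ} (hq : 1 ≤ q) {A : Finset ℕ} (𝒯 : Finset (Finset ℕ)) {H : Finset ℕ}
    (hH : H ⊆ A) (𝒜 : Finset (Finset ℕ)) (hsub : ∀ V ∈ 𝒜, V ⊆ H)
    (hanti : ∀ V ∈ 𝒜, ∀ V' ∈ 𝒜, V ⊆ V' → V = V') (B D γ : ℝ) (hD : 0 ≤ D)
    (hγ : Sp q H.card γ)
    (hfib1 : ∀ V ∈ 𝒜,
      wt q (A \ H) (𝒯.filter (fun T => T ∩ H = V)) ≤ (1 + q) ^ (A \ H).card * (B + D))
    (hfib2 : ∀ V, V ⊆ H → V ∉ 𝒜 →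
      wt q (A \ H) (𝒯.filter (fun T => T ∩ H = V)) ≤ (1 + q) ^ (A \ H).card * B) :
    wt q A 𝒯 ≤ (1 + q) ^ A.card * (B + γ * D) :=
  harvest' hq 𝒯 hH 𝒜 hsub B D γ hD (hγ H 𝒜 rfl hsub hanti) hfib1 hfib2

theorem reveal {q : ℝ} (hq : 1 ≤ q) {A : Finset ℕ} (𝒯 : Finset (Finset ℕ)) {H : Finset ℕ}
    (hH : H ⊆ A) (B : ℝ)
    (hfib : ∀ V, V ⊆ H →
      wt q (A \ H) (𝒯.filter (fun T => T ∩ H = V)) ≤ (1 + q) ^ (A \ H).card * B) :
    wt q A 𝒯 ≤ (1 + q) ^ A.card * B := by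
  have := harvest' hq 𝒯 hH ∅ (by simp) B 0 0 le_rfl (by simp) (by simp)
    (fun V hV _ => hfib V hV)
  simpa using this

theorem split_one {q : ℝ} (hq : 1 ≤ q) {A : Finset ℕ} (𝒯 : Finset (Finset ℕ)) {w : ℕ}
    (hw : w ∈ A) (B ρ e : ℝ) (hρ0 : 0 ≤ ρ)
    (hρ : Real.exp ρ + Real.exp (-(2 * ρ)) ≤ 2)
    (h1 : wt q (A.erase w) (𝒯.filter (fun T => w ∉ T)) ≤
      (1 + q) ^ (A.erase w).card * (B + Real.exp (ρ * (e + 1))))
    (h2 : wt q (A.erase w) (𝒯.filter (fun T => w ∈ T)) ≤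
      (1 + q) ^ (A.erase w).card * (B + Real.exp (ρ * (e - 2)))) :
    wt q A 𝒯 ≤ (1 + q) ^ A.card * (B + Real.exp (ρ * e)) := by
  have hc : wt q A 𝒯 = q * wt q (A.erase w) (𝒯.filter (fun T => w ∈ T)) +
      wt q (A.erase w) (𝒯.filter (fun T => w ∉ T)) := by
    unfold wt
    rw [← sum_filter_add_sum_filter_not 𝒯 (fun T => w ∈ T), mul_sum]
    congr 1
    · apply sum_congr rfl
      intro T hT
      rw [inter_erase, ← pow_succ',
        card_erase_add_one (mem_inter.2 ⟨(mem_filter.1 hT).2, hw⟩)]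
    · apply sum_congr rfl
      intro T hT
      rw [inter_erase, erase_eq_of_notMem (fun h => (mem_filter.1 hT).2 (mem_inter.1 h).1)]
  have hA : (A.erase w).card + 1 = A.card := card_erase_add_one hw
  have e1 : Real.exp (ρ * (e + 1)) = Real.exp (ρ * e) * Real.exp ρ := by
    rw [← Real.exp_add]; congr 1; ring
  have e2 : Real.exp (ρ * (e - 2)) = Real.exp (ρ * e) * Real.exp (-(2 * ρ)) := by
    rw [← Real.exp_add]; congr 1; ring
  have hpos := Real.exp_pos (ρ * e)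
  have h2pos : (0 : ℝ) < (1 + q) ^ (A.erase w).card := by positivity
  have hle : Real.exp (-(2 * ρ)) ≤ 1 := Real.exp_le_one_iff.2 (by linarith)
  have hmix : Real.exp ρ + q * Real.exp (-(2 * ρ)) ≤ 1 + q := by nlinarith
  rw [hc, ← hA, pow_succ]
  rw [e1] at h1
  rw [e2] at h2
  have h3 := mul_le_mul_of_nonneg_left h2 (show 0 ≤ q by linarith)
  have h4 : (1 + q) ^ (A.erase w).card * (Real.exp (ρ * e) *
      (Real.exp ρ + q * Real.exp (-(2 * ρ)))) ≤
      (1 + q) ^ (A.erase w).card * (Real.exp (ρ * e) * (1 + q)) := by gcongr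
  nlinarith

end Pool.Agent.Lib.MP_e96620_co.Biased
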