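import Mathlib
import Pool.Agent.Lib.MP_e96620_co.BHarvest

/-!
The anchored steps of the potential argument, for the biased measure.
-/

set_option autoImplicit false

namespace Pool.Agent.Lib.MP_e96620_co.Biased

open Finset

/-- The potential bound at level `h`. -/
def Pot (q : ℝ) (h : ℕ) (B ρ : ℝ) : Prop :=
  ∀ (F A : Finset ℕ) (𝒯 : Finset (Finset ℕ)), Good h F A 𝒯 →
  wt q A 𝒯 ≤ (1 + q) ^ A.card * (B + Real.exp (ρ * (3 + 3 * h - A.card)))

/-- (H3) Many active points in occupied classes: cut and harvest the top part. -/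
theorem step_cut {q : ℝ} (hq : 1 ≤ q) {h b : ℕ} {l : ℕ → ℕ} {G β : ℝ}
    (hβ : 0 ≤ β)
    (hbig : ∀ a : ℕ, b ≤ a → Sp q a G)
    (prev : ∀ (F A : Finset ℕ) (𝒯 : Finset (Finset ℕ)), Good (h + 1) F A 𝒯 → b ≤ A.card →
      wt q A 𝒯 ≤ (1 + q) ^ A.card * β)
    {F A : Finset ℕ} {𝒯 : Finset (Finset ℕ)} (hg : Good (h + 1) F A 𝒯)
    (hQ : ∀ T ∈ 𝒯, ∀ T' ∈ 𝒯, Q h l T T')
    (hcl : ∀ c, (A.filter (fun w => l w = c)).card ≤ b)
    (hl : ∀ x ∈ A, l x < tw h + 2)
    (hK : 3 * b < (A.filter (fun w => l w ∈ F.image l)).card) :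
    wt q A 𝒯 ≤ (1 + q) ^ A.card * (G * β) := by
  set K := A.filter (fun w => l w ∈ F.image l) with hKdef
  obtain ⟨c, hc1, hc2⟩ : ∃ c, ¬ (K.filter (fun w => c ≤ l w)).card ≤ b ∧
      (K.filter (fun w => c + 1 ≤ l w)).card ≤ b := by
    apply Nat.exists_not_and_succ_of_not_zero_of_exists
      (p := fun c => (K.filter (fun w => c ≤ l w)).card ≤ b)
    · simp only [Nat.zero_le, filter_true]; omega
    · refine ⟨tw h + 2, ?_⟩
      have : K.filter (fun w => tw h + 2 ≤ l w) = ∅ := by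
        apply filter_eq_empty_iff.2
        intro w hw
        have := hl w (mem_filter.1 hw).1
        omega
      simp [this]
  set H := K.filter (fun w => c ≤ l w) with hHdef
  have hH2 : H.card ≤ 2 * b := by
    have hsub : H ⊆ K.filter (fun w => c + 1 ≤ l w) ∪ A.filter (fun w => l w = c) := by
      intro w hw
      obtain ⟨hw1, hw2⟩ := mem_filter.1 hw
      rcases Nat.eq_or_lt_of_le hw2 with h1 | h1
      · exact mem_union_right _ (mem_filter.2 ⟨(mem_filter.1 hw1).1, h1.symm⟩)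
      · exact mem_union_left _ (mem_filter.2 ⟨hw1, h1⟩)
    have := card_le_card hsub
    have h2 := card_union_le (K.filter (fun w => c + 1 ≤ l w)) (A.filter (fun w => l w = c))
    have h3 := hcl c
    omega
  set Rv := A.filter (fun w => l w ∉ F.image l ∧ c ≤ l w) with hRv
  have hRvA : Rv ⊆ A := filter_subset _ _
  apply reveal hq 𝒯 hRvA
  intro V0 _
  set 𝒰 := 𝒯.filter (fun T => T ∩ Rv = V0) with h𝒰
  have hb𝒰 : Base (F ∪ V0) (A \ Rv) 𝒰 := hg.1.fiber hRvA V0
  have hHA : H ⊆ A \ Rv := by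
    intro w hw
    obtain ⟨hw1, _⟩ := mem_filter.1 hw
    obtain ⟨hw3, hw4⟩ := mem_filter.1 hw1
    refine mem_sdiff.2 ⟨hw3, fun hr => ?_⟩
    exact (mem_filter.1 hr).2.1 hw4
  have htop : ∀ w ∈ A \ Rv, c ≤ l w → w ∈ H := by
    intro w hw hcw
    obtain ⟨hw1, hw2⟩ := mem_sdiff.1 hw
    refine mem_filter.2 ⟨mem_filter.2 ⟨hw1, ?_⟩, hcw⟩
    by_contra hn
    exact hw2 (mem_filter.2 ⟨hw1, hn, hcw⟩)
  have hrest : b ≤ ((A \ Rv) \ H).card := by
    have hsub : K \ H ⊆ (A \ Rv) \ H := by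
      intro w hw
      obtain ⟨hw1, hw2⟩ := mem_sdiff.1 hw
      obtain ⟨hw3, hw4⟩ := mem_filter.1 hw1
      exact mem_sdiff.2 ⟨mem_sdiff.2 ⟨hw3, fun hr => (mem_filter.1 hr).2.1 hw4⟩, hw2⟩
    have h1 := card_le_card hsub
    have h2 : (K \ H).card + H.card = K.card := card_sdiff_add_card_eq_card (filter_subset _ _)
    omega
  have hlab : ∀ T ∈ 𝒰, (T.image l).filter (c ≤ ·) = ((F ∪ V0).image l).filter (c ≤ ·) := by
    intro T hT
    ext d
    simp only [mem_filter]
    constructor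
    · rintro ⟨hd, hcd⟩
      refine ⟨?_, hcd⟩
      obtain ⟨y, hy, rfl⟩ := mem_image.1 hd
      by_cases hyA : y ∈ A \ Rv
      · have := (mem_filter.1 (mem_filter.1 (htop y hyA hcd)).1).2
        exact image_subset_image subset_union_left this
      · exact mem_image_of_mem _ ((hb𝒰.mem_iff hT y).2 ⟨hy, hyA⟩)
    · rintro ⟨hd, hcd⟩
      exact ⟨image_subset_image (hb𝒰.subset hT) hd, hcd⟩
  have := harvest hq (A := A \ Rv) 𝒰 hHA (𝒰.image (fun T => T ∩ H)) ?_ ?_ 0 β G hβ
    (hbig _ (by omega)) ?_ ?_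
  · simpa using this
  · intro V hV
    obtain ⟨T, _, rfl⟩ := mem_image.1 hV
    exact inter_subset_right
  · intro V hV V' hV' hVV
    obtain ⟨T, hT, rfl⟩ := mem_image.1 hV
    obtain ⟨T', hT', rfl⟩ := mem_image.1 hV'
    have hc := (hQ T (mem_filter.1 hT).1 T' (mem_filter.1 hT').1).top_card_eq (c := c)
      (by rw [hlab T hT, hlab T' hT'])
    have hsub : T.filter (fun x => c ≤ l x) ⊆ T'.filter (fun x => c ≤ l x) := by
      intro y hy
      obtain ⟨hy1, hy2⟩ := mem_filter.1 hy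
      refine mem_filter.2 ⟨?_, hy2⟩
      by_cases hyA : y ∈ A \ Rv
      · exact (mem_inter.1 (hVV (mem_inter.2 ⟨hy1, htop y hyA hy2⟩))).1
      · exact hb𝒰.subset hT' ((hb𝒰.mem_iff hT y).2 ⟨hy1, hyA⟩)
    have heq := eq_of_subset_of_card_le hsub hc.ge
    apply Subset.antisymm hVV
    intro y hy
    obtain ⟨hy1, hy2⟩ := mem_inter.1 hy
    have : y ∈ T'.filter (fun x => c ≤ l x) := mem_filter.2 ⟨hy1, (mem_filter.1 hy2).2⟩
    rw [← heq] at this
    exact mem_inter.2 ⟨(mem_filter.1 this).1, hy2⟩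
  · intro V _
    rw [zero_add]
    refine prev (F ∪ V0 ∪ V) _ _ (hg.mono (hb𝒰.fiber hHA V) ?_ ?_) hrest
    · exact (filter_subset _ _).trans (filter_subset _ _)
    · exact sdiff_subset.trans sdiff_subset
  · intro V _ hV
    have : 𝒰.filter (fun T => T ∩ H = V) = ∅ := by
      apply filter_eq_empty_iff.2
      intro T hT hTV
      exact hV (mem_image.2 ⟨T, hT, hTV⟩)
    simp [this, wt_empty]

/-- (H2) All unoccupied classes are singletons: harvest the occupied ones and step down. -/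
theorem step_down {q : ℝ} (hq : 1 ≤ q) {h : ℕ} {l : ℕ → ℕ} {B ρ γ : ℝ} (hB : 0 ≤ B)
    (ih : Pot q h B ρ)
    {F A : Finset ℕ} {𝒯 : Finset (Finset ℕ)} (hb : Base F A 𝒯)
    (hQ : ∀ T ∈ 𝒯, ∀ T' ∈ 𝒯, Q h l T T')
    (hl : ∀ x ∈ A, l x < tw h + 2)
    (K : Finset ℕ) (hK : K = A.filter (fun w => l w ∈ F.image l))
    (hγ : Sp q K.card γ)
    (hinj : Set.InjOn l (A \ K : Finset ℕ)) :
    wt q A 𝒯 ≤ (1 + q) ^ A.card * (B + γ * Real.exp (ρ * (3 + 3 * h - (A \ K).card))) := by
  have hKA : K ⊆ A := by rw [hK]; exact filter_subset _ _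
  have hYl : ∀ y ∈ A \ K, l y ∉ F.image l := by
    intro y hy hn
    obtain ⟨hy1, hy2⟩ := mem_sdiff.1 hy
    exact hy2 (by rw [hK]; exact mem_filter.2 ⟨hy1, hn⟩)
  have himg : ∀ T ∈ 𝒯, T.image l = F.image l ∪ (T ∩ (A \ K)).image l := by
    intro T hT
    apply Subset.antisymm
    · intro d hd
      obtain ⟨y, hy, rfl⟩ := mem_image.1 hd
      by_cases hyA : y ∈ A
      · by_cases hyK : y ∈ K
        · rw [hK] at hyK
          exact mem_union_left _ (mem_filter.1 hyK).2
        · exact mem_union_right _ (mem_image_of_mem _ (mem_inter.2 ⟨hy, mem_sdiff.2 ⟨hyA, hyK⟩⟩))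
      · exact mem_union_left _ (mem_image_of_mem _ ((hb.mem_iff hT y).2 ⟨hy, hyA⟩))
    · exact union_subset (image_subset_image (hb.subset hT))
        (image_subset_image inter_subset_left)
  have hcount : ∀ T ∈ 𝒯,
      T.card + (F.image l).card = F.card + (T ∩ K).card + (T.image l).card := by
    intro T hT
    have hdisj : Disjoint (F.image l) ((T ∩ (A \ K)).image l) := by
      apply disjoint_right.2
      intro d hd
      obtain ⟨y, hy, rfl⟩ := mem_image.1 hd
      exact hYl y (mem_inter.1 hy).2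
    have h1 : (T.image l).card = (F.image l).card + (T ∩ (A \ K)).card := by
      rw [himg T hT, card_union_of_disjoint hdisj, card_image_of_injOn
        (hinj.mono (coe_subset.2 inter_subset_right))]
    have h2 : (T \ A).card + (T ∩ A).card = T.card := card_sdiff_add_card_inter T A
    have h3 : ((T ∩ A) \ K).card + ((T ∩ A) ∩ K).card = (T ∩ A).card :=
      card_sdiff_add_card_inter _ _
    have h4 : (T ∩ A) \ K = T ∩ (A \ K) := by
      ext x; simp only [mem_sdiff, mem_inter]; tauto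
    have h5 : (T ∩ A) ∩ K = T ∩ K := by
      ext x
      have : x ∈ K → x ∈ A := fun hx => hKA hx
      simp only [mem_inter]; tauto
    rw [hb T hT] at h2
    rw [h4, h5] at h3
    omega
  apply harvest hq 𝒯 hKA (𝒯.image (fun T => T ∩ K)) ?_ ?_ B _ γ (Real.exp_pos _).le hγ ?_ ?_
  · intro V hV
    obtain ⟨T, _, rfl⟩ := mem_image.1 hV
    exact inter_subset_right
  · intro V hV V' hV' hVV
    obtain ⟨T, hT, rfl⟩ := mem_image.1 hV
    obtain ⟨T', hT', rfl⟩ := mem_image.1 hV'
    apply eq_of_subset_of_card_le hVV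
    have h1 := hcount T hT
    have h2 := hcount T' hT'
    have h3 := (hQ T hT T' hT').card_eq
    have h4 := (hQ T hT T' hT').toR.card_eq
    omega
  · intro V _
    set 𝒰 := 𝒯.filter (fun T => T ∩ K = V) with h𝒰
    have hb𝒰 : Base (F ∪ V) (A \ K) 𝒰 := hb.fiber hKA V
    have hinj2 : Set.InjOn (fun T : Finset ℕ => T.image l) (𝒰 : Set (Finset ℕ)) := by
      intro T hT T' hT' hTT
      have hT1 := mem_coe.1 hT
      have hT1' := mem_coe.1 hT'
      apply hb𝒰.eq_of_inter hT1 hT1'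
      have key : ∀ S ∈ 𝒰, ∀ S' ∈ 𝒰, S.image l = S'.image l → S ∩ (A \ K) ⊆ S' ∩ (A \ K) := by
        intro S _ S' hS' hSS y hy
        obtain ⟨hy1, hy2⟩ := mem_inter.1 hy
        have : l y ∈ S'.image l := by rw [← hSS]; exact mem_image_of_mem _ hy1
        rw [himg S' (mem_filter.1 hS').1] at this
        rcases mem_union.1 this with h1 | h1
        · exact absurd h1 (hYl y hy2)
        · obtain ⟨z, hz, hzy⟩ := mem_image.1 h1
          have := hinj (mem_coe.2 (mem_inter.1 hz).2) (mem_coe.2 hy2) hzy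
          rw [← this]; exact hz
      exact Subset.antisymm (key T hT1 T' hT1' hTT) (key T' hT1' T hT1 hTT.symm)
    have hgood : Good h (F.image l) ((A \ K).image l) (𝒰.image (fun T => T.image l)) := by
      refine ⟨?_, ?_, ?_⟩
      · intro D hD
        obtain ⟨T, hT, rfl⟩ := mem_image.1 hD
        rw [himg T (mem_filter.1 hT).1]
        ext d
        simp only [mem_sdiff, mem_union]
        constructor
        · rintro ⟨h1 | h1, h2⟩
          · exact h1
          · exact absurd (image_subset_image inter_subset_right h1) h2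
        · intro h1
          refine ⟨Or.inl h1, fun h2 => ?_⟩
          obtain ⟨y, hy, rfl⟩ := mem_image.1 h2
          exact hYl y hy h1
      · intro D hD D' hD'
        obtain ⟨T, hT, rfl⟩ := mem_image.1 hD
        obtain ⟨T', hT', rfl⟩ := mem_image.1 hD'
        exact (hQ T (mem_filter.1 hT).1 T' (mem_filter.1 hT').1).toR
      · intro d hd
        obtain ⟨y, hy, rfl⟩ := mem_image.1 hd
        exact hl y (mem_sdiff.1 hy).1
    have := ih _ _ _ hgood
    rw [card_image_of_injOn hinj] at this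
    refine le_trans (le_of_eq ?_) this
    unfold wt
    rw [sum_image hinj2]
    apply sum_congr rfl
    intro T hT
    congr 1
    rw [← card_image_of_injOn (hinj.mono (coe_subset.2 (inter_subset_right (s₁ := T))))]
    congr 1
    rw [himg T (mem_filter.1 hT).1]
    ext d
    simp only [mem_inter, mem_union]
    constructor
    · intro h1
      exact ⟨Or.inr h1, image_subset_image inter_subset_right h1⟩
    · rintro ⟨h1 | h1, h2⟩
      · obtain ⟨y, hy, rfl⟩ := mem_image.1 h2
        exact absurd h1 (hYl y hy)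
      · exact h1
  · intro V _ hV
    have : 𝒯.filter (fun T => T ∩ K = V) = ∅ := by
      apply filter_eq_empty_iff.2
      intro T hT hTV
      exact hV (mem_image.2 ⟨T, hT, hTV⟩)
    rw [this, wt_empty]
    have : 0 < 1 + q := by linarith
    positivity

end Pool.Agent.Lib.MP_e96620_co.Biased
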