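import Mathlib
import Pool.Agent.Lib.MP_e96620_co.BStage

/-!
Iterating the stages, for the biased measure.
-/

set_option autoImplicit false

namespace Pool.Agent.Lib.MP_e96620_co.Biased

open Finset

theorem exp_rate_le {p : ℝ} (hp : 0 ≤ p) {b a : ℕ} (hb : 1 ≤ b) (ha : a ≤ 3 * b) :
    Real.exp (4 * (Real.log (1 + 3 * b * p) / (24 * b)) * a) ^ 2 ≤ 1 + a * p := by
  have hbR : (1 : ℝ) ≤ b := by exact_mod_cast hb
  have haR : (a : ℝ) ≤ 3 * b := by exact_mod_cast ha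
  have ha0 : (0 : ℝ) ≤ a := Nat.cast_nonneg _
  have hs : (0 : ℝ) ≤ 3 * b * p := by positivity
  have h1 := rpow_one_add_le_one_add_mul_self (s := 3 * b * p) (by linarith)
    (p := a / (3 * b)) (by positivity) (by rw [div_le_one (by positivity)]; exact haR)
  have h2 : (1 : ℝ) + a / (3 * b) * (3 * b * p) = 1 + a * p := by field_simp
  rw [h2, Real.rpow_def_of_pos (by positivity)] at h1
  refine le_trans (le_of_eq ?_) h1
  rw [← Real.exp_nat_mul]
  congr 1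
  field_simp
  ring

theorem bd_step {q : ℝ} (hq : 1 ≤ q) {h₀ b s : ℕ} {β r : ℝ} (hb : h₀ + 1 ≤ b) (hβ : 0 ≤ β)
    (hr : 0 < r) (hrb : r ^ 2 ≤ 1 + b / (1 + q)) (prev : Bd q h₀ b β) :
    Bd q h₀ ((3 + 24 * s) * b)
      ((1 / 2) ^ b + r⁻¹ * β + ((1 + 3 * b * (1 + q)⁻¹ : ℝ) ^ s)⁻¹) := by
  have hb1 : 1 ≤ b := by omega
  have hbR : (1 : ℝ) ≤ b := by exact_mod_cast hb1
  have hq1 : 0 < 1 + q := by linarith
  have hp : 0 ≤ (1 + q)⁻¹ := by positivity
  have hp1 : (1 + q)⁻¹ ≤ 1 := inv_le_one_of_one_le₀ (by linarith)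
  have hs : (0 : ℝ) ≤ 3 * b * (1 + q)⁻¹ := by positivity
  set ρ := Real.log (1 + 3 * b * (1 + q)⁻¹) / (24 * b) with hρdef
  have hρ0 : 0 ≤ ρ := div_nonneg (Real.log_nonneg (by linarith)) (by positivity)
  have hρ : Real.exp ρ + Real.exp (-(2 * ρ)) ≤ 2 := by
    apply exp_two_bound hρ0
    have := exp_rate_le hp (a := 1) hb1 (by omega)
    rw [← hρdef] at this
    simp only [Nat.cast_one, mul_one, one_mul] at this
    linarith
  have hst := stage hq (h₀ := h₀) (b := b) (G := r⁻¹) (B := (1 / 2) ^ b + r⁻¹ * β) hβ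
    (by positivity) hρ0 hρ le_rfl
    (fun a ha => by
      rw [Real.exp_neg]
      refine sp_le hq (Real.exp_pos _) ?_
      rw [div_eq_mul_inv (a : ℝ)]
      exact exp_rate_le hp hb1 ha)
    (fun a ha => sp_le hq hr (hrb.trans (by
      have : (b : ℝ) ≤ a := by exact_mod_cast ha
      gcongr))) prev
  intro h hh F A 𝒯 hg hA
  refine (hst h hh F A 𝒯 hg).trans (mul_le_mul_of_nonneg_left ?_ (by positivity))
  refine add_le_add le_rfl ?_
  have h1 : ((3 + 24 * s) * b : ℝ) ≤ A.card := by exact_mod_cast hA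
  have h2 : (h : ℝ) + 1 ≤ b := by
    have : h + 1 ≤ b := by omega
    exact_mod_cast this
  have h3 : ρ * (3 + 3 * h - A.card) ≤ ρ * (-(24 * s * b)) :=
    mul_le_mul_of_nonneg_left (by linarith) hρ0
  refine (Real.exp_le_exp.2 h3).trans (le_of_eq ?_)
  have h4 : ρ * (-(24 * s * b)) = -(s * Real.log (1 + 3 * b * (1 + q)⁻¹)) := by
    rw [hρdef]; field_simp
  rw [h4, Real.exp_neg, Real.exp_nat_mul, Real.exp_log (by positivity)]

theorem Bd.mono {q : ℝ} (hq : 1 ≤ q) {h₀ n : ℕ} {β β' : ℝ} (h : Bd q h₀ n β) (hβ : β ≤ β') :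
    Bd q h₀ n β' :=
  fun k hk F A 𝒯 hg hA =>
    (h k hk F A 𝒯 hg hA).trans (mul_le_mul_of_nonneg_left hβ (pow_nonneg (by linarith) _))

theorem bd_iterate (s : ℕ) : ∃ C : ℕ, 2 ≤ C ∧ ∃ c : ℝ, 0 < c ∧
    ∀ q : ℝ, 1 ≤ q → ∀ t h₀ : ℕ, h₀ + 1 ≤ t → ∀ r : ℝ, 1 ≤ r → r ^ 2 ≤ t / (1 + q) →
      Bd q h₀ (C * t) (c / r ^ s) := by
  induction s with
  | zero =>
    refine ⟨2, le_rfl, 1, one_pos, fun q hq t h₀ _ r _ _ h _ F A 𝒯 hg _ => ?_⟩
    simp only [pow_zero, div_one, mul_one]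
    exact wt_le (by linarith) hg.1
  | succ s ih =>
    obtain ⟨C, hC, c, hc, hbd⟩ := ih
    refine ⟨(3 + 24 * (s + 1)) * C, by nlinarith, (s + 1).factorial + c + 1, by positivity,
      fun q hq t h₀ ht r hr1 hr2 => ?_⟩
    have ht1 : 1 ≤ t := by omega
    have htR : (1 : ℝ) ≤ t := by exact_mod_cast ht1
    have hq1 : 0 < 1 + q := by linarith
    have htq : (t : ℝ) / (1 + q) ≤ t := div_le_self (by linarith) (by linarith)
    have hrr : r ≤ r ^ 2 := by nlinarith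
    have hrt : r ≤ t := by linarith
    have hb2 : 2 * t ≤ C * t := Nat.mul_le_mul_right _ hC
    have hb2R : 2 * (t : ℝ) ≤ ((C * t : ℕ) : ℝ) := by exact_mod_cast hb2
    have hdiv : (t : ℝ) / (1 + q) ≤ ((C * t : ℕ) : ℝ) / (1 + q) := by
      gcongr
      linarith
    have hstep := bd_step hq (s := s + 1) (b := C * t) (β := c / r ^ s) (r := r) (h₀ := h₀)
      (by omega) (by positivity) (by linarith) (by linarith) (hbd q hq t h₀ ht r hr1 hr2)
    rw [mul_assoc]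
    refine hstep.mono hq ?_
    have hrs : 0 < r ^ (s + 1) := by positivity
    have e1 : ((1 : ℝ) / 2) ^ (C * t) ≤ (s + 1).factorial / r ^ (s + 1) := by
      have a1 : ((1 : ℝ) / 2) ^ (C * t) ≤ (1 / 2) ^ (2 * t) :=
        pow_le_pow_of_le_one (by norm_num) (by norm_num) hb2
      have a2 : Real.exp t ≤ 4 ^ t := by
        rw [← Real.exp_one_pow]
        have := Real.exp_one_lt_d9
        gcongr
        linarith
      have a3 := Real.pow_div_factorial_le_exp (t : ℝ) (by linarith) (s + 1)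
      have a4 : r ^ (s + 1) ≤ (t : ℝ) ^ (s + 1) := by gcongr
      have a5 : (0 : ℝ) < (s + 1).factorial := by positivity
      rw [div_le_iff₀ a5] at a3
      refine a1.trans ?_
      rw [le_div_iff₀ hrs, pow_mul]
      have a6 : ((1 / 2 : ℝ) ^ 2) ^ t * 4 ^ t = 1 := by rw [← mul_pow]; norm_num
      calc ((1 / 2 : ℝ) ^ 2) ^ t * r ^ (s + 1)
          ≤ ((1 / 2 : ℝ) ^ 2) ^ t * (4 ^ t * ((s + 1).factorial : ℝ)) := by
            gcongr
            calc r ^ (s + 1) ≤ _ := a4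
              _ ≤ _ := a3
              _ ≤ _ := by gcongr
        _ = ((s + 1).factorial : ℝ) := by rw [← mul_assoc, a6, one_mul]
    have e2 : r⁻¹ * (c / r ^ s) = c / r ^ (s + 1) := by
      rw [pow_succ]; field_simp
    have e3 : ((1 + 3 * ((C * t : ℕ) : ℝ) * (1 + q)⁻¹) ^ (s + 1))⁻¹ ≤ 1 / r ^ (s + 1) := by
      rw [one_div]
      have a1 : (0 : ℝ) ≤ ((C * t : ℕ) : ℝ) / (1 + q) := by positivity
      have a2 : r ≤ 1 + 3 * ((C * t : ℕ) : ℝ) * (1 + q)⁻¹ := by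
        rw [mul_assoc, ← div_eq_mul_inv]
        linarith
      gcongr
    rw [add_div, add_div]
    linarith

end Pool.Agent.Lib.MP_e96620_co.Biased
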