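import Mathlib
import Pool.Agent.Lib.MP_e96620_co.BIterate

/-!
Cutting the active set into consecutive blocks: the density bounds of the blocks multiply.
-/

set_option autoImplicit false

namespace Pool.Agent.Lib.MP_e96620_co.Biased

open Finset

theorem exists_cut (A : Finset ℕ) {L : ℕ} (hL : L ≤ A.card) :
    ∃ θ, (A.filter (· < θ)).card = L := by
  have hex : ∃ θ, L ≤ (A.filter (· < θ)).card := by
    refine ⟨A.sup id + 1, ?_⟩
    rw [filter_true_of_mem]
    · exact hL
    · intro x hx
      exact Nat.lt_succ_of_le (le_sup (f := id) hx)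
  classical
  refine ⟨Nat.find hex, le_antisymm ?_ (Nat.find_spec hex)⟩
  rcases h0 : Nat.find hex with _ | θ
  · simp
  · have h1 := Nat.find_min hex (m := θ) (by omega)
    have h2 : A.filter (· < θ + 1) ⊆ insert θ (A.filter (· < θ)) := by
      intro x hx
      obtain ⟨hx1, hx2⟩ := mem_filter.1 hx
      rcases Nat.lt_succ_iff_lt_or_eq.1 hx2 with h3 | h3
      · exact mem_insert_of_mem (mem_filter.2 ⟨hx1, h3⟩)
      · rw [h3]; exact mem_insert_self _ _
    have h3 := (card_le_card h2).trans (card_insert_le _ _)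
    omega

theorem lt_iff_rank {X : Finset ℕ} {x : ℕ} (hx : x ∈ X) (θ : ℕ) :
    x < θ ↔ (X.filter (· < x)).card < (X.filter (· < θ)).card := by
  constructor
  · intro h
    apply card_lt_card
    refine ⟨fun y hy => ?_, fun hsub => ?_⟩
    · exact mem_filter.2 ⟨(mem_filter.1 hy).1, (mem_filter.1 hy).2.trans h⟩
    · exact lt_irrefl _ (mem_filter.1 (hsub (mem_filter.2 ⟨hx, h⟩))).2
  · intro h
    by_contra hcon
    have : X.filter (· < θ) ⊆ X.filter (· < x) := fun y hy =>
      mem_filter.2 ⟨(mem_filter.1 hy).1, by have := (mem_filter.1 hy).2; omega⟩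
    have := card_le_card this
    omega

theorem R_cut {h : ℕ} {X Y : Finset ℕ} (hR : R h X Y) {θ : ℕ}
    (hc : (X.filter (· < θ)).card = (Y.filter (· < θ)).card) :
    R h (X.filter (· < θ)) (Y.filter (· < θ)) := by
  obtain ⟨ι, f, g, hX, hY, hE⟩ := hR
  have key : ∀ i, f i < θ ↔ g i < θ := by
    intro i
    rw [lt_iff_rank ((hX _).2 ⟨i, rfl⟩), lt_iff_rank ((hY _).2 ⟨i, rfl⟩), hc,
      transfer hX hY hE.eqpat (· < f i) (· < g i) (fun j => hE.pat j i)]
  refine ⟨{i // f i < θ}, fun i => f i.1, fun i => g i.1, fun x => ?_, fun y => ?_,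
    hE.comp Subtype.val⟩
  · rw [mem_filter, hX]
    constructor
    · rintro ⟨⟨i, rfl⟩, hi⟩
      exact ⟨⟨i, hi⟩, rfl⟩
    · rintro ⟨i, rfl⟩
      exact ⟨⟨i.1, rfl⟩, i.2⟩
  · rw [mem_filter, hY]
    constructor
    · rintro ⟨⟨i, rfl⟩, hi⟩
      exact ⟨⟨i, (key i).2 hi⟩, rfl⟩
    · rintro ⟨i, rfl⟩
      exact ⟨⟨i.1, rfl⟩, (key i.1).1 i.2⟩

/-- The bound for `t` blocks of length `L`, for families that miss exactly `n` active points. -/
theorem prod_bound {q : ℝ} (hq : 1 ≤ q) {h L : ℕ} {β z : ℝ} (hβ : 0 ≤ β) (hz0 : 0 < z)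
    (hz1 : z < 1) (hbd : Bd q h L β) :
    ∀ (t n : ℕ) (F A : Finset ℕ) (𝒯 : Finset (Finset ℕ)), Good h F A 𝒯 → t * L ≤ A.card →
      (∀ T ∈ 𝒯, (A \ T).card = n) →
      wt q A 𝒯 ≤ (1 + q) ^ A.card * ((β / (1 - z)) ^ t / z ^ n) := by
  have hq1 : 0 < 1 + q := by linarith
  have h1z : 0 < 1 - z := by linarith
  intro t
  induction t with
  | zero =>
    intro n F A 𝒯 hg _ _
    refine (wt_le (by linarith) hg.1).trans (le_mul_of_one_le_right (by positivity) ?_)
    rw [pow_zero, one_le_div (by positivity)]
    exact pow_le_one₀ hz0.le hz1.le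
  | succ t ih =>
    intro n F A 𝒯 hg hA hn
    obtain ⟨θ, hθ⟩ := exists_cut A (L := L) (by nlinarith)
    set H := A.filter (· < θ) with hH
    have hHA : H ⊆ A := filter_subset _ _
    have hsplit : (A \ H).card + H.card = A.card := card_sdiff_add_card_eq_card hHA
    have hmiss : ∀ T : Finset ℕ, ((A \ H) \ T).card + (H \ T).card = (A \ T).card := by
      intro T
      have a1 : (H \ T) ⊆ A \ T := sdiff_subset_sdiff hHA (Subset.refl _)
      have a2 : (A \ T) \ (H \ T) = (A \ H) \ T := by
        ext x; simp only [mem_sdiff]; tauto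
      rw [← a2]
      exact card_sdiff_add_card_eq_card a1
    have hsum : wt q A 𝒯 = ∑ j ∈ range (n + 1), wt q A (𝒯.filter (fun T => (H \ T).card = j)) := by
      unfold wt
      refine (sum_fiberwise_of_maps_to (g := fun T => (H \ T).card) (fun T hT => ?_) _).symm
      have a1 := hmiss T
      have a2 := hn T hT
      exact mem_range.2 (by omega)
    have hpart : ∀ j ∈ range (n + 1), wt q A (𝒯.filter (fun T => (H \ T).card = j)) ≤
        (1 + q) ^ A.card * (β * ((β / (1 - z)) ^ t / z ^ n)) * z ^ j := by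
      intro j hj
      have hjn : j ≤ n := by have := mem_range.1 hj; omega
      set 𝒰 := 𝒯.filter (fun T => (H \ T).card = j) with h𝒰
      have hg𝒰 : Good h F A 𝒰 :=
        hg.mono (fun T hT => hg.1 T (mem_filter.1 hT).1) (filter_subset _ _) (Subset.refl _)
      have hlow : ∀ T ∈ 𝒰, T.filter (· < θ) \ H = F.filter (· < θ) := by
        intro T hT
        ext x
        have a1 := hg𝒰.1.mem_iff hT x
        simp only [hH, mem_sdiff, mem_filter]
        tauto
      have hint : ∀ T : Finset ℕ, T.filter (· < θ) ∩ H = T ∩ H := by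
        intro T
        ext x
        simp only [hH, mem_inter, mem_filter]
        tauto
      have hcnt : ∀ T ∈ 𝒰, (T.filter (· < θ)).card + j = (F.filter (· < θ)).card + H.card := by
        intro T hT
        have a1 := card_sdiff_add_card_inter (T.filter (· < θ)) H
        have a2 := card_sdiff_add_card_inter H T
        rw [hlow T hT, hint T] at a1
        rw [(mem_filter.1 hT).2, inter_comm] at a2
        omega
      have hgl : Good h (F.filter (· < θ)) H (𝒰.image (fun T => T.filter (· < θ))) := by
        refine ⟨?_, ?_, fun x hx => hg.2.2 x (hHA hx)⟩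
        · intro D hD
          obtain ⟨T, hT, rfl⟩ := mem_image.1 hD
          exact hlow T hT
        · intro D hD D' hD'
          obtain ⟨T, hT, rfl⟩ := mem_image.1 hD
          obtain ⟨T', hT', rfl⟩ := mem_image.1 hD'
          apply R_cut (hg𝒰.2.1 T hT T' hT')
          have a1 := hcnt T hT
          have a2 := hcnt T' hT'
          omega
      have hsp : ∑ V ∈ 𝒰.image (fun T => T ∩ H), q ^ V.card ≤ (1 + q) ^ H.card * β := by
        refine le_trans (le_of_eq ?_) (hbd h le_rfl _ _ _ hgl hθ.ge)
        have a1 : 𝒰.image (fun T => T ∩ H) =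
            (𝒰.image (fun T => T.filter (· < θ))).image (fun D => D ∩ H) := by
          rw [image_image]
          exact image_congr (fun T _ => (hint T).symm)
        rw [a1, sum_image]
        · rfl
        · exact fun D hD D' hD' hDD => hgl.1.eq_of_inter (mem_coe.1 hD) (mem_coe.1 hD') hDD
      have := harvest' hq 𝒰 hHA (𝒰.image (fun T => T ∩ H)) (by
          intro V hV
          obtain ⟨T, _, rfl⟩ := mem_image.1 hV
          exact inter_subset_right) 0 ((β / (1 - z)) ^ t / z ^ (n - j)) β (by positivity) hsp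
        (by
          intro V _
          rw [zero_add]
          refine ih (n - j) (F ∪ V) _ _
            (hg𝒰.mono (hg𝒰.1.fiber hHA V) (filter_subset _ _) sdiff_subset) (by nlinarith) ?_
          intro T hT
          have hT1 := (mem_filter.1 hT).1
          have a1 := hmiss T
          have a2 := hn T (mem_filter.1 hT1).1
          have a3 := (mem_filter.1 hT1).2
          omega)
        (by
          intro V _ hV
          have : 𝒰.filter (fun T => T ∩ H = V) = ∅ := by
            apply filter_eq_empty_iff.2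
            intro T hT hTV
            exact hV (mem_image.2 ⟨T, hT, hTV⟩)
          simp [this, wt_empty])
      refine this.trans (le_of_eq ?_)
      have a1 : z ^ n = z ^ (n - j) * z ^ j := by rw [← pow_add]; congr 1; omega
      rw [a1]
      field_simp
      ring
    have hgeom : ∑ j ∈ range (n + 1), z ^ j ≤ 1 / (1 - z) := by
      rw [le_div_iff₀ h1z, geom_sum_mul_neg]
      have : 0 ≤ z ^ (n + 1) := by positivity
      linarith
    calc wt q A 𝒯 ≤ ∑ j ∈ range (n + 1),
          (1 + q) ^ A.card * (β * ((β / (1 - z)) ^ t / z ^ n)) * z ^ j := by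
          rw [hsum]; exact sum_le_sum hpart
      _ ≤ (1 + q) ^ A.card * (β * ((β / (1 - z)) ^ t / z ^ n)) * (1 / (1 - z)) := by
          rw [← mul_sum]
          exact mul_le_mul_of_nonneg_left hgeom (by positivity)
      _ = _ := by rw [pow_succ]; ring

end Pool.Agent.Lib.MP_e96620_co.Biased
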