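import Mathlib
import Pool.Agent.Lib.MP_e96620_co.BProd

/-!
Type classes of subsets that miss few points: two sets of one type differ only inside short
windows, because a shift-invariant chain has bounded length.
-/

set_option autoImplicit false

namespace Pool.Agent.Lib.MP_e96620_co.Few

open Finset

theorem dl_between {x y z : ℕ} (hxy : x ≤ y) (hyz : y ≤ z) :
    dl x y ≤ dl x z ∧ dl y z ≤ dl x z := by
  have h0 : x / 2 ^ dl x z = z / 2 ^ dl x z := dl_le_iff.1 le_rfl
  have h1 : x / 2 ^ dl x z ≤ y / 2 ^ dl x z := Nat.div_le_div_right hxy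
  have h2 : y / 2 ^ dl x z ≤ z / 2 ^ dl x z := Nat.div_le_div_right hyz
  exact ⟨dl_le_iff.2 (by omega), dl_le_iff.2 (by omega)⟩

theorem dl_ne_of_lt {x y z : ℕ} (hxy : x < y) (hyz : y < z) : dl x y ≠ dl y z := by
  intro h
  have h1 := dl_ultra x y z
  have h2 := (dl_between hxy.le hyz.le).1
  exact dl_not_equi hxy.ne h (by omega)

/-- A chain whose type is invariant under the shift is short. -/
theorem chain_le : ∀ (h l : ℕ) (y : ℕ → ℕ), (∀ i ≤ l, y i < tw h + 2) → y 0 ≠ y 1 →
    E h (Fin l) (fun i => y i) (fun i => y (i + 1)) → l ≤ h + 2 := by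
  have mono : ∀ (l : ℕ) (y : ℕ → ℕ), y 0 ≠ y 1 →
      (∀ i j : Fin l, y i < y j ↔ y (i + 1) < y (j + 1)) →
      (∀ i < l, y i < y (i + 1)) ∨ (∀ i < l, y (i + 1) < y i) := by
    intro l y h01 hp
    rcases lt_or_gt_of_ne h01 with h1 | h1
    · left
      intro i
      induction i with
      | zero => exact fun _ => h1
      | succ i ih => exact fun hi => (hp ⟨i, by omega⟩ ⟨i + 1, hi⟩).1 (ih (by omega))
    · right
      intro i
      induction i with
      | zero => exact fun _ => h1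
      | succ i ih => exact fun hi => (hp ⟨i + 1, hi⟩ ⟨i, by omega⟩).1 (ih (by omega))
  intro h
  induction h with
  | zero =>
    intro l y hb h01 hE
    by_contra hl
    have h3 : y 0 < 3 := hb 0 (by omega)
    have h4 : y 3 < 3 := hb 3 (by omega)
    rcases mono l y h01 hE.pat with hm | hm
    · have a0 := hm 0 (by omega)
      have a1 := hm 1 (by omega)
      have a2 := hm 2 (by omega)
      norm_num at a0 a1 a2
      omega
    · have a0 := hm 0 (by omega)
      have a1 := hm 1 (by omega)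
      have a2 := hm 2 (by omega)
      norm_num at a0 a1 a2
      omega
  | succ h ih =>
    intro l y hb h01 hE
    by_contra hl
    obtain ⟨l', rfl⟩ : ∃ l', l = l' + 1 := ⟨l - 1, by omega⟩
    have := ih l' (fun i => dl (y i) (y (i + 1)))
      (fun i hi => dl_lt_tw (hb i (by omega)) (hb (i + 1) (by omega))) (by
        rcases mono _ y h01 hE.pat with hm | hm
        · exact dl_ne_of_lt (hm 0 (by omega)) (hm 1 (by omega))
        · have := dl_ne_of_lt (hm 1 (by omega)) (hm 0 (by omega))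
          intro hh
          apply this
          rw [dl_comm (y (1 + 1)), dl_comm (y 1) (y 0)]
          exact hh.symm)
      (hE.2.comp (fun i : Fin l' =>
        ((⟨i.1, by omega⟩ : Fin (l' + 1)), (⟨i.1 + 1, by omega⟩ : Fin (l' + 1)))))
    omega

theorem card_lt_split {A T : Finset ℕ} (hT : T ⊆ A) (θ : ℕ) :
    (T.filter (· < θ)).card + ((A \ T).filter (· < θ)).card = (A.filter (· < θ)).card := by
  rw [← card_union_of_disjoint (disjoint_filter_filter disjoint_sdiff), ← filter_union,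
    union_sdiff_of_subset hT]

theorem card_lt_succ_le (X : Finset ℕ) (θ : ℕ) :
    (X.filter (· < θ + 1)).card ≤ (X.filter (· < θ)).card + 1 := by
  refine le_trans (card_le_card ?_) (card_insert_le θ _)
  intro x hx
  obtain ⟨hx1, hx2⟩ := mem_filter.1 hx
  rcases Nat.lt_succ_iff_lt_or_eq.1 hx2 with h3 | h3
  · exact mem_insert_of_mem (mem_filter.2 ⟨hx1, h3⟩)
  · rw [h3]; exact mem_insert_self _ _

theorem card_lt_mono (X : Finset ℕ) {a b : ℕ} (hab : a ≤ b) :
    (X.filter (· < a)).card ≤ (X.filter (· < b)).card :=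
  card_le_card (fun _ hx => mem_filter.2 ⟨(mem_filter.1 hx).1, (mem_filter.1 hx).2.trans_le hab⟩)

/-- The first window in which two sets of one type differ is short. -/
theorem window {h : ℕ} {A T T' : Finset ℕ} (hA : ∀ x ∈ A, x < tw h + 2) (hR : R h T' T)
    (hT : T ⊆ A) (hT' : T' ⊆ A) {x : ℕ} (hx : x ∈ A \ T) (hx' : ∀ y ∈ A \ T', x < y) :
    ∃ e, x < e ∧ ((A \ T).filter (· < e)).card = ((A \ T').filter (· < e)).card ∧
      (A.filter (fun y => x ≤ y ∧ y < e)).card ≤ (h + 3) * ((A \ T').filter (· < e)).card := by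
  classical
  have hcard := hR.card_eq
  obtain ⟨ι, f, g, hf, hg, hE⟩ := hR
  have hex : ∃ e, x < e ∧ ((A \ T).filter (· < e)).card ≤ ((A \ T').filter (· < e)).card := by
    refine ⟨tw h + 2, hA x (mem_sdiff.1 hx).1, ?_⟩
    rw [filter_true_of_mem (fun y hy => hA y (mem_sdiff.1 hy).1),
      filter_true_of_mem (fun y hy => hA y (mem_sdiff.1 hy).1), card_sdiff_of_subset hT,
      card_sdiff_of_subset hT', hcard]
  set e := Nat.find hex with he
  obtain ⟨hxe, hle⟩ : x < e ∧ ((A \ T).filter (· < e)).card ≤ ((A \ T').filter (· < e)).card :=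
    Nat.find_spec hex
  have hmin : ∀ θ, x < θ → θ < e →
      ((A \ T').filter (· < θ)).card < ((A \ T).filter (· < θ)).card := by
    intro θ h1 h2
    have := Nat.find_min hex h2
    omega
  have hstart : ((A \ T').filter (· < x + 1)).card < ((A \ T).filter (· < x + 1)).card := by
    have a1 : (A \ T').filter (· < x + 1) = ∅ :=
      filter_eq_empty_iff.2 (fun y hy => by have := hx' y hy; omega)
    rw [a1, card_empty]
    exact card_pos.2 ⟨x, mem_filter.2 ⟨hx, by omega⟩⟩
  have heq : ((A \ T).filter (· < e)).card = ((A \ T').filter (· < e)).card := by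
    obtain ⟨θ, hθ⟩ : ∃ θ, e = θ + 1 := ⟨e - 1, by omega⟩
    rcases Nat.eq_or_lt_of_le (show x ≤ θ by omega) with h1 | h1
    · rw [hθ, ← h1] at hle
      omega
    · have a1 := hmin θ h1 (by omega)
      have a2 := card_lt_succ_le (A \ T') θ
      have a3 := card_lt_mono (A \ T) (show θ ≤ θ + 1 by omega)
      rw [hθ] at hle ⊢
      omega
  refine ⟨e, hxe, heq, ?_⟩
  set W := A.filter (fun y => x ≤ y ∧ y < e) with hW
  set r := ((A \ T').filter (· < e)).card with hr
  have hstep : ∀ a, f a ∈ W → f a < g a ∧ g a ∈ W := by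
    intro a ha
    obtain ⟨ha1, ha2, ha3⟩ := mem_filter.1 ha
    have hfa : f a ∈ T' := (hf _).2 ⟨a, rfl⟩
    have hga : g a ∈ T := (hg _).2 ⟨a, rfl⟩
    have hrk := transfer hf hg hE.eqpat (· < f a) (· < g a) (fun j => hE.pat j a)
    have b1 : ((A \ T').filter (· < f a + 1)).card < ((A \ T).filter (· < f a + 1)).card := by
      rcases Nat.eq_or_lt_of_le ha2 with h1 | h1
      · rw [← h1]; exact hstart
      · have a1 := hmin _ h1 ha3
        have a2 := card_lt_mono (A \ T) (show f a ≤ f a + 1 by omega)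
        have a3 : (A \ T').filter (· < f a + 1) = (A \ T').filter (· < f a) := by
          apply filter_congr
          intro y hy
          have : y ≠ f a := fun hh => (mem_sdiff.1 hy).2 (hh ▸ hfa)
          omega
        rw [a3]
        omega
    have b2 : f a < g a := by
      by_contra hcon
      have a1 := (Biased.lt_iff_rank hga (f a + 1)).1 (by omega)
      have a2 := card_lt_split hT (f a + 1)
      have a3 := card_lt_split hT' (f a + 1)
      have a4 := card_lt_succ_le T' (f a)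
      omega
    refine ⟨b2, mem_filter.2 ⟨hT hga, by omega, ?_⟩⟩
    have a1 := (Biased.lt_iff_rank hfa e).1 ha3
    have a2 := card_lt_split hT e
    have a3 := card_lt_split hT' e
    exact (Biased.lt_iff_rank hga e).2 (by omega)
  let Ch : ℕ → ℕ → Prop := fun j y => ∃ s : ℕ → ℕ, s 0 = y ∧ s j ∉ T' ∧ (∀ i ≤ j, s i ∈ W) ∧
    ∀ i < j, ∃ a, f a = s i ∧ g a = s (i + 1)
  have h1 : ∀ (d y : ℕ), y ∈ W → e - y ≤ d → ∃ j, Ch j y := by
    intro d
    induction d with
    | zero =>
      intro y hy hd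
      have := (mem_filter.1 hy).2.2
      omega
    | succ d ih =>
      intro y hy hd
      by_cases hyT : y ∈ T'
      · obtain ⟨a, rfl⟩ := (hf y).1 hyT
        obtain ⟨b1, b2⟩ := hstep a hy
        obtain ⟨j, s, hs0, hs1, hs2, hs3⟩ := ih (g a) b2 (by omega)
        refine ⟨j + 1, fun i => Nat.casesOn i (f a) s, rfl, hs1, fun i hi => ?_, fun i hi => ?_⟩
        · cases i with
          | zero => exact hy
          | succ i => exact hs2 i (by omega)
        · cases i with
          | zero => exact ⟨a, rfl, hs0.symm⟩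
          | succ i => exact hs3 i (by omega)
      · exact ⟨0, fun _ => y, rfl, hyT, fun _ _ => hy, fun i hi => absurd hi (by omega)⟩
  have h2 : ∀ j y, Ch j y → j ≤ h + 2 := by
    rintro j y ⟨s, _, _, hs2, hs3⟩
    rcases Nat.eq_zero_or_pos j with rfl | hj
    · omega
    choose σ hσ1 hσ2 using hs3
    apply chain_le h j s (fun i hi => hA _ (mem_filter.1 (hs2 i hi)).1)
    · have := (hstep (σ 0 hj) (by rw [hσ1]; exact hs2 0 (by omega))).1
      rw [hσ1, hσ2] at this
      exact this.ne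
    · have := hE.comp (fun i : Fin j => σ i.1 i.2)
      simp only [hσ1, hσ2] at this
      exact this
  have h3 : ∀ j, (W.filter (Ch j)).card ≤ r := by
    intro j
    induction j with
    | zero =>
      apply card_le_card
      intro y hy
      obtain ⟨hy1, s, hs0, hs1, _, _⟩ := mem_filter.1 hy
      obtain ⟨b1, _, b3⟩ := mem_filter.1 hy1
      exact mem_filter.2 ⟨mem_sdiff.2 ⟨b1, hs0 ▸ hs1⟩, b3⟩
    | succ j ih =>
      refine le_trans ?_ ih
      apply card_le_card_of_forall_subsingleton (fun y y' => ∃ a, f a = y ∧ g a = y')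
      · intro y hy
        obtain ⟨_, s, hs0, hs1, hs2, hs3⟩ := mem_filter.1 hy
        refine ⟨s 1, mem_filter.2 ⟨hs2 1 (by omega), fun i => s (i + 1), rfl, hs1,
          fun i hi => hs2 (i + 1) (by omega), fun i hi => hs3 (i + 1) (by omega)⟩, ?_⟩
        rw [← hs0]
        exact hs3 0 (by omega)
      · rintro y' _ y1 ⟨_, a, rfl, ha⟩ y2 ⟨_, b, rfl, hb⟩
        exact (hE.eqpat a b).2 (ha.trans hb.symm)
  calc W.card ≤ ((range (h + 3)).biUnion (fun j => W.filter (Ch j))).card := by
        apply card_le_card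
        intro y hy
        obtain ⟨j, hj⟩ := h1 _ y hy le_rfl
        exact mem_biUnion.2 ⟨j, mem_range.2 (by have := h2 j y hj; omega), mem_filter.2 ⟨hy, hj⟩⟩
    _ ≤ (range (h + 3)).card * r := card_biUnion_le_card_mul _ _ _ (fun j _ => h3 j)
    _ = _ := by rw [card_range]

/-- The points of `A` whose rank is within `w` of the rank of `x`. -/
def near (A : Finset ℕ) (x w : ℕ) : Finset ℕ := A.filter (fun y =>
  (A.filter (· < x)).card < (A.filter (· < y)).card + w ∧
    (A.filter (· < y)).card < (A.filter (· < x)).card + w)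

theorem card_near (A : Finset ℕ) (x w : ℕ) : (near A x w).card ≤ 2 * w := by
  have := card_le_card_of_injOn (s := near A x w)
    (t := Ico ((A.filter (· < x)).card - w) ((A.filter (· < x)).card + w))
    (fun y => (A.filter (· < y)).card)
    (fun y hy => by
      have := (mem_filter.1 (mem_coe.1 hy)).2
      refine mem_coe.2 (mem_Ico.2 ?_)
      beta_reduce
      omega)
    (fun y hy y' hy' hyy => rank_lt_inj (mem_filter.1 (mem_coe.1 hy)).1
      (mem_filter.1 (mem_coe.1 hy')).1 hyy)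
  rw [Nat.card_Ico] at this
  omega

theorem rank_window {A : Finset ℕ} {x e u v : ℕ} (hu : u ∈ A) (hue : u < e) (hv : x ≤ v) :
    (A.filter (· < u)).card <
      (A.filter (· < v)).card + (A.filter (fun y => x ≤ y ∧ y < e)).card := by
  have a1 := (Biased.lt_iff_rank hu e).1 hue
  have a2 : A.filter (· < e) ⊆ A.filter (· < v) ∪ A.filter (fun y => x ≤ y ∧ y < e) := by
    intro y hy
    obtain ⟨hy1, hy2⟩ := mem_filter.1 hy
    by_cases hyv : y < v
    · exact mem_union_left _ (mem_filter.2 ⟨hy1, hyv⟩)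
    · exact mem_union_right _ (mem_filter.2 ⟨hy1, by omega, hy2⟩)
  have a3 := (card_le_card a2).trans (card_union_le _ _)
  omega

theorem exists_cluster {h : ℕ} {A T₀ T : Finset ℕ} (hA : ∀ x ∈ A, x < tw h + 2)
    (hR : R h T T₀) (hR' : R h T₀ T) (hT₀ : T₀ ⊆ A) (hT : T ⊆ A) {x : ℕ} (hx : x ∈ A \ T₀)
    (hmin : ∀ y ∈ A \ T₀, x ≤ y) (hne : (A \ T).Nonempty) :
    ∃ Y, Y ⊆ A \ T ∧ 1 ≤ Y.card ∧ Y ⊆ near A x ((h + 3) * Y.card) := by
  set x' := (A \ T).min' hne with hx'
  have hx'm : x' ∈ A \ T := min'_mem _ _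
  have hmin' : ∀ y ∈ A \ T, x' ≤ y := fun y hy => min'_le _ _ hy
  have hxA := (mem_sdiff.1 hx).1
  rcases lt_trichotomy x x' with h1 | h1 | h1
  · obtain ⟨e, he1, he2, he3⟩ := window hA hR hT₀ hT hx (fun y hy => h1.trans_le (hmin' y hy))
    refine ⟨(A \ T).filter (· < e), filter_subset _ _, ?_, fun y hy => ?_⟩
    · rw [← he2]
      exact card_pos.2 ⟨x, mem_filter.2 ⟨hx, he1⟩⟩
    · obtain ⟨hy1, hy2⟩ := mem_filter.1 hy
      have hyA := (mem_sdiff.1 hy1).1
      have a1 := rank_window (x := x) hxA he1 (h1.le.trans (hmin' y hy1))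
      have a2 := rank_window (x := x) hyA hy2 le_rfl
      exact mem_filter.2 ⟨hyA, by omega, by omega⟩
  · refine ⟨{x}, by rw [singleton_subset_iff, h1]; exact hx'm, by simp, ?_⟩
    rw [singleton_subset_iff, card_singleton]
    exact mem_filter.2 ⟨hxA, by omega, by omega⟩
  · obtain ⟨e, he1, he2, he3⟩ := window hA hR' hT hT₀ hx'm (fun y hy => h1.trans_le (hmin y hy))
    have hpos : 0 < ((A \ T).filter (· < e)).card := card_pos.2 ⟨x', mem_filter.2 ⟨hx'm, he1⟩⟩
    refine ⟨(A \ T).filter (· < e), filter_subset _ _, hpos, fun y hy => ?_⟩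
    obtain ⟨hy1, hy2⟩ := mem_filter.1 hy
    have hyA := (mem_sdiff.1 hy1).1
    obtain ⟨z, hz⟩ := card_pos.1 (he2 ▸ hpos)
    have hxe : x < e := (hmin z (mem_filter.1 hz).1).trans_lt (mem_filter.1 hz).2
    have a1 := rank_window (x := x') hxA hxe (hmin' y hy1)
    have a2 := rank_window (x := x') hyA hy2 h1.le
    rw [← he2] at he3
    exact mem_filter.2 ⟨hyA, by omega, by omega⟩

theorem choose_cluster_le (c r : ℕ) : ((2 * (c * r)).choose r : ℝ) ≤ (6 * c) ^ r := by
  have a1 : ((2 * (c * r)).choose r : ℝ) ≤ ((2 * (c * r) : ℕ) : ℝ) ^ r / r.factorial := by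
    have := Nat.choose_le_pow_div (α := ℝ) r (2 * (c * r))
    exact_mod_cast this
  have a2 := Real.pow_div_factorial_le_exp (r : ℝ) (Nat.cast_nonneg _) r
  have a3 : Real.exp r ≤ 3 ^ r := by
    rw [← Real.exp_one_pow]
    have := Real.exp_one_lt_d9
    gcongr
    linarith
  calc ((2 * (c * r)).choose r : ℝ) ≤ _ := a1
    _ = (2 * c) ^ r * ((r : ℝ) ^ r / r.factorial) := by
        push_cast
        rw [← mul_assoc, mul_pow]
        ring
    _ ≤ (2 * c) ^ r * 3 ^ r := by gcongr; exact a2.trans a3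
    _ = _ := by rw [← mul_pow]; congr 1; ring

/-- A type class of subsets of `A` that miss exactly `n` points has at most
`12 (h + 3)` to the power `n` members. -/
theorem class_card {h : ℕ} : ∀ (n : ℕ) (A : Finset ℕ) (𝒯 : Finset (Finset ℕ)),
    (∀ x ∈ A, x < tw h + 2) → (∀ T ∈ 𝒯, T ⊆ A ∧ (A \ T).card = n) →
    (∀ T ∈ 𝒯, ∀ T' ∈ 𝒯, R h T T') → (𝒯.card : ℝ) ≤ (12 * (h + 3 : ℕ)) ^ n := by
  intro n
  induction n using Nat.strong_induction_on with
  | _ n ih =>
  intro A 𝒯 hA h𝒯 hR
  rcases Nat.eq_zero_or_pos n with rfl | hn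
  · have : 𝒯.card ≤ 1 := by
      apply card_le_one.2
      have key : ∀ T ∈ 𝒯, T = A := fun T hT => Subset.antisymm (h𝒯 T hT).1
        (sdiff_eq_empty_iff_subset.1 (card_eq_zero.1 (h𝒯 T hT).2))
      intro T hT T' hT'
      rw [key T hT, key T' hT']
    rw [pow_zero]
    exact_mod_cast this
  rcases 𝒯.eq_empty_or_nonempty with rfl | ⟨T₀, hT₀⟩
  · simp only [card_empty, Nat.cast_zero]
    positivity
  have hne : ∀ T ∈ 𝒯, (A \ T).Nonempty := fun T hT => card_pos.1 (by rw [(h𝒯 T hT).2]; exact hn)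
  set x := (A \ T₀).min' (hne T₀ hT₀) with hx
  set c := h + 3 with hc
  have hcover : 𝒯 ⊆ (range n).biUnion (fun i =>
      ((near A x (c * (i + 1))).powersetCard (i + 1)).biUnion
        (fun Y => 𝒯.filter (fun T => Y ⊆ A \ T))) := by
    intro T hT
    obtain ⟨Y, hY1, hY2, hY3⟩ := exists_cluster hA (hR T hT T₀ hT₀) (hR T₀ hT₀ T hT)
      (h𝒯 T₀ hT₀).1 (h𝒯 T hT).1 (min'_mem _ (hne T₀ hT₀)) (fun y hy => min'_le _ _ hy) (hne T hT)
    have a1 := card_le_card hY1
    rw [(h𝒯 T hT).2] at a1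
    obtain ⟨i, hi⟩ : ∃ i, Y.card = i + 1 := ⟨Y.card - 1, by omega⟩
    refine mem_biUnion.2 ⟨i, mem_range.2 (by omega), mem_biUnion.2 ⟨Y, ?_, ?_⟩⟩
    · exact mem_powersetCard.2 ⟨hi ▸ hY3, hi⟩
    · exact mem_filter.2 ⟨hT, hY1⟩
  have hpart : ∀ i ∈ range n, ((((near A x (c * (i + 1))).powersetCard (i + 1)).biUnion
      (fun Y => 𝒯.filter (fun T => Y ⊆ A \ T))).card : ℝ) ≤
      (12 * (c : ℝ)) ^ n * (1 / 2) ^ (i + 1) := by
    intro i hi
    have hin := mem_range.1 hi
    have b1 : ∀ Y ∈ (near A x (c * (i + 1))).powersetCard (i + 1),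
        ((𝒯.filter (fun T => Y ⊆ A \ T)).card : ℝ) ≤ (12 * (c : ℝ)) ^ (n - (i + 1)) := by
      intro Y hY
      refine ih (n - (i + 1)) (by omega) (A \ Y) _ (fun y hy => hA y (mem_sdiff.1 hy).1) ?_
        (fun T hT T' hT' => hR T (mem_filter.1 hT).1 T' (mem_filter.1 hT').1)
      intro T hT
      obtain ⟨hT1, hT2⟩ := mem_filter.1 hT
      refine ⟨fun y hy => mem_sdiff.2 ⟨(h𝒯 T hT1).1 hy, fun hyY => (mem_sdiff.1 (hT2 hyY)).2 hy⟩,
        ?_⟩
      rw [sdiff_right_comm, card_sdiff_of_subset hT2, (h𝒯 T hT1).2, (mem_powersetCard.1 hY).2]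
    have b2 : (((near A x (c * (i + 1))).powersetCard (i + 1)).card : ℝ) ≤ (6 * c) ^ (i + 1) := by
      refine le_trans ?_ (choose_cluster_le c (i + 1))
      rw [card_powersetCard]
      exact_mod_cast Nat.choose_le_choose _ (card_near _ _ _)
    calc _ ≤ ∑ Y ∈ (near A x (c * (i + 1))).powersetCard (i + 1),
          ((𝒯.filter (fun T => Y ⊆ A \ T)).card : ℝ) := by exact_mod_cast card_biUnion_le
      _ ≤ _ := sum_le_card_nsmul _ _ _ b1
      _ ≤ (6 * c) ^ (i + 1) * (12 * (c : ℝ)) ^ (n - (i + 1)) := by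
          rw [nsmul_eq_mul]
          gcongr
      _ = _ := by
          have : n = (i + 1) + (n - (i + 1)) := by omega
          conv_rhs => rw [this, pow_add]
          have e1 : (6 * (c : ℝ)) = 12 * c * (1 / 2) := by ring
          rw [e1, mul_pow]
          ring
  have hgeom : ∑ i ∈ range n, ((1 : ℝ) / 2) ^ (i + 1) ≤ 1 := by
    have := sum_geometric_two_le n
    simp only [pow_succ, ← sum_mul]
    linarith
  calc (𝒯.card : ℝ) ≤ ∑ i ∈ range n, ((((near A x (c * (i + 1))).powersetCard (i + 1)).biUnion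
        (fun Y => 𝒯.filter (fun T => Y ⊆ A \ T))).card : ℝ) := by
        exact_mod_cast (card_le_card hcover).trans card_biUnion_le
    _ ≤ ∑ i ∈ range n, (12 * (c : ℝ)) ^ n * (1 / 2) ^ (i + 1) := sum_le_sum hpart
    _ ≤ (12 * (c : ℝ)) ^ n * 1 := by
        rw [← mul_sum]
        gcongr
    _ = _ := mul_one _

end Pool.Agent.Lib.MP_e96620_co.Few
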