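import Mathlib
import Pool.Agent.Lib.MP_e96620_co.CShift

/-!
A sharper count of the types: each level costs one rank map.
-/

set_option autoImplicit false

namespace Pool.Agent.Lib.MP_e96620_co.Few

open Finset

/-- The rank map of a family. -/
def rk {m : ℕ} (f : Fin m → ℕ) (i : Fin m) : Fin m :=
  ⟨(univ.filter (fun j => f j < f i)).card, by
    have : (univ.filter (fun j => f j < f i)).card < (univ : Finset (Fin m)).card :=
      card_lt_card (filter_ssubset.2 ⟨i, mem_univ _, lt_irrefl _⟩)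
    simpa using this⟩

theorem rk_lt_iff {m : ℕ} (f : Fin m → ℕ) (i j : Fin m) : rk f i < rk f j ↔ f i < f j := by
  constructor
  · intro h
    by_contra hcon
    have : (univ.filter (fun l => f l < f j)).card ≤ (univ.filter (fun l => f l < f i)).card :=
      card_le_card (fun l hl => mem_filter.2 ⟨mem_univ _, by have := (mem_filter.1 hl).2; omega⟩)
    exact absurd h (not_lt.2 this)
  · intro h
    show (univ.filter (fun l => f l < f i)).card < (univ.filter (fun l => f l < f j)).card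
    apply card_lt_card
    refine ⟨fun l hl => mem_filter.2 ⟨mem_univ _, (mem_filter.1 hl).2.trans h⟩, fun hsub => ?_⟩
    exact lt_irrefl _ (mem_filter.1 (hsub (mem_filter.2 ⟨mem_univ i, h⟩))).2

theorem exists_next {m : ℕ} (ρ : Fin m → Fin m) (i : Fin m) : ∃ j,
    (ρ i < ρ j ∧ ∀ l, ρ i < ρ l → ¬ ρ l < ρ j) ∨ (j = i ∧ ∀ l, ¬ ρ i < ρ l) := by
  by_cases h : ∃ l, ρ i < ρ l
  · obtain ⟨l, hl⟩ := h
    obtain ⟨j, hj, hmin⟩ := (univ.filter (fun l => ρ i < ρ l)).exists_min_image ρ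
      ⟨l, mem_filter.2 ⟨mem_univ _, hl⟩⟩
    exact ⟨j, Or.inl ⟨(mem_filter.1 hj).2, fun l hl =>
      not_lt.2 (hmin l (mem_filter.2 ⟨mem_univ _, hl⟩))⟩⟩
  · exact ⟨i, Or.inr ⟨rfl, fun l hl => h ⟨l, hl⟩⟩⟩

/-- The distances of consecutive values. -/
noncomputable def gap {m : ℕ} (f : Fin m → ℕ) (i : Fin m) : ℕ :=
  dl (f i) (f (exists_next (rk f) i).choose)

theorem next_spec {m : ℕ} (f : Fin m → ℕ) (i : Fin m) : ∃ j, gap f i = dl (f i) (f j) ∧
    ((f i < f j ∧ ∀ l, f i < f l → f j ≤ f l) ∨ (j = i ∧ ∀ l, f l ≤ f i)) := by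
  refine ⟨_, rfl, ?_⟩
  rcases (exists_next (rk f) i).choose_spec with ⟨h1, h2⟩ | ⟨h1, h2⟩
  · exact Or.inl ⟨(rk_lt_iff f _ _).1 h1, fun l hl =>
      not_lt.1 (fun hh => h2 l ((rk_lt_iff f _ _).2 hl) ((rk_lt_iff f _ _).2 hh))⟩
  · exact Or.inr ⟨h1, fun l => not_lt.1 (fun hh => h2 l ((rk_lt_iff f _ _).2 hh))⟩

theorem gap_le {m : ℕ} (f : Fin m → ℕ) {i j l : Fin m} (h1 : f i ≤ f l) (h2 : f l < f j) :
    gap f l ≤ dl (f i) (f j) := by
  obtain ⟨l', hl', ⟨a1, a2⟩ | ⟨_, a2⟩⟩ := next_spec f l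
  · rw [hl']
    exact (dl_between a1.le (a2 j h2)).1.trans (dl_between h1 h2.le).2
  · have := a2 j
    omega

theorem le_gap {m : ℕ} (f : Fin m → ℕ) (j : Fin m) (c : ℕ) : ∀ (d : ℕ) (i : Fin m),
    f i ≤ f j → f j - f i ≤ d → (∀ l, f i ≤ f l → f l < f j → gap f l ≤ c) →
    dl (f i) (f j) ≤ c := by
  intro d
  induction d with
  | zero =>
    intro i h1 h2 _
    rw [show f i = f j by omega, dl_self]
    exact Nat.zero_le _
  | succ d ih =>
    intro i h1 h2 hc
    rcases Nat.eq_or_lt_of_le h1 with h3 | h3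
    · rw [h3, dl_self]
      exact Nat.zero_le _
    obtain ⟨i', hi', ⟨a1, a2⟩ | ⟨_, a2⟩⟩ := next_spec f i
    · have b1 := hc i le_rfl h3
      have b2 := ih i' (a2 j h3) (by omega) (fun l hl1 hl2 => hc l (by omega) hl2)
      have b3 := dl_ultra (f i) (f i') (f j)
      omega
    · have := a2 j
      omega

theorem common_factor {m : ℕ} {f g : Fin m → ℕ} (hp : ∀ i j, f i < f j ↔ g i < g j)
    (hg : ∀ i j, gap f i < gap f j ↔ gap g i < gap g j) (i j : Fin m) :
    ∃ l, dl (f i) (f j) = gap f l ∧ dl (g i) (g j) = gap g l := by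
  have hle : ∀ a b, f a ≤ f b ↔ g a ≤ g b := fun a b => by have := hp b a; omega
  have lt : ∀ i j, f i < f j → ∃ l, dl (f i) (f j) = gap f l ∧ dl (g i) (g j) = gap g l := by
    intro i j hij
    obtain ⟨l, hl, hmax⟩ := (univ.filter (fun l => f i ≤ f l ∧ f l < f j)).exists_max_image
      (gap f) ⟨i, mem_filter.2 ⟨mem_univ _, le_rfl, hij⟩⟩
    obtain ⟨hl1, hl2⟩ := (mem_filter.1 hl).2
    refine ⟨l, le_antisymm ?_ (gap_le f hl1 hl2),
      le_antisymm ?_ (gap_le g ((hle _ _).1 hl1) ((hp _ _).1 hl2))⟩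
    · exact le_gap f j _ _ i hij.le le_rfl
        (fun a ha1 ha2 => hmax a (mem_filter.2 ⟨mem_univ _, ha1, ha2⟩))
    · refine le_gap g j _ _ i ((hp _ _).1 hij).le le_rfl (fun a ha1 ha2 => ?_)
      have a1 := hmax a (mem_filter.2 ⟨mem_univ _, (hle _ _).2 ha1, (hp _ _).2 ha2⟩)
      have a2 := hg l a
      omega
  rcases lt_trichotomy (f i) (f j) with h | h | h
  · exact lt i j h
  · obtain ⟨l, _, hmax⟩ := (univ : Finset (Fin m)).exists_max_image f ⟨i, mem_univ _⟩
    have top : ∀ u : Fin m → ℕ, (∀ a, u a ≤ u l) → gap u l = 0 := by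
      intro u hu
      obtain ⟨l', hl', ⟨a1, _⟩ | ⟨a1, _⟩⟩ := next_spec u l
      · have := hu l'
        omega
      · rw [hl', a1, dl_self]
    have hgij : g i = g j := le_antisymm ((hle _ _).1 h.le) ((hle _ _).1 h.ge)
    refine ⟨l, ?_, ?_⟩
    · rw [h, dl_self, top f (fun a => hmax a (mem_univ _))]
    · rw [hgij, dl_self, top g (fun a => (hle _ _).1 (hmax a (mem_univ _)))]
  · rw [dl_comm, dl_comm (g i)]
    exact lt j i h

/-- The code of a family: the rank maps of all levels. -/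
noncomputable def code {m : ℕ} : (h : ℕ) → (Fin m → ℕ) → Fin (h + 1) → Fin m → Fin m
  | 0, f => fun _ => rk f
  | h + 1, f => Fin.cons (rk f) (code h (gap f))

theorem code_E {m : ℕ} : ∀ (h : ℕ) (f g : Fin m → ℕ), code h f = code h g → E h (Fin m) f g := by
  intro h
  induction h with
  | zero =>
    intro f g hfg i j
    have : rk f = rk g := congrFun hfg 0
    rw [← rk_lt_iff, this, rk_lt_iff]
  | succ h ih =>
    intro f g hfg
    have h0 : rk f = rk g := congrFun hfg 0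
    have h1 : code h (gap f) = code h (gap g) := funext (fun i => congrFun hfg i.succ)
    have hp : ∀ i j, f i < f j ↔ g i < g j := fun i j => by rw [← rk_lt_iff, h0, rk_lt_iff]
    have hE := ih _ _ h1
    choose r hr1 hr2 using common_factor hp hE.pat
    refine ⟨hp, ?_⟩
    have := hE.comp (fun p : Fin m × Fin m => r p.1 p.2)
    simp only [← hr1, ← hr2] at this
    exact this

theorem card_quot (h m : ℕ) : Nat.card (Quotient (eSetoid h m)) ≤ m ^ (m * (h + 1)) := by
  have hinj : Function.Injective (fun q : Quotient (eSetoid h m) => code h q.out) := by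
    intro q q' hq
    rw [← q.out_eq, ← q'.out_eq]
    exact Quotient.sound (code_E h _ _ hq)
  have := Nat.card_le_card_of_injective _ hinj
  simpa [Nat.card_eq_fintype_card, ← pow_mul] using this

end Pool.Agent.Lib.MP_e96620_co.Few
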