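import Mathlib
import Pool.Agent.Lib.MP_e96620_co.CCount

/-!
The colouring for sets that are only slightly larger than `k`.
-/

set_option autoImplicit false

namespace Pool.Agent.Lib.MP_e96620_co.Biased

open Finset

open Classical in
theorem fibre_le {h k m : ℕ} {M : ℝ}
    (hbd : ∀ (A : Finset ℕ) (𝒯 : Finset (Finset ℕ)), Good h ∅ A 𝒯 → A.card = m →
      (∀ T ∈ 𝒯, T.card = k) → (𝒯.card : ℝ) ≤ M)
    {s : Fin m → ℕ} (hs : Function.Injective s) (hb : ∀ i, s i < tw h + 2)
    (τ : Quotient (eSetoid h k)) :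
    (((univ : Finset {I : Finset (Fin m) // I.card = k}).filter
      (fun I => cls h k m s I = τ)).card : ℝ) ≤ M := by
  set P := (univ : Finset {I : Finset (Fin m) // I.card = k}).filter
      (fun I => cls h k m s I = τ) with hP
  have hinj : Function.Injective
      (fun I : {I : Finset (Fin m) // I.card = k} => I.1.image s) := by
    intro I J hIJ
    exact Subtype.ext (image_injective hs hIJ)
  have hmem : ∀ (I : {I : Finset (Fin m) // I.card = k}) (x : ℕ),
      x ∈ I.1.image s ↔ ∃ i, s (I.1.orderEmbOfFin I.2 i) = x := by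
    intro I x
    constructor
    · intro hx
      obtain ⟨a, ha, rfl⟩ := mem_image.1 hx
      have : a ∈ Set.range (I.1.orderEmbOfFin I.2) := by
        rw [range_orderEmbOfFin]; exact ha
      obtain ⟨i, rfl⟩ := this
      exact ⟨i, rfl⟩
    · rintro ⟨i, rfl⟩
      exact mem_image_of_mem _ (orderEmbOfFin_mem _ _ _)
  have hgood : Good h ∅ (univ.image s) (P.image (fun I => I.1.image s)) := by
    refine ⟨?_, ?_, ?_⟩
    · intro T hT
      obtain ⟨I, _, rfl⟩ := mem_image.1 hT
      exact sdiff_eq_empty_iff_subset.2 (image_subset_image (subset_univ _))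
    · intro T hT T' hT'
      obtain ⟨I, hI, rfl⟩ := mem_image.1 hT
      obtain ⟨J, hJ, rfl⟩ := mem_image.1 hT'
      refine ⟨Fin k, _, _, hmem I, hmem J, ?_⟩
      have : cls h k m s I = cls h k m s J := by
        rw [(mem_filter.1 hI).2, (mem_filter.1 hJ).2]
      exact Quotient.exact this
    · intro x hx
      obtain ⟨i, _, rfl⟩ := mem_image.1 hx
      exact hb i
  have := hbd _ _ hgood (by rw [card_image_of_injective _ hs]; simp) (by
    intro T hT
    obtain ⟨I, _, rfl⟩ := mem_image.1 hT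
    rw [card_image_of_injective _ hs]
    exact I.2)
  rw [card_image_of_injective _ hinj] at this
  exact this

theorem exists_colouring {h k m N : ℕ} {M D : ℝ} (hk : 1 ≤ k) (hkm : k ≤ m)
    (hN : N ≤ tw h + 2) (hM : 0 < M) (hD : 0 ≤ D)
    (hbd : ∀ (A : Finset ℕ) (𝒯 : Finset (Finset ℕ)), Good h ∅ A 𝒯 → A.card = m →
      (∀ T ∈ 𝒯, T.card = k) → (𝒯.card : ℝ) ≤ M)
    (hsmall : 2 * ((m ^ (m * (h + 1)) : ℕ) : ℝ) *
      Real.exp (-(D ^ 2 / (2 * (M * (m.choose k : ℕ))))) < 1) :
    ∃ γ : Finset (Fin N) → Bool, ∀ S : Finset (Fin N), S.card = m →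
      |∑ T ∈ S.powersetCard k, (if γ T then (1 : ℝ) else -1)| ≤ D := by
  classical
  obtain ⟨hfinQ, _⟩ := finite_quot h k hk
  obtain ⟨hfinJ, _⟩ := finite_quot h m (by omega)
  have hcardJ := Few.card_quot h m
  let _ : Fintype (Quotient (eSetoid h k)) := Fintype.ofFinite _
  let _ : Fintype (Quotient (eSetoid h m)) := Fintype.ofFinite _
  let W : Finset (Quotient (eSetoid h m)) := univ.filter (fun q =>
    ∃ s : Fin m → ℕ, Function.Injective s ∧ (∀ i, s i < tw h + 2) ∧
      Quotient.mk (eSetoid h m) s = q)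
  let w : Quotient (eSetoid h m) → Quotient (eSetoid h k) → ℝ := fun q τ =>
    (((univ : Finset {I : Finset (Fin m) // I.card = k}).filter
      (fun I => cls h k m q.out I = τ)).card : ℝ)
  have hout : ∀ s : Fin m → ℕ, ∀ I,
      cls h k m (Quotient.mk (eSetoid h m) s).out I = cls h k m s I := by
    intro s I
    exact cls_congr (Quotient.mk_out (s := eSetoid h m) s) I
  have hchoose : (0 : ℝ) < (m.choose k : ℕ) := by
    exact_mod_cast Nat.choose_pos (by omega)
  have hsumw : ∀ q, ∑ τ, w q τ = (m.choose k : ℕ) := by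
    intro q
    have h1 := card_eq_sum_card_fiberwise
      (s := (univ : Finset {I : Finset (Fin m) // I.card = k})) (t := univ)
      (f := fun I => cls h k m q.out I) (fun _ _ => mem_coe.2 (mem_univ _))
    rw [card_univ, Fintype.card_finset_len, Fintype.card_fin] at h1
    rw [h1]
    push_cast
    rfl
  obtain ⟨χ, hχ⟩ := exists_signs W w (M * (m.choose k : ℕ)) D
    (by positivity) hD
    (by
      intro q hq
      obtain ⟨s, hs1, hs2, rfl⟩ := (mem_filter.1 hq).2
      rw [← hsumw (Quotient.mk (eSetoid h m) s), mul_sum]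
      apply sum_le_sum
      intro τ _
      rw [sq]
      refine mul_le_mul_of_nonneg_right ?_ (Nat.cast_nonneg _)
      simp only [w, hout]
      exact fibre_le hbd hs1 hs2 τ)
    (by
      refine lt_of_le_of_lt ?_ hsmall
      have : W.card ≤ m ^ (m * (h + 1)) := by
        calc W.card ≤ Fintype.card (Quotient (eSetoid h m)) := card_le_univ _
          _ = Nat.card (Quotient (eSetoid h m)) := Nat.card_eq_fintype_card.symm
          _ ≤ _ := hcardJ
      have h2 : (W.card : ℝ) ≤ ((m ^ (m * (h + 1)) : ℕ) : ℝ) := by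
        exact_mod_cast this
      gcongr)
  refine ⟨fun T => if hT : T.card = k then
    χ (Quotient.mk (eSetoid h k) (fun i => (T.orderEmbOfFin hT i : ℕ))) else true, ?_⟩
  intro S hS
  let e := S.orderEmbOfFin hS
  let s : Fin m → ℕ := fun i => (e i : ℕ)
  have hs1 : Function.Injective s := fun i j hij => e.injective (Fin.ext hij)
  have hs2 : ∀ i, s i < tw h + 2 := fun i => lt_of_lt_of_le (e i).isLt hN
  have hq := hχ (Quotient.mk (eSetoid h m) s) (mem_filter.2 ⟨mem_univ _, s, hs1, hs2, rfl⟩)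
  refine le_trans (le_of_eq ?_) hq
  congr 1
  have h1 : ∑ τ, w (Quotient.mk (eSetoid h m) s) τ * (if χ τ then (1 : ℝ) else -1) =
      ∑ I : {I : Finset (Fin m) // I.card = k},
        (if χ (cls h k m s I) then (1 : ℝ) else -1) := by
    rw [← sum_fiberwise (s := univ) (g := fun I => cls h k m s I)]
    apply sum_congr rfl
    intro τ _
    simp only [w, hout]
    rw [sum_congr rfl (g := fun _ => if χ τ then (1 : ℝ) else -1), sum_const, nsmul_eq_mul]
    intro I hI
    rw [(mem_filter.1 hI).2]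
  rw [h1]
  symm
  apply sum_bij (fun I _ => I.1.map e.toEmbedding)
  · intro I _
    refine mem_powersetCard.2 ⟨?_, by rw [card_map]; exact I.2⟩
    intro x hx
    obtain ⟨a, _, rfl⟩ := mem_map.1 hx
    exact orderEmbOfFin_mem _ _ _
  · intro I _ J _ hIJ
    exact Subtype.ext (map_injective _ hIJ)
  · intro T hT
    obtain ⟨hTS, hTk⟩ := mem_powersetCard.1 hT
    have hmap : (univ.filter (fun i => e i ∈ T)).map e.toEmbedding = T := by
      ext x
      simp only [mem_map, mem_filter, mem_univ, true_and]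
      constructor
      · rintro ⟨a, ha, rfl⟩
        exact ha
      · intro hx
        have : x ∈ Set.range e := by
          rw [range_orderEmbOfFin]; exact hTS hx
        obtain ⟨i, rfl⟩ := this
        exact ⟨i, hx, rfl⟩
    refine ⟨⟨univ.filter (fun i => e i ∈ T), ?_⟩, mem_univ _, hmap⟩
    rw [← card_map e.toEmbedding, hmap, hTk]
  · intro I _
    have hcard : (I.1.map e.toEmbedding).card = k := by rw [card_map]; exact I.2
    have hen : (fun i => e (I.1.orderEmbOfFin I.2 i)) =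
        (I.1.map e.toEmbedding).orderEmbOfFin hcard :=
      orderEmbOfFin_unique hcard
        (fun i => mem_map.2 ⟨_, orderEmbOfFin_mem _ _ _, rfl⟩)
        (e.strictMono.comp (I.1.orderEmbOfFin I.2).strictMono)
    simp only [dif_pos hcard]
    rw [← hen]
    rfl

/-- The term `j = k` is the largest term of the binomial expansion with ratio `k / n`. -/
theorem mode_le {k n : ℕ} (hn : 1 ≤ n) (j : ℕ) :
    ((k + n).choose j : ℝ) * ((k : ℝ) / n) ^ j ≤ ((k + n).choose k : ℝ) * ((k : ℝ) / n) ^ k := by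
  have hnR : (0 : ℝ) < n := by exact_mod_cast hn
  set q : ℝ := (k : ℝ) / n with hq
  have hq0 : 0 ≤ q := by positivity
  have hqn : q * n = k := by rw [hq]; field_simp
  have hstep : ∀ i : ℕ, (((k + n).choose (i + 1) : ℝ) * q ^ (i + 1)) * ((i + 1) * n) =
      (((k + n).choose i : ℝ) * q ^ i) * (((k + n - i : ℕ) : ℝ) * k) := by
    intro i
    have h1 : (((k + n).choose (i + 1) : ℝ)) * (i + 1) =
        ((k + n).choose i : ℝ) * ((k + n - i : ℕ) : ℝ) := by
      exact_mod_cast Nat.choose_succ_right_eq (k + n) i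
    rw [← hqn, pow_succ]
    linear_combination q ^ i * q * n * h1
  rcases le_total j k with hjk | hjk
  · induction hjk using Nat.decreasingInduction with
    | self => exact le_rfl
    | of_succ i hi ih =>
      refine le_trans ?_ ih
      have hpos : (0 : ℝ) < (i + 1) * n := by positivity
      apply le_of_mul_le_mul_right _ hpos
      rw [hstep i]
      refine mul_le_mul_of_nonneg_left ?_ (by positivity)
      have a1 : (i : ℝ) + 1 ≤ k := by exact_mod_cast hi
      have a2 : (n : ℝ) ≤ ((k + n - i : ℕ) : ℝ) := by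
        have : n ≤ k + n - i := by omega
        exact_mod_cast this
      rw [mul_comm]
      gcongr
  · induction j, hjk using Nat.le_induction with
    | base => exact le_rfl
    | succ i hi ih =>
      refine le_trans ?_ ih
      have hpos : (0 : ℝ) < (i + 1) * n := by positivity
      apply le_of_mul_le_mul_right _ hpos
      rw [hstep i]
      refine mul_le_mul_of_nonneg_left ?_ (by positivity)
      have a1 : (k : ℝ) ≤ i + 1 := by
        have : k ≤ i + 1 := by omega
        exact_mod_cast this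
      have a2 : ((k + n - i : ℕ) : ℝ) ≤ n := by
        have : k + n - i ≤ n := by omega
        exact_mod_cast this
      rw [mul_comm]
      gcongr

theorem pow_le_mode {k n : ℕ} (hn : 1 ≤ n) :
    (1 + (k : ℝ) / n) ^ (k + n) ≤
      ((k + n + 1 : ℕ) : ℝ) * (((k + n).choose k : ℝ) * ((k : ℝ) / n) ^ k) := by
  rw [add_comm 1, add_pow]
  refine (sum_le_card_nsmul _ _ (((k + n).choose k : ℝ) * ((k : ℝ) / n) ^ k) ?_).trans ?_
  · intro j _
    rw [one_pow, mul_one, mul_comm]
    exact mode_le hn j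
  · rw [card_range, nsmul_eq_mul]

/-- A class of `k`-subsets of a set of size `k + n` with small biased weight is a small fraction. -/
theorem card_le_of_wt {k n : ℕ} (hk : 1 ≤ k) (hn : 1 ≤ n) {β : ℝ} (hβ : 0 ≤ β) {A : Finset ℕ}
    {𝒯 : Finset (Finset ℕ)} (hb : Base ∅ A 𝒯) (hT : ∀ T ∈ 𝒯, T.card = k)
    (hw : wt ((k : ℝ) / n) A 𝒯 ≤ (1 + (k : ℝ) / n) ^ (k + n) * β) :
    (𝒯.card : ℝ) ≤ ((k + n + 1 : ℕ) : ℝ) * β * ((k + n).choose k : ℕ) := by
  have hkR : (0 : ℝ) < k := by exact_mod_cast hk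
  have hnR : (0 : ℝ) < n := by exact_mod_cast hn
  have h1 : wt ((k : ℝ) / n) A 𝒯 = 𝒯.card * ((k : ℝ) / n) ^ k := by
    unfold wt
    rw [sum_congr rfl (g := fun _ => ((k : ℝ) / n) ^ k), sum_const, nsmul_eq_mul]
    intro T hT'
    rw [inter_eq_left.2 (sdiff_eq_empty_iff_subset.1 (hb T hT')), hT T hT']
  have hpos : (0 : ℝ) < ((k : ℝ) / n) ^ k := by positivity
  apply le_of_mul_le_mul_right _ hpos
  rw [← h1]
  refine hw.trans ?_
  calc _ ≤ ((k + n + 1 : ℕ) : ℝ) * (((k + n).choose k : ℝ) * ((k : ℝ) / n) ^ k) * β :=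
        mul_le_mul_of_nonneg_right (pow_le_mode hn) hβ
    _ = _ := by ring

/-- Low discrepancy on all `m`-sets gives low discrepancy on all larger sets. -/
theorem disc_up {α : Type} [DecidableEq α] {k m : ℕ} (hkm : k ≤ m) {δ : ℝ} (γ : Finset α → ℝ)
    (h : ∀ S : Finset α, S.card = m → |∑ T ∈ S.powersetCard k, γ T| ≤ δ * (m.choose k : ℕ)) :
    ∀ m', m ≤ m' → ∀ S : Finset α, S.card = m' →
      |∑ T ∈ S.powersetCard k, γ T| ≤ δ * (m'.choose k : ℕ) := by
  intro m' hm'
  induction m', hm' using Nat.le_induction with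
  | base => exact h
  | succ a ha ih =>
    intro S hS
    have h1 : ∑ x ∈ S, ∑ T ∈ (S.erase x).powersetCard k, γ T =
        ((a + 1 - k : ℕ) : ℝ) * ∑ T ∈ S.powersetCard k, γ T := by
      calc ∑ x ∈ S, ∑ T ∈ (S.erase x).powersetCard k, γ T
          = ∑ x ∈ S, ∑ T ∈ S.powersetCard k, if x ∉ T then γ T else 0 := by
            apply sum_congr rfl
            intro x _
            rw [← sum_filter]
            apply sum_congr _ (fun _ _ => rfl)
            ext T
            simp only [mem_powersetCard, mem_filter, subset_erase]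
            tauto
        _ = _ := by
            rw [sum_comm, mul_sum]
            apply sum_congr rfl
            intro T hT
            obtain ⟨hT1, hT2⟩ := mem_powersetCard.1 hT
            rw [← sum_filter, sum_const, nsmul_eq_mul, ← sdiff_eq_filter,
              card_sdiff_of_subset hT1, hS, hT2]
    have hpos : (0 : ℝ) < ((a + 1 - k : ℕ) : ℝ) := by
      have : 0 < a + 1 - k := by omega
      exact_mod_cast this
    apply le_of_mul_le_mul_left _ hpos
    have h2 : (a.choose k : ℝ) * (a + 1) = ((a + 1).choose k : ℝ) * ((a + 1 - k : ℕ) : ℝ) := by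
      exact_mod_cast Nat.choose_mul_succ_eq a k
    calc ((a + 1 - k : ℕ) : ℝ) * |∑ T ∈ S.powersetCard k, γ T|
        = |∑ x ∈ S, ∑ T ∈ (S.erase x).powersetCard k, γ T| := by
          rw [h1, abs_mul, abs_of_pos hpos]
      _ ≤ ∑ x ∈ S, |∑ T ∈ (S.erase x).powersetCard k, γ T| := abs_sum_le_sum_abs _ _
      _ ≤ S.card • (δ * (a.choose k : ℕ)) := by
          apply sum_le_card_nsmul
          intro x hx
          exact ih _ (by have := card_erase_add_one hx; omega)
      _ = _ := by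
          rw [nsmul_eq_mul, hS]
          push_cast
          linear_combination δ * h2

/-- The density of a type class among the `k`-subsets of a set of size `k + n`. -/
theorem class_bound : ∃ K : ℕ, 1 ≤ K ∧ ∀ k n t h : ℕ, 1 ≤ t → K * t ≤ n → n ≤ k → K * t * h ≤ k →
    ∀ (A : Finset ℕ) (𝒯 : Finset (Finset ℕ)), Good h ∅ A 𝒯 → A.card = k + n →
      (∀ T ∈ 𝒯, T.card = k) →
      (𝒯.card : ℝ) ≤ 3 * k * ((K : ℝ) * t / n) ^ (2 * t) * ((k + n).choose k : ℕ) := by
  obtain ⟨C, hC, c, hc, hbd⟩ := bd_iterate 6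
  obtain ⟨K, hK1, hK2⟩ : ∃ K : ℕ, 4 * C ≤ K ∧ 6 * c * (4 * C) ^ 3 ≤ (K : ℝ) ^ 2 := by
    refine ⟨4 * C + ⌈6 * c * (4 * C) ^ 3⌉₊, by omega, (Nat.le_ceil _).trans ?_⟩
    have : ⌈6 * c * (4 * C) ^ 3⌉₊ ≤ (4 * C + ⌈6 * c * (4 * C) ^ 3⌉₊) ^ 2 := by nlinarith
    exact_mod_cast this
  refine ⟨K, by omega, fun k n t h ht hn hnk hh A 𝒯 hg hA hT => ?_⟩
  have hCt : 4 * (C * t) ≤ n := by nlinarith
  have hCt0 : 2 ≤ C * t := by nlinarith
  have hn1 : 1 ≤ n := by omega
  have hk1 : 1 ≤ k := by omega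
  have hCR : (2 : ℝ) ≤ C := by exact_mod_cast hC
  have htR : (1 : ℝ) ≤ t := by exact_mod_cast ht
  have hnR : (4 : ℝ) * (C * t) ≤ n := by exact_mod_cast hCt
  have hnkR : (n : ℝ) ≤ k := by exact_mod_cast hnk
  have hn0 : (0 : ℝ) < n := by exact_mod_cast hn1
  have htn : (t : ℝ) ≤ n := by nlinarith
  set τ := k / (C * t) with hτ
  have hτ1 : C * t * τ ≤ k := Nat.mul_div_le k _
  have hτ2 : k < C * t * (τ + 1) := Nat.lt_mul_div_succ k (by omega)
  have hhτ : h + 1 ≤ τ := by
    rw [hτ, Nat.le_div_iff_mul_le (by omega)]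
    have : 4 * C * t * h ≤ K * t * h := by gcongr
    nlinarith
  have hkτ : (k : ℝ) ≤ 2 * (C * t) * τ := by
    have : k ≤ 2 * (C * t) * τ := by nlinarith
    exact_mod_cast this
  have hq : (1 : ℝ) ≤ (k : ℝ) / n := by rw [le_div_iff₀ hn0]; linarith
  set u := Real.sqrt (n / (4 * (C * t))) with hu
  have hu2 : u ^ 2 = n / (4 * (C * t)) := Real.sq_sqrt (by positivity)
  have hu1 : 1 ≤ u := Real.one_le_sqrt.2 (by rw [le_div_iff₀ (by positivity)]; linarith)
  have hut : u ^ 2 ≤ τ / (1 + (k : ℝ) / n) := by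
    rw [hu2, div_le_div_iff₀ (by positivity) (by positivity)]
    have : (n : ℝ) * (1 + (k : ℝ) / n) = n + k := by field_simp
    rw [this]
    linarith
  have hb := hbd _ hq τ h hhτ u hu1 hut
  have hupow : u ^ 6 = (n / (4 * (C * t))) ^ 3 := by rw [← hu2]; ring
  rw [hupow] at hb
  set z : ℝ := n / (n + t) with hz
  have hz0 : 0 < z := by positivity
  have hz1 : z < 1 := by rw [hz, div_lt_one (by positivity)]; linarith
  have hp := prod_bound hq (by positivity) hz0 hz1 hb t n ∅ A 𝒯 hg (by nlinarith) (by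
    intro T hT'
    rw [card_sdiff_of_subset (sdiff_eq_empty_iff_subset.1 (hg.1 T hT')), hA, hT T hT']
    omega)
  rw [hA] at hp
  have h1z : 0 < 1 - z := by linarith
  refine (card_le_of_wt hk1 hn1 (by positivity) hg.1 hT hp).trans ?_
  have b1 : ((k + n + 1 : ℕ) : ℝ) ≤ 3 * k := by
    have : k + n + 1 ≤ 3 * k := by omega
    exact_mod_cast this
  have b2 : (z ^ n)⁻¹ ≤ 3 ^ t := by
    have a1 : z⁻¹ = (t : ℝ) / n + 1 := by rw [hz]; field_simp; ring
    rw [← inv_pow, a1]
    calc ((t : ℝ) / n + 1) ^ n ≤ Real.exp ((t : ℝ) / n) ^ n := by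
          gcongr
          exact Real.add_one_le_exp _
      _ = Real.exp 1 ^ t := by
          rw [← Real.exp_nat_mul, ← Real.exp_nat_mul]
          congr 1
          field_simp
      _ ≤ 3 ^ t := by
          have := Real.exp_one_lt_d9
          gcongr
          linarith
  have b3 : c / (n / (4 * (C * t))) ^ 3 / (1 - z) * 3 ≤ ((K : ℝ) * t / n) ^ 2 := by
    have a1 : 1 - z = (t : ℝ) / (n + t) := by rw [hz]; field_simp; ring
    calc c / (n / (4 * (C * t))) ^ 3 / (1 - z) * 3
        = 3 * c * (4 * C) ^ 3 * (t ^ 2 / n ^ 3) * (n + t) := by rw [a1]; field_simp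
      _ ≤ 3 * c * (4 * C) ^ 3 * (t ^ 2 / n ^ 3) * (n + n) := by gcongr
      _ = 6 * c * (4 * C) ^ 3 * (t / n) ^ 2 := by field_simp; ring
      _ ≤ (K : ℝ) ^ 2 * (t / n) ^ 2 := by gcongr
      _ = _ := by ring
  have b4 : (c / (n / (4 * (C * t))) ^ 3 / (1 - z)) ^ t / z ^ n ≤ ((K : ℝ) * t / n) ^ (2 * t) := by
    calc (c / (n / (4 * (C * t))) ^ 3 / (1 - z)) ^ t / z ^ n
        ≤ (c / (n / (4 * (C * t))) ^ 3 / (1 - z)) ^ t * 3 ^ t := by
          rw [div_eq_mul_inv _ (z ^ n)]
          gcongr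
      _ ≤ (((K : ℝ) * t / n) ^ 2) ^ t := by
          rw [← mul_pow]
          gcongr
      _ = _ := by rw [← pow_mul]
  gcongr

/-- A class density bound `β` gives a colouring with squared discrepancy
`8 k (h + 1) log (2 k) β`. -/
theorem colouring_of_density {k n h N : ℕ} (hk1 : 1 ≤ k) (hnk : n ≤ k)
    (hN : N ≤ tw h) {β δ : ℝ} (hβ : 0 < β) (hδ : 0 < δ)
    (hβδ : 8 * (k : ℝ) * (h + 1) * Real.log (2 * k) * β ≤ δ ^ 2)
    (hbd : ∀ (A : Finset ℕ) (𝒯 : Finset (Finset ℕ)), Good h ∅ A 𝒯 → A.card = k + n →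
      (∀ T ∈ 𝒯, T.card = k) → (𝒯.card : ℝ) ≤ β * ((k + n).choose k : ℕ)) :
    ∃ γ : Finset (Fin N) → Bool, ∀ S : Finset (Fin N), S.card = k + n →
      |∑ T ∈ S.powersetCard k, (if γ T then (1 : ℝ) else -1)| ≤ δ * ((k + n).choose k : ℕ) := by
  have hk1R : (1 : ℝ) ≤ k := by exact_mod_cast hk1
  have hnkR : (n : ℝ) ≤ k := by exact_mod_cast hnk
  have hchoose : (0 : ℝ) < ((k + n).choose k : ℕ) := by
    exact_mod_cast Nat.choose_pos (by omega)
  refine exists_colouring (h := h) (m := k + n) (M := β * ((k + n).choose k : ℕ)) hk1 (by omega)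
    (le_trans hN (Nat.le_add_right _ _)) (by positivity) (by positivity) hbd ?_
  set L := Real.log (2 * k) with hL
  have hexp : Real.exp L = 2 * k := Real.exp_log (by positivity)
  have hL0 : 0 < L := Real.log_pos (by linarith)
  set X : ℝ := 2 * k * (h + 1) * L with hX
  have h1 : (((k + n) ^ ((k + n) * (h + 1)) : ℕ) : ℝ) ≤ Real.exp X := by
    have a1 : ((k + n : ℕ) : ℝ) ≤ Real.exp L := by
      rw [hexp]
      push_cast
      linarith
    have a2 : (((k + n) * (h + 1) : ℕ) : ℝ) ≤ 2 * k * (h + 1) := by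
      push_cast
      gcongr
      linarith
    rw [Nat.cast_pow]
    calc ((k + n : ℕ) : ℝ) ^ ((k + n) * (h + 1)) ≤ Real.exp L ^ ((k + n) * (h + 1)) := by gcongr
      _ = Real.exp ((((k + n) * (h + 1) : ℕ) : ℝ) * L) := by rw [Real.exp_nat_mul]
      _ ≤ Real.exp X := by rw [hX]; gcongr
  have h2 : 2 * X ≤ (δ * ((k + n).choose k : ℕ)) ^ 2 /
      (2 * (β * ((k + n).choose k : ℕ) * ((k + n).choose k : ℕ))) := by
    rw [le_div_iff₀ (by positivity)]
    calc 2 * X * (2 * (β * ((k + n).choose k : ℕ) * ((k + n).choose k : ℕ)))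
        = 8 * (k : ℝ) * (h + 1) * L * β * (((k + n).choose k : ℕ) : ℝ) ^ 2 := by rw [hX]; ring
      _ ≤ δ ^ 2 * (((k + n).choose k : ℕ) : ℝ) ^ 2 := by gcongr
      _ = _ := by ring
  have h3 : (2 : ℝ) < Real.exp X := by
    have a0 : (1 : ℝ) ≤ k * (h + 1) :=
      one_le_mul_of_one_le_of_one_le hk1R (by have : (0 : ℝ) ≤ h := Nat.cast_nonneg _; linarith)
    have a1 : L < X := by rw [hX]; nlinarith
    have a2 := Real.exp_lt_exp.2 a1
    linarith
  calc 2 * (((k + n) ^ ((k + n) * (h + 1)) : ℕ) : ℝ) *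
        Real.exp (-((δ * ((k + n).choose k : ℕ)) ^ 2 /
          (2 * (β * ((k + n).choose k : ℕ) * ((k + n).choose k : ℕ)))))
      ≤ 2 * Real.exp X * Real.exp (-(2 * X)) := by
        gcongr
    _ < Real.exp X * Real.exp X * Real.exp (-(2 * X)) := by gcongr
    _ = 1 := by
        rw [← Real.exp_add, ← Real.exp_add, ← Real.exp_zero]
        congr 1
        ring

/-- The trade-off between tower height and discrepancy, for sets of size exactly `k + n`. -/
theorem core : ∃ K : ℕ, 1 ≤ K ∧ ∀ k n t h N : ℕ, 1 ≤ t → 1 ≤ n → n ≤ k → K * t * h ≤ k →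
    N ≤ tw h → ∃ γ : Finset (Fin N) → Bool, ∀ S : Finset (Fin N), S.card = k + n →
      |∑ T ∈ S.powersetCard k, (if γ T then (1 : ℝ) else -1)| ≤
        (k : ℝ) ^ 2 * ((K : ℝ) * t / n) ^ t * ((k + n).choose k : ℕ) := by
  obtain ⟨K, hK, hcl⟩ := class_bound
  refine ⟨11 * K, by omega, fun k n t h N ht hn hnk hh hN => ?_⟩
  have hk1 : 1 ≤ k := by omega
  have hk1R : (1 : ℝ) ≤ k := by exact_mod_cast hk1
  have hn0 : (0 : ℝ) < n := by exact_mod_cast hn
  have hK0 : (0 : ℝ) < K := by exact_mod_cast hK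
  have ht0 : (0 : ℝ) < t := by exact_mod_cast ht
  by_cases hKt : 11 * K * t ≤ n
  · have hKt1 : 1 ≤ K * t := Nat.mul_pos hK ht
    refine colouring_of_density (h := h) hk1 hnk hN
      (β := 3 * k * ((K : ℝ) * t / n) ^ (2 * t)) (by positivity) (by positivity) ?_
      (hcl k n t h ht (by nlinarith) hnk (by nlinarith))
    have a1 : (48 : ℝ) ≤ 11 ^ (2 * t) := by
      calc (48 : ℝ) ≤ 11 ^ 2 := by norm_num
        _ ≤ 11 ^ (2 * t) := pow_le_pow_right₀ (by norm_num) (by omega)
    have a2 : (h : ℝ) + 1 ≤ k := by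
      have : h + 1 ≤ k := by nlinarith
      exact_mod_cast this
    have a3 : Real.log (2 * k) ≤ 2 * k :=
      (Real.log_le_sub_one_of_pos (by positivity)).trans (by linarith)
    have a4 : 0 ≤ Real.log (2 * k) := Real.log_nonneg (by linarith)
    calc 8 * (k : ℝ) * (h + 1) * Real.log (2 * k) * (3 * k * ((K : ℝ) * t / n) ^ (2 * t))
        ≤ 8 * (k : ℝ) * k * (2 * k) * (3 * k * ((K : ℝ) * t / n) ^ (2 * t)) := by gcongr
      _ = 48 * (k : ℝ) ^ 4 * ((K : ℝ) * t / n) ^ (2 * t) := by ring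
      _ ≤ 11 ^ (2 * t) * (k : ℝ) ^ 4 * ((K : ℝ) * t / n) ^ (2 * t) := by gcongr
      _ = _ := by
          have : (((11 * K : ℕ) : ℝ) * t / n) = 11 * ((K : ℝ) * t / n) := by push_cast; ring
          rw [this, mul_pow, mul_pow 11, mul_pow, ← pow_mul, ← pow_mul, ← pow_mul, mul_comm t 2]
          ring
  · refine ⟨fun _ => true, fun S hS => ?_⟩
    have a1 : (1 : ℝ) ≤ ((11 * K : ℕ) : ℝ) * t / n := by
      rw [le_div_iff₀ hn0, one_mul]
      have : n ≤ 11 * K * t := by omega
      exact_mod_cast this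
    simp only [if_true, sum_const, card_powersetCard, hS, nsmul_eq_mul, mul_one, Nat.abs_cast]
    exact le_mul_of_one_le_left (Nat.cast_nonneg _)
      (one_le_mul_of_one_le_of_one_le (one_le_pow₀ hk1R) (one_le_pow₀ a1))

end Pool.Agent.Lib.MP_e96620_co.Biased
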