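import Mathlib
import Pool.Agent.Lib.MP_e96620_co.CCount

/-!
A type has few extensions by a given number of points.
-/

set_option autoImplicit false

namespace Pool.Agent.Lib.MP_e96620_co.Few

open Finset

theorem nested {m : ℕ} (p q : Fin m → Prop) [DecidablePred p] [DecidablePred q]
    (h : ∀ x y, p x → ¬ q x → q y → p y) (hc : (univ.filter p).card = (univ.filter q).card) :
    ∀ j, p j ↔ q j := by
  by_cases hx : ∃ x, p x ∧ ¬ q x
  · obtain ⟨x, hx1, hx2⟩ := hx
    have : (univ.filter q).card < (univ.filter p).card := by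
      apply card_lt_card
      refine ⟨fun y hy => mem_filter.2 ⟨mem_univ _, h x y hx1 hx2 (mem_filter.1 hy).2⟩,
        fun hsub => hx2 (mem_filter.1 (hsub (mem_filter.2 ⟨mem_univ x, hx1⟩))).2⟩
    omega
  · have hsub : univ.filter p ⊆ univ.filter q := fun y hy => mem_filter.2 ⟨mem_univ _, by
      by_contra hq
      exact hx ⟨y, (mem_filter.1 hy).2, hq⟩⟩
    have heq := eq_of_subset_of_card_le hsub hc.ge
    intro j
    have : j ∈ univ.filter p ↔ j ∈ univ.filter q := by rw [heq]
    simpa using this

theorem pat_ext {m : ℕ} {f g : Fin m → ℕ} {z w : ℕ} (hp : ∀ i j, f i < f j ↔ g i < g j)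
    (h1 : (univ.filter (fun j => f j < z)).card = (univ.filter (fun j => g j < w)).card)
    (h2 : (univ.filter (fun j => z < f j)).card = (univ.filter (fun j => w < g j)).card) :
    ∀ a b : Option (Fin m), a.elim z f < b.elim z f ↔ a.elim w g < b.elim w g := by
  have a1 := nested _ _ (fun x y hx hx' hy => by have := (hp y x).2 (by omega); omega) h1
  have a2 := nested _ _ (fun x y hx hx' hy => by have := (hp x y).2 (by omega); omega) h2
  rintro (_ | a) (_ | b)
  · simp
  · exact a2 b
  · exact a1 a
  · exact hp a b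

theorem dl_nearest {m : ℕ} {f : Fin m → ℕ} {z : ℕ} {y₀ : Fin m}
    (h : ∀ y, dl z (f y₀) ≤ dl z (f y)) (y : Fin m) :
    dl z (f y) = max (dl z (f y₀)) (dl (f y₀) (f y)) := by
  have a1 := dl_ultra z (f y₀) (f y)
  have a2 := dl_ultra (f y₀) z (f y)
  have a3 := h y
  rw [dl_comm (f y₀) z] at a2
  omega

theorem ext_code {m : ℕ} (hm : 1 ≤ m) : ∀ h : ℕ,
    ∃ c : (Fin m → ℕ) → ℕ → Fin (h + 1) → Fin (m + 1) × Fin (m + 1) × Fin m,
      ∀ f g z w, E h (Fin m) f g → c f z = c g w →
        E h (Option (Fin m)) (fun o => o.elim z f) (fun o => o.elim w g) := by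
  have hnear : ∀ (f : Fin m → ℕ) (z : ℕ), ∃ y₀, ∀ y, dl z (f y₀) ≤ dl z (f y) := by
    intro f z
    obtain ⟨y, _, hy⟩ := (univ : Finset (Fin m)).exists_min_image (fun y => dl z (f y))
      ⟨⟨0, hm⟩, mem_univ _⟩
    exact ⟨y, fun y' => hy y' (mem_univ _)⟩
  choose y₀ hy₀ using hnear
  have hlt : ∀ (p : Fin m → Prop) [DecidablePred p], (univ.filter p).card < m + 1 := by
    intro p _
    have := card_filter_le (univ : Finset (Fin m)) p
    simp only [card_univ, Fintype.card_fin] at this
    omega
  let c₀ : (Fin m → ℕ) → ℕ → Fin (m + 1) × Fin (m + 1) × Fin m := fun f z =>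
    (⟨_, hlt (fun j => f j < z)⟩, ⟨_, hlt (fun j => z < f j)⟩, y₀ f z)
  have hc₀ : ∀ f g z w, (∀ i j, f i < f j ↔ g i < g j) → c₀ f z = c₀ g w →
      (∀ a b : Option (Fin m), a.elim z f < b.elim z f ↔ a.elim w g < b.elim w g) ∧
        y₀ f z = y₀ g w := by
    intro f g z w hp hc
    simp only [c₀, Prod.mk.injEq, Fin.mk.injEq] at hc
    exact ⟨pat_ext hp hc.1 hc.2.1, hc.2.2⟩
  intro h
  induction h with
  | zero => exact ⟨fun f z _ => c₀ f z, fun f g z w hE hc => (hc₀ f g z w hE (congrFun hc 0)).1⟩
  | succ h ih =>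
    obtain ⟨c, hc⟩ := ih
    refine ⟨fun f z => Fin.cons (c₀ f z) (c (gap f) (dl z (f (y₀ f z)))), ?_⟩
    intro f g z w hE hfg
    obtain ⟨hpat, hy⟩ := hc₀ f g z w hE.1 (congrFun hfg 0)
    have hrk : rk f = rk g := by
      funext i
      apply Fin.ext
      show (univ.filter (fun j => f j < f i)).card = (univ.filter (fun j => g j < g i)).card
      exact congrArg card (filter_congr (fun j _ => hE.1 j i))
    have hgap : E h (Fin m) (gap f) (gap g) := by
      have := hE.2.comp (fun i : Fin m => (i, (exists_next (rk f) i).choose))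
      have e2 : gap g = fun i => dl (g i) (g (exists_next (rk f) i).choose) := by
        rw [hrk]; rfl
      rw [e2]
      exact this
    have hE' := hc _ _ _ _ hgap (funext (fun i => congrFun hfg i.succ))
    have hcf := common_factor hE.1 hgap.pat
    have key : ∀ y : Fin m, ∃ l : Option (Fin m),
        dl z (f y) = l.elim (dl z (f (y₀ f z))) (gap f) ∧
          dl w (g y) = l.elim (dl w (g (y₀ g w))) (gap g) := by
      intro y
      obtain ⟨l, hl1, hl2⟩ := hcf (y₀ f z) y
      have a1 := dl_nearest (hy₀ f z) y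
      have a2 := dl_nearest (hy₀ g w) y
      have a3 : dl z (f (y₀ f z)) < gap f l ↔ dl w (g (y₀ g w)) < gap g l :=
        hE'.pat none (some l)
      rw [hy] at hl2
      by_cases hcase : dl z (f (y₀ f z)) < gap f l
      · exact ⟨some l, by simp only [Option.elim]; omega, by simp only [Option.elim]; omega⟩
      · exact ⟨none, by simp only [Option.elim]; omega, by simp only [Option.elim]; omega⟩
    have hall : ∀ a b : Option (Fin m), ∃ l : Option (Fin m),
        dl (a.elim z f) (b.elim z f) = l.elim (dl z (f (y₀ f z))) (gap f) ∧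
          dl (a.elim w g) (b.elim w g) = l.elim (dl w (g (y₀ g w))) (gap g) := by
      rintro (_ | a) (_ | b)
      · obtain ⟨l, hl1, hl2⟩ := hcf ⟨0, hm⟩ ⟨0, hm⟩
        rw [dl_self] at hl1 hl2
        exact ⟨some l, (dl_self z).trans hl1, (dl_self w).trans hl2⟩
      · exact key b
      · obtain ⟨l, hl1, hl2⟩ := key a
        exact ⟨l, (dl_comm _ _).trans hl1, (dl_comm _ _).trans hl2⟩
      · obtain ⟨l, hl1, hl2⟩ := hcf a b
        exact ⟨some l, hl1, hl2⟩
    choose r hr1 hr2 using hall
    refine ⟨hpat, ?_⟩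
    have := hE'.comp (fun p : Option (Fin m) × Option (Fin m) => r p.1 p.2)
    simp only [← hr1, ← hr2] at this
    exact this

/-- Pairwise inequivalent families on `k + n` points with equivalent restrictions to `k` points. -/
theorem ext_count {h k M : ℕ} (hk : 1 ≤ k) : ∀ (n : ℕ) (σ : Fin k → Fin (k + n)),
    Function.Injective σ → k + n ≤ M → ∀ 𝒮 : Finset (Fin (k + n) → ℕ),
      (∀ s ∈ 𝒮, ∀ s' ∈ 𝒮, E h _ s s' → s = s') →
      (∀ s ∈ 𝒮, ∀ s' ∈ 𝒮, E h _ (fun i => s (σ i)) (fun i => s' (σ i))) →
      𝒮.card ≤ ((M ^ 3) ^ (h + 1)) ^ n := by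
  intro n
  induction n with
  | zero =>
    intro σ hσ _ 𝒮 h1 h2
    have hs : Function.Surjective σ := (Finite.injective_iff_surjective (f := σ)).1 hσ
    rw [pow_zero]
    apply card_le_one.2
    intro s hs1 s' hs2
    apply h1 s hs1 s' hs2
    have := (h2 s hs1 s' hs2).comp (Function.surjInv hs)
    simp only [Function.surjInv_eq hs] at this
    exact this
  | succ n ih =>
    intro σ hσ hM 𝒮 h1 h2
    obtain ⟨p, hp⟩ : ∃ p : Fin (k + n + 1), ∀ i, σ i ≠ p := by
      by_contra hcon
      push Not at hcon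
      have := Fintype.card_le_of_surjective σ hcon
      simp only [Fintype.card_fin] at this
      omega
    choose σ' hσ' using fun i => Fin.exists_succAbove_eq (hp i)
    obtain ⟨c, hc⟩ := ext_code (m := k + n) (by omega) h
    have hback : ∀ s ∈ 𝒮, ∀ s' ∈ 𝒮,
        c (fun i => s (p.succAbove i)) (s p) = c (fun i => s' (p.succAbove i)) (s' p) →
        E h _ (fun i => s (p.succAbove i)) (fun i => s' (p.succAbove i)) → s = s' := by
      intro s hs s' hs' hcc hE
      apply h1 s hs s' hs'
      have a1 := (hc _ _ _ _ hE hcc).comp (finSuccEquiv' p)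
      have a2 : ∀ u : Fin (k + n + 1) → ℕ,
          (fun i => (finSuccEquiv' p i).elim (u p) (fun i => u (p.succAbove i))) = u := by
        intro u
        funext i
        rcases Fin.eq_self_or_eq_succAbove p i with rfl | ⟨j, rfl⟩
        · simp
        · simp
      rw [a2 s, a2 s'] at a1
      exact a1
    classical
    have hfib := card_le_mul_card_image_of_maps_to (s := 𝒮) (t := univ)
      (f := fun s => c (fun i => s (p.succAbove i)) (s p)) (fun _ _ => mem_univ _)
      (((M ^ 3) ^ (h + 1)) ^ n) (by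
        intro v _
        have hinj : Set.InjOn (fun (s : Fin (k + (n + 1)) → ℕ) (i : Fin (k + n)) =>
            s (p.succAbove i))
            (𝒮.filter (fun s => c (fun i => s (p.succAbove i)) (s p) = v) : Set _) := by
          intro s hs s' hs' hss
          obtain ⟨a1, a2⟩ := mem_filter.1 (mem_coe.1 hs)
          obtain ⟨a3, a4⟩ := mem_filter.1 (mem_coe.1 hs')
          refine hback s a1 s' a3 (a2.trans a4.symm) ?_
          have : (fun i => s (p.succAbove i)) = fun i => s' (p.succAbove i) := hss
          rw [this]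
          exact E.refl _ _ _
        rw [← card_image_of_injOn hinj]
        refine ih σ' (fun i j hij => hσ (by rw [← hσ' i, ← hσ' j, hij])) (by omega) _ ?_ ?_
        · intro u hu u' hu' hE
          obtain ⟨s, hs, rfl⟩ := mem_image.1 hu
          obtain ⟨s', hs', rfl⟩ := mem_image.1 hu'
          obtain ⟨a1, a2⟩ := mem_filter.1 hs
          obtain ⟨a3, a4⟩ := mem_filter.1 hs'
          rw [hback s a1 s' a3 (a2.trans a4.symm) hE]
        · intro u hu u' hu'
          obtain ⟨s, hs, rfl⟩ := mem_image.1 hu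
          obtain ⟨s', hs', rfl⟩ := mem_image.1 hu'
          have := h2 s (mem_filter.1 hs).1 s' (mem_filter.1 hs').1
          simp only [← hσ'] at this
          exact this)
    refine hfib.trans ?_
    rw [pow_succ ((M ^ 3) ^ (h + 1))]
    apply Nat.mul_le_mul_left
    simp only [card_univ, Fintype.card_fun, Fintype.card_prod, Fintype.card_fin]
    apply Nat.pow_le_pow_left
    calc (k + n + 1) * ((k + n + 1) * (k + n)) ≤ M * (M * M) := by gcongr <;> omega
      _ = M ^ 3 := by ring

end Pool.Agent.Lib.MP_e96620_co.Few
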