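import Mathlib
import Pool.Agent.Shared.CountingLLL
import Pool.Agent.Lib.MP_e96620_co.BMain
import Pool.Agent.Lib.MP_e96620_co.CExt

/-!
The colouring for few extra points, by the local lemma on the types.
-/

set_option autoImplicit false

namespace Pool.Agent.Lib.MP_e96620_co.Few

open Finset

theorem tail_signs {Q : Type} [Fintype Q] [DecidableEq Q] (w : Q → ℝ) (V D : ℝ) (hV : 0 < V)
    (hD : 0 ≤ D) (hw : ∑ τ, w τ ^ 2 ≤ V) :
    ((univ.filter (fun χ : Q → Bool =>
      D < |∑ τ, w τ * (if χ τ then (1 : ℝ) else -1)|)).card : ℝ) ≤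
      2 * Real.exp (-(D ^ 2 / (2 * V))) * Fintype.card (Q → Bool) := by
  set θ := D / V with hθ
  have hθ0 : 0 ≤ θ := div_nonneg hD hV.le
  let X : (Q → Bool) → ℝ := fun χ => ∑ τ, w τ * (if χ τ then (1 : ℝ) else -1)
  have hlow : ∀ χ, D < |X χ| → Real.exp (θ * D) ≤ Real.exp (θ * X χ) + Real.exp (-(θ * X χ)) := by
    intro χ hlt
    have p1 := Real.exp_pos (θ * X χ)
    have p2 := Real.exp_pos (-(θ * X χ))
    rcases lt_abs.1 hlt with h | h
    · have : Real.exp (θ * D) ≤ Real.exp (θ * X χ) :=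
        Real.exp_le_exp.2 (mul_le_mul_of_nonneg_left h.le hθ0)
      linarith
    · have : Real.exp (θ * D) ≤ Real.exp (-(θ * X χ)) := by
        rw [← mul_neg]
        exact Real.exp_le_exp.2 (mul_le_mul_of_nonneg_left h.le hθ0)
      linarith
  have hup : ∑ χ : Q → Bool, (Real.exp (θ * X χ) + Real.exp (-(θ * X χ))) ≤
      2 * (2 ^ Fintype.card Q * Real.exp (θ ^ 2 * V / 2)) := by
    have hs : ∑ τ, (θ * w τ) ^ 2 ≤ θ ^ 2 * V := by
      simp only [mul_pow]
      rw [← mul_sum]
      exact mul_le_mul_of_nonneg_left hw (by positivity)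
    have a1 := sum_exp_signs (fun τ => θ * w τ) _ hs
    have a2 := sum_exp_signs (fun τ => -(θ * w τ)) (θ ^ 2 * V) (by simpa only [neg_sq] using hs)
    have e1 : ∀ χ : Q → Bool, θ * X χ = ∑ τ, θ * w τ * (if χ τ then (1 : ℝ) else -1) := by
      intro χ
      simp only [X, mul_sum, mul_assoc]
    have e2 : ∀ χ : Q → Bool,
        -(θ * X χ) = ∑ τ, -(θ * w τ) * (if χ τ then (1 : ℝ) else -1) := by
      intro χ
      rw [e1, ← sum_neg_distrib]
      simp only [neg_mul]
    rw [sum_add_distrib]
    simp only [e2]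
    simp only [e1]
    linarith
  have hexp : Real.exp (θ ^ 2 * V / 2) = Real.exp (-(D ^ 2 / (2 * V))) * Real.exp (θ * D) := by
    rw [← Real.exp_add]
    congr 1
    rw [hθ]
    field_simp
    ring
  apply le_of_mul_le_mul_right _ (Real.exp_pos (θ * D))
  calc _ = ∑ _χ ∈ univ.filter (fun χ : Q → Bool => D < |X χ|), Real.exp (θ * D) := by
        rw [sum_const, nsmul_eq_mul]
    _ ≤ ∑ χ ∈ univ.filter (fun χ : Q → Bool => D < |X χ|),
          (Real.exp (θ * X χ) + Real.exp (-(θ * X χ))) :=
        sum_le_sum (fun χ hχ => hlow χ (mem_filter.1 hχ).2)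
    _ ≤ ∑ χ : Q → Bool, (Real.exp (θ * X χ) + Real.exp (-(θ * X χ))) :=
        sum_le_sum_of_subset_of_nonneg (filter_subset _ _) (fun _ _ _ => by positivity)
    _ ≤ _ := hup
    _ = _ := by
        rw [hexp, Fintype.card_fun, Fintype.card_bool]
        push_cast
        ring

theorem exists_signs_local {Q J : Type} [Fintype Q] [DecidableEq Q] (W : Finset J)
    (w : J → Q → ℝ) (V D : ℝ) (M Δ : ℕ) (hV : 0 < V) (hD : 0 ≤ D) (hM : 0 < M)
    (hw : ∀ j ∈ W, ∑ τ, w j τ ^ 2 ≤ V)
    (hsupp : ∀ j ∈ W, (univ.filter (fun τ => w j τ ≠ 0)).card ≤ M)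
    (hdeg : ∀ τ, (W.filter (fun j => w j τ ≠ 0)).card ≤ Δ)
    (hsmall : 8 * (M : ℝ) * Δ * Real.exp (-(D ^ 2 / (2 * V))) ≤ 1) :
    ∃ χ : Q → Bool, ∀ j ∈ W, |∑ τ, w j τ * (if χ τ then (1 : ℝ) else -1)| ≤ D := by
  classical
  have hMR : (1 : ℝ) ≤ M := by exact_mod_cast hM
  set p : ℝ := 2 * Real.exp (-(D ^ 2 / (2 * V))) with hp
  have hp0 : 0 ≤ p := by positivity
  set x : ℝ := 1 / (2 * M) with hx
  have hx0 : 0 < x := by positivity
  have hx1 : x ≤ 1 / 2 := one_div_le_one_div_of_le (by norm_num) (by linarith)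
  have hxM : x * M = 1 / 2 := by rw [hx]; field_simp
  obtain ⟨χ, hχ⟩ := Pool.Agent.Shared.CountingLLL.exists_avoid
    (W.filter (fun j => (univ.filter (fun τ => w j τ ≠ 0)).Nonempty))
    (fun j => univ.filter (fun τ => w j τ ≠ 0))
    (fun j => univ.filter (fun χ : Q → Bool =>
      D < |∑ τ, w j τ * (if χ τ then (1 : ℝ) else -1)|))
    (fun j hj => (mem_filter.1 hj).2)
    (by
      intro j _ φ ψ hφψ hφ
      refine mem_filter.2 ⟨mem_univ _, lt_of_lt_of_eq (mem_filter.1 hφ).2 ?_⟩
      congr 1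
      apply sum_congr rfl
      intro τ _
      by_cases h0 : w j τ = 0
      · rw [h0, zero_mul, zero_mul]
      · rw [hφψ τ (mem_filter.2 ⟨mem_univ _, h0⟩)])
    (fun _ => p) (fun _ _ => hp0)
    (fun j hj => tail_signs (w j) V D hV hD (hw j (mem_filter.1 hj).1))
    (1 - x) (by linarith) (by linarith)
    (by
      intro τ
      have a1 : ∀ j ∈ W, p / (1 - x) ^ (univ.filter (fun τ => w j τ ≠ 0)).card ≤ 2 * p := by
        intro j hj
        have b1 : (1 - x) ^ M ≤ (1 - x) ^ (univ.filter (fun τ => w j τ ≠ 0)).card :=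
          pow_le_pow_of_le_one (by linarith) (by linarith) (hsupp j hj)
        have b2 := one_add_mul_le_pow (a := -x) (by linarith) M
        rw [← sub_eq_add_neg] at b2
        rw [div_le_iff₀ (pow_pos (by linarith) _)]
        nlinarith
      calc _ ≤ ∑ j ∈ W, (if w j τ ≠ 0 then 2 * p else 0) := by
            refine le_trans (sum_le_sum (g := fun j => if w j τ ≠ 0 then 2 * p else 0) ?_)
              (sum_le_sum_of_subset_of_nonneg (filter_subset _ _) ?_)
            · intro j hj
              simp only [mem_filter, mem_univ, true_and]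
              split_ifs
              · exact a1 j (mem_filter.1 hj).1
              · exact le_rfl
            · intro j _ _
              split_ifs
              · positivity
              · exact le_rfl
        _ = (W.filter (fun j => w j τ ≠ 0)).card * (2 * p) := by
            rw [← sum_filter, sum_const, nsmul_eq_mul]
        _ ≤ Δ * (2 * p) := by
            have : ((W.filter (fun j => w j τ ≠ 0)).card : ℝ) ≤ Δ := by exact_mod_cast hdeg τ
            gcongr
        _ ≤ 1 - (1 - x) := by
            rw [sub_sub_cancel, hx, le_div_iff₀ (by positivity), hp]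
            linarith)
  refine ⟨χ, fun j hj => ?_⟩
  by_cases hne : (univ.filter (fun τ => w j τ ≠ 0)).Nonempty
  · have := hχ j (mem_filter.2 ⟨hj, hne⟩)
    exact not_lt.1 (fun hh => this (mem_filter.2 ⟨mem_univ _, hh⟩))
  · rw [sum_eq_zero, abs_zero]
    · exact hD
    · intro τ _
      have : w j τ = 0 := by
        by_contra h0
        exact hne ⟨τ, mem_filter.2 ⟨mem_univ _, h0⟩⟩
      rw [this, zero_mul]

theorem exists_colouring {h k n N : ℕ} {M D : ℝ} (hk : 1 ≤ k)
    (hN : N ≤ tw h + 2) (hM : 0 < M) (hD : 0 ≤ D)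
    (hbd : ∀ (A : Finset ℕ) (𝒯 : Finset (Finset ℕ)), Good h ∅ A 𝒯 → A.card = k + n →
      (∀ T ∈ 𝒯, T.card = k) → (𝒯.card : ℝ) ≤ M)
    (hsmall : 8 * ((k + n).choose k : ℕ) *
      (((k + n).choose k * (((k + n) ^ 3) ^ (h + 1)) ^ n : ℕ) : ℝ) *
      Real.exp (-(D ^ 2 / (2 * (M * ((k + n).choose k : ℕ))))) ≤ 1) :
    ∃ γ : Finset (Fin N) → Bool, ∀ S : Finset (Fin N), S.card = k + n →
      |∑ T ∈ S.powersetCard k, (if γ T then (1 : ℝ) else -1)| ≤ D := by
  classical
  obtain ⟨hfinQ, _⟩ := finite_quot h k hk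
  obtain ⟨hfinJ, _⟩ := finite_quot h (k + n) (by omega)
  let _ : Fintype (Quotient (eSetoid h k)) := Fintype.ofFinite _
  let _ : Fintype (Quotient (eSetoid h (k + n))) := Fintype.ofFinite _
  let W : Finset (Quotient (eSetoid h (k + n))) := univ.filter (fun q =>
    ∃ s : Fin (k + n) → ℕ, Function.Injective s ∧ (∀ i, s i < tw h + 2) ∧
      Quotient.mk (eSetoid h (k + n)) s = q)
  let w : Quotient (eSetoid h (k + n)) → Quotient (eSetoid h k) → ℝ := fun q τ =>
    (((univ : Finset {I : Finset (Fin (k + n)) // I.card = k}).filter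
      (fun I => cls h k (k + n) q.out I = τ)).card : ℝ)
  have hout : ∀ s : Fin (k + n) → ℕ, ∀ I,
      cls h k (k + n) (Quotient.mk (eSetoid h (k + n)) s).out I = cls h k (k + n) s I := by
    intro s I
    exact cls_congr (Quotient.mk_out (s := eSetoid h (k + n)) s) I
  have hchoose : (0 : ℝ) < ((k + n).choose k : ℕ) := by
    exact_mod_cast Nat.choose_pos (by omega)
  have hsumw : ∀ q, ∑ τ, w q τ = ((k + n).choose k : ℕ) := by
    intro q
    have h1 := card_eq_sum_card_fiberwise
      (s := (univ : Finset {I : Finset (Fin (k + n)) // I.card = k})) (t := univ)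
      (f := fun I => cls h k (k + n) q.out I) (fun _ _ => mem_coe.2 (mem_univ _))
    rw [card_univ, Fintype.card_finset_len, Fintype.card_fin] at h1
    rw [h1]
    push_cast
    rfl
  have hsupp : ∀ q τ, w q τ ≠ 0 → τ ∈ (univ : Finset {I : Finset (Fin (k + n)) // I.card = k}).image
      (fun I => cls h k (k + n) q.out I) := by
    intro q τ hw
    obtain ⟨I, hI⟩ := card_ne_zero.1 (Nat.cast_ne_zero.1 hw)
    exact mem_image.2 ⟨I, mem_univ _, (mem_filter.1 hI).2⟩
  obtain ⟨χ, hχ⟩ := exists_signs_local W w (M * ((k + n).choose k : ℕ)) D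
    ((k + n).choose k) ((k + n).choose k * (((k + n) ^ 3) ^ (h + 1)) ^ n)
    (by positivity) hD (Nat.choose_pos (by omega))
    (by
      intro q hq
      obtain ⟨s, hs1, hs2, rfl⟩ := (mem_filter.1 hq).2
      rw [← hsumw (Quotient.mk (eSetoid h (k + n)) s), mul_sum]
      apply sum_le_sum
      intro τ _
      rw [sq]
      refine mul_le_mul_of_nonneg_right ?_ (Nat.cast_nonneg _)
      simp only [w, hout]
      exact Biased.fibre_le hbd hs1 hs2 τ)
    (by
      intro q _
      refine le_trans (card_le_card (fun τ hτ => hsupp q τ (mem_filter.1 hτ).2)) ?_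
      refine card_image_le.trans (le_of_eq ?_)
      rw [card_univ, Fintype.card_finset_len, Fintype.card_fin])
    (by
      intro τ
      have h1 : W.filter (fun q => w q τ ≠ 0) ⊆
          (univ : Finset {I : Finset (Fin (k + n)) // I.card = k}).biUnion
            (fun I => univ.filter (fun q => cls h k (k + n) q.out I = τ)) := by
        intro q hq
        obtain ⟨I, _, hI⟩ := mem_image.1 (hsupp q τ (mem_filter.1 hq).2)
        exact mem_biUnion.2 ⟨I, mem_univ _, mem_filter.2 ⟨mem_univ _, hI⟩⟩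
      refine (card_le_card h1).trans ((card_biUnion_le_card_mul _ _
        ((((k + n) ^ 3) ^ (h + 1)) ^ n) ?_).trans (le_of_eq ?_))
      · intro I _
        rw [← card_image_of_injective _ Quotient.out_injective]
        refine ext_count (h := h) hk n (I.1.orderEmbOfFin I.2) (I.1.orderEmbOfFin I.2).injective
          le_rfl _ ?_ ?_
        · intro s hs s' hs' hE
          obtain ⟨q, _, rfl⟩ := mem_image.1 hs
          obtain ⟨q', _, rfl⟩ := mem_image.1 hs'
          have : q = q' := by
            rw [← q.out_eq, ← q'.out_eq]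
            exact Quotient.sound hE
          rw [this]
        · intro s hs s' hs'
          obtain ⟨q, hq, rfl⟩ := mem_image.1 hs
          obtain ⟨q', hq', rfl⟩ := mem_image.1 hs'
          exact Quotient.exact ((mem_filter.1 hq).2.trans (mem_filter.1 hq').2.symm)
      · rw [card_univ, Fintype.card_finset_len, Fintype.card_fin])
    hsmall
  refine ⟨fun T => if hT : T.card = k then
    χ (Quotient.mk (eSetoid h k) (fun i => (T.orderEmbOfFin hT i : ℕ))) else true, ?_⟩
  intro S hS
  let e := S.orderEmbOfFin hS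
  let s : Fin (k + n) → ℕ := fun i => (e i : ℕ)
  have hs1 : Function.Injective s := fun i j hij => e.injective (Fin.ext hij)
  have hs2 : ∀ i, s i < tw h + 2 := fun i => lt_of_lt_of_le (e i).isLt hN
  have hq := hχ (Quotient.mk (eSetoid h (k + n)) s) (mem_filter.2 ⟨mem_univ _, s, hs1, hs2, rfl⟩)
  refine le_trans (le_of_eq ?_) hq
  congr 1
  have h1 : ∑ τ, w (Quotient.mk (eSetoid h (k + n)) s) τ * (if χ τ then (1 : ℝ) else -1) =
      ∑ I : {I : Finset (Fin (k + n)) // I.card = k},
        (if χ (cls h k (k + n) s I) then (1 : ℝ) else -1) := by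
    rw [← sum_fiberwise (s := univ) (g := fun I => cls h k (k + n) s I)]
    apply sum_congr rfl
    intro τ _
    simp only [w, hout]
    rw [sum_congr rfl (g := fun _ => if χ τ then (1 : ℝ) else -1), sum_const, nsmul_eq_mul]
    intro I hI
    rw [(mem_filter.1 hI).2]
  rw [h1]
  symm
  apply sum_bij (fun I _ => I.1.map e.toEmbedding)
  · intro I _
    refine mem_powersetCard.2 ⟨?_, by rw [card_map]; exact I.2⟩
    intro x hx
    obtain ⟨a, _, rfl⟩ := mem_map.1 hx
    exact orderEmbOfFin_mem _ _ _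
  · intro I _ J _ hIJ
    exact Subtype.ext (map_injective _ hIJ)
  · intro T hT
    obtain ⟨hTS, hTk⟩ := mem_powersetCard.1 hT
    have hmap : (univ.filter (fun i => e i ∈ T)).map e.toEmbedding = T := by
      ext x
      simp only [mem_map, mem_filter, mem_univ, true_and]
      constructor
      · rintro ⟨a, ha, rfl⟩
        exact ha
      · intro hx
        have : x ∈ Set.range e := by
          rw [range_orderEmbOfFin]; exact hTS hx
        obtain ⟨i, rfl⟩ := this
        exact ⟨i, hx, rfl⟩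
    refine ⟨⟨univ.filter (fun i => e i ∈ T), ?_⟩, mem_univ _, hmap⟩
    rw [← card_map e.toEmbedding, hmap, hTk]
  · intro I _
    have hcard : (I.1.map e.toEmbedding).card = k := by rw [card_map]; exact I.2
    have hen : (fun i => e (I.1.orderEmbOfFin I.2 i)) =
        (I.1.map e.toEmbedding).orderEmbOfFin hcard :=
      orderEmbOfFin_unique hcard
        (fun i => mem_map.2 ⟨_, orderEmbOfFin_mem _ _ _, rfl⟩)
        (e.strictMono.comp (I.1.orderEmbOfFin I.2).strictMono)
    simp only [dif_pos hcard]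
    rw [← hen]
    rfl

/-- The colouring for few extra points, for sets of size exactly `k + n`. -/
theorem core_few {k n h N : ℕ} (hn : 1 ≤ n) (hk1 : 1 ≤ k) (hN : N ≤ tw h) :
    ∃ γ : Finset (Fin N) → Bool, ∀ S : Finset (Fin N), S.card = k + n →
      |∑ T ∈ S.powersetCard k, (if γ T then (1 : ℝ) else -1)| ≤
        Real.sqrt (16 * (n : ℝ) * (h + 1) * Real.log (k + n) * (12 * n * (h + 3) / k) ^ n) *
          ((k + n).choose k : ℕ) := by
  have hk1R : (1 : ℝ) ≤ k := by exact_mod_cast hk1
  have hn1R : (1 : ℝ) ≤ n := by exact_mod_cast hn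
  have hchoose : (0 : ℝ) < ((k + n).choose k : ℕ) := by
    exact_mod_cast Nat.choose_pos (by omega)
  set L := Real.log (k + n) with hL
  have hexp : Real.exp L = k + n := Real.exp_log (by positivity)
  have hL0 : 0 < L := Real.log_pos (by linarith)
  set β : ℝ := (12 * n * (h + 3) / k) ^ n with hβ
  have hβ0 : 0 < β := by positivity
  refine exists_colouring (h := h) (M := β * ((k + n).choose k : ℕ)) hk1
    (le_trans hN (Nat.le_add_right _ _)) (by positivity) (by positivity) ?_ ?_
  · intro A 𝒯 hg hA hT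
    have h1 := class_card (h := h) n A 𝒯 hg.2.2 (fun T hT' => by
      have hs := sdiff_eq_empty_iff_subset.1 (hg.1 T hT')
      refine ⟨hs, ?_⟩
      rw [card_sdiff_of_subset hs, hA, hT T hT']
      omega) hg.2.1
    have h2 : ((k : ℝ) / n) ^ n ≤ ((k + n).choose k : ℕ) := by
      have a1 := Nat.pow_le_choose (α := ℝ) n (k + n)
      rw [show k + n + 1 - n = k + 1 by omega, ← Nat.choose_symm_add] at a1
      refine le_trans ?_ a1
      have a2 : (n.factorial : ℝ) ≤ (n : ℝ) ^ n := by exact_mod_cast Nat.factorial_le_pow n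
      have a3 : (0 : ℝ) < n.factorial := by positivity
      rw [div_pow]
      push_cast
      gcongr
      linarith
    calc (𝒯.card : ℝ) ≤ (12 * (h + 3 : ℕ)) ^ n := h1
      _ = β * ((k : ℝ) / n) ^ n := by
          rw [hβ, ← mul_pow]
          congr 1
          push_cast
          field_simp
      _ ≤ _ := by gcongr
  · have h1 : (Real.sqrt (16 * (n : ℝ) * (h + 1) * L * β) * ((k + n).choose k : ℕ)) ^ 2 /
        (2 * (β * ((k + n).choose k : ℕ) * ((k + n).choose k : ℕ))) = 8 * (n * (h + 1)) * L := by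
      rw [mul_pow, Real.sq_sqrt (by positivity)]
      field_simp
      ring
    rw [h1]
    have h2 : 8 * (k + n).choose k * ((k + n).choose k * (((k + n) ^ 3) ^ (h + 1)) ^ n) ≤
        (k + n) ^ (8 * (n * (h + 1))) := by
      have a1 : (k + n).choose k ≤ (k + n) ^ n := by
        rw [Nat.choose_symm_add]
        exact Nat.choose_le_pow _ _
      have a2 : 8 ≤ (k + n) ^ 3 := by
        calc 8 = 2 ^ 3 := rfl
          _ ≤ _ := Nat.pow_le_pow_left (by omega) _
      calc _ ≤ (k + n) ^ 3 * (k + n) ^ n * ((k + n) ^ n * (((k + n) ^ 3) ^ (h + 1)) ^ n) := by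
            gcongr
        _ = (k + n) ^ (3 + n + (n + 3 * (h + 1) * n)) := by
            rw [← pow_mul, ← pow_mul, ← pow_add, ← pow_add, ← pow_add, mul_assoc]
        _ ≤ _ := Nat.pow_le_pow_right (by omega) (by nlinarith [Nat.zero_le (n * h)])
    have h3 : (((k + n) ^ (8 * (n * (h + 1))) : ℕ) : ℝ) = Real.exp (8 * (n * (h + 1)) * L) := by
      have : (8 * (n * (h + 1)) : ℝ) = ((8 * (n * (h + 1)) : ℕ) : ℝ) := by push_cast; ring
      rw [this, Real.exp_nat_mul, hexp]
      push_cast
      rfl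
    have h4 : 8 * (((k + n).choose k : ℕ) : ℝ) *
        (((k + n).choose k * (((k + n) ^ 3) ^ (h + 1)) ^ n : ℕ) : ℝ) ≤
        Real.exp (8 * (n * (h + 1)) * L) := by
      rw [← h3]
      exact_mod_cast h2
    calc _ ≤ Real.exp (8 * (n * (h + 1)) * L) * Real.exp (-(8 * (n * (h + 1)) * L)) := by gcongr
      _ = 1 := by rw [← Real.exp_add, add_neg_cancel, Real.exp_zero]

end Pool.Agent.Lib.MP_e96620_co.Few
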